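import Pool.Agent.Work.MP_db9399_da.Pre2

/-!
# MP_db9399, DENSE-ALL, phase 2, PREX: one exchange with a fresh colour (block STPA, helper72)
-/

set_option autoImplicit false

namespace Pool.Agent.Work.MP_db9399_da.helper72

open Finset Classical
open Pool.Agent.Work.MP_db9399_all (nb)
open Pool.Agent.Work.MP_db9399_da
open Pool.Agent.Work.MP_db9399_da.helper82 (EC StepR alc step Fs mem_Fs)

universe u

namespace STPA

section basic
variable {V : Type u} [Fintype V] {M : ℕ}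

theorem mem_nb (G : SimpleGraph V) (v w : V) : w ∈ nb G v ↔ G.Adj v w := by
  simp [nb]

theorem Fs_eq (G : SimpleGraph V) (X : HD V) (P : Pcs V M) (t : V → V → ℕ) (v : V) :
    Fs (thin2 G X P) t v = Fc2 G X P t v := rfl

theorem mem_Fc2 (G : SimpleGraph V) (X : HD V) (P : Pcs V M) (t : V → V → ℕ) (v : V) (b : ℕ) :
    b ∈ Fc2 G X P t v ↔ ∃ w, (thin2 G X P).Adj v w ∧ t v w = b := mem_Fs _ _ _ _

theorem mem_Fc (G : SimpleGraph V) (P : Pcs V M) (t : V → V → ℕ) (v : V) (b : ℕ) :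
    b ∈ Fc G P t v ↔ ∃ w, (thin G P).Adj v w ∧ t v w = b := mem_Fs _ _ _ _

/-- edges at exceptional vertices are thin -/
theorem thin2_V0 (G : SimpleGraph V) (X : HD V) (P : Pcs V M) {z v : V} (hz : z ∈ P.V0)
    (h : G.Adj z v) : (thin2 G X P).Adj z v := ⟨h, fun h' => h'.1.2.1 hz⟩

theorem thin_V0 (G : SimpleGraph V) (P : Pcs V M) {z v : V} (hz : z ∈ P.V0)
    (h : G.Adj z v) : (thin G P).Adj z v := ⟨h, fun h' => h'.2.1 hz⟩

/-- no edge of the matching goes from anywhere to a member outside `VH` -/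
theorem not_H {k d : ℕ} {G : SimpleGraph V} {X : HD V} {P : Pcs V M} (hp : HP k d G X)
    (hs : SupP P X) {z v : V} (h0 : v ∉ P.V0) (h1 : v ∉ X.VH) : ¬ X.H.Adj z v := by
  intro h
  rcases hp.HS v z h.symm with h2 | h2
  · exact h1 h2
  · exact h0 (hs v h2).1

/-- the colour `h0` at an end in `W0` is special -/
theorem h0_mem {k d : ℕ} {G : SimpleGraph V} {X : HD V} {Ss : Finset ℕ} (hp : HP k d G X)
    (hS : ∀ v ∈ X.VH, X.c0 v ∈ Ss ∧ X.h0 v ∈ Ss) {z u : V} (h : X.H.Adj z u) :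
    X.h0 z ∈ Ss := by
  rcases hp.HH z u h with h2 | h2
  · exact (hS z h2).2
  · rw [(hp.h0l z u h).2]
    exact (hS u h2).2

end basic

section main
variable {V : Type u} [Fintype V] {M : ℕ}
  {C g ρ K π κ ε ε2 σ τ ζ θ : ℝ} {k k2 K5 L : ℕ} {G : SimpleGraph V} {d : ℕ} {P : Pcs V M}
  {A : Pal} {X : HD V} {Ss : Finset ℕ} {t0 : V → V → ℕ} {c : V → ℕ} {Sp : Finset ℕ}

/-- the old colour of an edge of `X.H` at an exceptional vertex is not special -/
theorem t0_nSs (hc : Cx C g ρ K π κ ε ε2 σ τ ζ θ k k2 K5 L G d P A X Ss t0 c Sp) {z u : V}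
    (hW : z ∈ W0 X) (hz : z ∈ P.V0) (h : X.H.Adj z u) : t0 z u ∉ Ss := by
  have hG : G.Adj z u := hc.hp.HG z u h
  by_cases hu : u ∈ P.V0
  · exact hc.sh.v0s z hW hz u hu hG
  · have h1 : u ∈ X.VH := by
      rcases hc.hp.HS u z h.symm with h2 | h2
      · exact h2
      · exact absurd (hc.sup u h2).1 hu
    have h2 := hc.sh.mem u h1 hu z (thin_V0 G P hz hG).symm
    rw [hc.pre.sym z u]
    exact h2

theorem c_nSs (hc : Cx C g ρ K π κ ε ε2 σ τ ζ θ k k2 K5 L G d P A X Ss t0 c Sp) {z : V}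
    (hz : z ∈ P.V0) : c z ∉ Ss := by
  have h1 : c z ∈ Sp := by rw [hc.pre.own]; exact mem_image_of_mem c hz
  exact disjoint_left.1 hc.sh.sS h1

theorem c_ne_t0 (hc : Cx C g ρ K π κ ε ε2 σ τ ζ θ k k2 K5 L G d P A X Ss t0 c Sp) {z u : V}
    (hz : z ∈ P.V0) (h : X.H.Adj z u) : c z ≠ t0 z u := by
  intro e
  apply hc.pre.onb z hz
  rw [mem_Fc]
  exact ⟨u, thin_V0 G P hz (hc.hp.HG z u h), e.symm⟩

end main

end STPA

open STPA

theorem stmt_STPA (hDEX : Stmt_DEX.{u}) : Stmt_STPA.{u} := by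
  intro C g ρ K π κ ε ε2 σ τ ζ θ M k k2 K5 L V _ G d P A X Ss t0 c Sp hc Bd s t U hP
    z v x b b3 f hzW hz hGv hGx hvx hv0 hvH hx0 hxH htv htx huse h3P h3S h3z h3v hfx hav hax hSC
    hzS
  have hTv : (thin2 G X P).Adj z v := thin2_V0 G X P hz hGv
  have hTx : (thin2 G X P).Adj z x := thin2_V0 G X P hz hGx
  have hHv : ¬ X.H.Adj z v := not_H hc.hp hc.sup hv0 hvH
  have hHx : ¬ X.H.Adj z x := not_H hc.hp hc.sup hx0 hxH
  have hzv : z ≠ v := hGv.ne
  have hzx : z ≠ x := hGx.ne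
  have hbz : b ∈ Fc2 G X P t z := (mem_Fc2 G X P t z b).2 ⟨v, hTv, htv⟩
  have hbv : b ∈ Fc2 G X P t v :=
    (mem_Fc2 G X P t v b).2 ⟨z, hTv.symm, by rw [hP.ec.sym, htv]⟩
  have h3x : b3 ∈ Fc2 G X P t x :=
    (mem_Fc2 G X P t x b3).2 ⟨z, hTx.symm, by rw [hP.ec.sym, htx]⟩
  -- `b`, `f` are special or reserved
  have hbSB : b ∈ Ss ∪ Bd := by
    rcases huse with ⟨_, h⟩ | ⟨h1, h2, _⟩ | ⟨u, h1, h2, _⟩
    · exact h
    · rw [h2]; exact mem_union_left _ (hc.sV z h1).1
    · rw [h2]; exact mem_union_left _ (h0_mem hc.hp hc.sV h1)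
  have hfSB : f ∈ Ss ∪ Bd := by
    rcases huse with ⟨h1, h⟩ | ⟨h1, _, h2⟩ | ⟨u, h1, _, h2⟩
    · rw [h1]; exact h
    · refine mem_union_right _ (hP.B0 ?_)
      unfold Bd0
      refine mem_union_right _ (mem_image.2 ⟨z, mem_inter.2 ⟨h1, hz⟩, h2.symm⟩)
    · refine mem_union_right _ (hP.B0 ?_)
      unfold Bd0
      refine mem_union_left _ (mem_union_left _ (mem_image.2 ⟨(z, u), ?_, h2.symm⟩))
      rw [mem_filter]
      exact ⟨mem_univ _, h1, thin_V0 G P hz (hc.hp.HG z u h1)⟩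
  have hUB : ∀ y, y ∈ Ss ∪ Bd → y ∉ U := by
    intro y hy hyU
    have := disjoint_left.1 hP.Ud hyU
    apply this
    rcases mem_union.1 hy with h | h
    · exact mem_union_left _ (mem_union_left _ h)
    · exact mem_union_right _ h
  have hbU : b ∉ U := hUB b hbSB
  have hfU : f ∉ U := hUB f hfSB
  have h3U : b3 ∉ U := fun h => h3S (mem_union_right _ h)
  have h3Ss : b3 ∉ Ss := fun h =>
    h3S (mem_union_left _ (mem_union_left _ (mem_union_left _ h)))
  have h3SB : b3 ∉ Ss ∪ Bd := by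
    intro h; apply h3S
    rcases mem_union.1 h with h | h
    · exact mem_union_left _ (mem_union_left _ (mem_union_left _ h))
    · exact mem_union_left _ (mem_union_right _ h)
  have hb3 : b ≠ b3 := fun e => h3SB (e ▸ hbSB)
  have hf3 : f ≠ b3 := fun e => h3SB (e ▸ hfSB)
  -- `f` is missing at `z` or equal to `b`
  have hfz : f = b ∨ f ∉ Fc2 G X P t z := by
    rcases huse with ⟨h1, _⟩ | ⟨h1, h2, h3⟩ | ⟨u, h1, h2, h3⟩
    · exact Or.inl h1
    · right
      rw [h3]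
      exact hP.own2 z h1 hz (h2 ▸ hbz)
    · right
      rw [h3]
      exact hP.hol z hzW hz u h1 (h2 ▸ hbz)
  have hflt : f < d + 2 := by
    rcases huse with ⟨h1, _⟩ | ⟨_, _, h3⟩ | ⟨u, h1, _, h3⟩
    · rw [h1, ← htv]; exact hP.lt z v hTv hHv
    · have h4 : c z ∈ Sp := by rw [hc.pre.own]; exact mem_image_of_mem c hz
      have h5 := hc.pre.SC h4
      unfold Pal.C0 at h5
      rw [mem_sdiff, mem_range] at h5
      rw [h3]; exact h5.1
    · rw [h3]; exact hc.pre.lt z u (thin_V0 G P hz (hc.hp.HG z u h1))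
  have h3lt : b3 < d + 2 := by rw [← htx]; exact hP.lt z x hTx hHx
  obtain ⟨t', r⟩ := step hP.ec z v x b b3 f hTv hTx hvx htv htx h3v hfx hfz
  have Fv : Fc2 G X P t' v = insert b3 ((Fc2 G X P t v).erase b) := r.Fv
  have Fx : Fc2 G X P t' x = insert f ((Fc2 G X P t x).erase b3) := r.Fx
  have Fz : Fc2 G X P t' z = insert f ((Fc2 G X P t z).erase b) := r.Fz
  have Fo : ∀ a, a ≠ z → a ≠ v → a ≠ x → Fc2 G X P t' a = Fc2 G X P t a := r.Fo
  have FV0 : ∀ a ∈ P.V0, a ≠ z → Fc2 G X P t' a = Fc2 G X P t a := fun a ha haz =>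
    Fo a haz (fun e => hv0 (e ▸ ha)) (fun e => hx0 (e ▸ ha))
  refine ⟨t', r, ?_⟩
  -- a pair of vertices is `z v`, `z x` or unchanged
  have hpq : ∀ p q, ((p = z ∧ q = v ∧ t' p q = b3) ∨ (p = v ∧ q = z ∧ t' p q = b3)) ∨
      ((p = z ∧ q = x ∧ t' p q = f) ∨ (p = x ∧ q = z ∧ t' p q = f)) ∨ t' p q = t p q := by
    intro p q
    by_cases h1 : (p = z ∧ q = v) ∨ (p = v ∧ q = z)
    · left
      rcases h1 with ⟨rfl, rfl⟩ | ⟨rfl, rfl⟩
      · exact Or.inl ⟨rfl, rfl, r.zv⟩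
      · exact Or.inr ⟨rfl, rfl, by rw [r.ec.sym]; exact r.zv⟩
    · right
      by_cases h2 : (p = z ∧ q = x) ∨ (p = x ∧ q = z)
      · left
        rcases h2 with ⟨rfl, rfl⟩ | ⟨rfl, rfl⟩
        · exact Or.inl ⟨rfl, rfl, r.zx⟩
        · exact Or.inr ⟨rfl, rfl, by rw [r.ec.sym]; exact r.zx⟩
      · right
        exact r.old p q h1 h2
  have hvW : ¬ v ∈ X.S0 := fun h => hv0 (hc.sup v h).1
  have hxW : ¬ x ∈ X.S0 := fun h => hx0 (hc.sup x h).1
  constructor
  · exact r.ec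
  · -- dm
    intro p q hpqH
    have h1 : ¬ ((p = z ∧ q = v) ∨ (p = v ∧ q = z)) := by
      rintro (⟨rfl, rfl⟩ | ⟨rfl, rfl⟩)
      · exact hHv hpqH
      · exact hHv hpqH.symm
    have h2 : ¬ ((p = z ∧ q = x) ∨ (p = x ∧ q = z)) := by
      rintro (⟨rfl, rfl⟩ | ⟨rfl, rfl⟩)
      · exact hHx hpqH
      · exact hHx hpqH.symm
    rw [r.old p q h1 h2]
    exact hP.dm p q hpqH
  · -- lt
    intro p q hT hH
    rcases hpq p q with (⟨_, _, h⟩ | ⟨_, _, h⟩) | (⟨_, _, h⟩ | ⟨_, _, h⟩) | h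
    · rw [h]; exact h3lt
    · rw [h]; exact h3lt
    · rw [h]; exact hflt
    · rw [h]; exact hflt
    · rw [h]; exact hP.lt p q hT hH
  · -- al
    intro y hy b' hb' hb'd
    have hyz : y ≠ z := fun e => hy (e ▸ hz)
    by_cases hyv : y = v
    · subst hyv
      rw [Fv, mem_insert, mem_erase] at hb'
      rcases hb' with h | h
      · rw [h]; exact hav
      · exact hP.al y hy b' h.2 hb'd
    · by_cases hyx : y = x
      · subst hyx
        rw [Fx, mem_insert, mem_erase] at hb'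
        rcases hb' with h | h
        · rw [h]; exact hax
        · exact hP.al y hy b' h.2 hb'd
      · rw [Fo y hyz hyv hyx] at hb'
        exact hP.al y hy b' hb' hb'd
  · -- UP
    intro y hy
    rcases mem_insert.1 hy with h | h
    · rw [h]; exact h3P
    · exact hP.UP h
  · -- Ud
    rw [disjoint_insert_left]
    exact ⟨fun h => h3S (mem_union_left _ h), hP.Ud⟩
  · -- Uc
    exact (card_insert_le _ _).trans (Nat.succ_le_succ hP.Uc)
  · exact hP.B0
  · exact hP.Bp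
  · exact hP.B2
  · -- ch
    intro p q hT hH hne
    rcases hpq p q with (⟨rfl, rfl, _⟩ | ⟨rfl, rfl, _⟩) | (⟨rfl, rfl, _⟩ | ⟨rfl, rfl, _⟩) | h
    · exact Or.inl ⟨hzW, hz, hv0, hvH⟩
    · exact Or.inr ⟨hzW, hz, hv0, hvH⟩
    · exact Or.inl ⟨hzW, hz, hx0, hxH⟩
    · exact Or.inr ⟨hzW, hz, hx0, hxH⟩
    · rw [h] at hne
      exact hP.ch p q hT hH hne
  · -- cn
    have hsub : ((univ : Finset (V × V)).filter (fun p => (thin2 G X P).Adj p.1 p.2 ∧
        ¬ X.H.Adj p.1 p.2 ∧ t' p.1 p.2 ≠ t0 p.1 p.2)) ⊆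
        ((univ : Finset (V × V)).filter (fun p => (thin2 G X P).Adj p.1 p.2 ∧
          ¬ X.H.Adj p.1 p.2 ∧ t p.1 p.2 ≠ t0 p.1 p.2)) ∪ {(z, v), (v, z), (z, x), (x, z)} := by
      intro p hp
      rw [mem_filter] at hp
      rw [mem_union, mem_filter]
      obtain ⟨p1, p2⟩ := p
      rcases hpq p1 p2 with (⟨h1, h2, _⟩ | ⟨h1, h2, _⟩) | (⟨h1, h2, _⟩ | ⟨h1, h2, _⟩) | h
      · right; rw [h1, h2]; exact mem_insert_self _ _
      · right; rw [h1, h2]; exact mem_insert_of_mem (mem_insert_self _ _)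
      · right; rw [h1, h2]; exact mem_insert_of_mem (mem_insert_of_mem (mem_insert_self _ _))
      · right; rw [h1, h2]
        exact mem_insert_of_mem (mem_insert_of_mem (mem_insert_of_mem (mem_singleton_self _)))
      · left
        refine ⟨mem_univ _, hp.2.1, hp.2.2.1, ?_⟩
        have h3 := hp.2.2.2
        simp only at h3 ⊢
        rw [h] at h3
        exact h3
    refine (card_le_card hsub).trans ((card_union_le _ _).trans ?_)
    have h4 : ({(z, v), (v, z), (z, x), (x, z)} : Finset (V × V)).card ≤ 4 := card_le_four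
    have h5 := hP.cn
    omega
  · -- tc
    intro b' hb'd hb'S hb'B hb'U y hy
    have hyz : y ≠ z := fun e => hy (e ▸ hz)
    have h1 : b' ≠ b3 := fun e => hb'U (e ▸ mem_insert_self _ _)
    have h2 : b' ≠ b := fun e => (mem_union.1 hbSB).elim (fun h => hb'S (e ▸ h))
      (fun h => hb'B (e ▸ h))
    have h3 : b' ≠ f := fun e => (mem_union.1 hfSB).elim (fun h => hb'S (e ▸ h))
      (fun h => hb'B (e ▸ h))
    have h4 := hP.tc b' hb'd hb'S hb'B (fun h => hb'U (mem_insert_of_mem h)) y hy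
    rw [← h4]
    by_cases hyv : y = v
    · subst hyv
      rw [Fv, mem_insert, mem_erase]
      exact ⟨fun h => h.elim (fun h' => absurd h' h1) (fun h' => h'.2), fun h => Or.inr ⟨h2, h⟩⟩
    · by_cases hyx : y = x
      · subst hyx
        rw [Fx, mem_insert, mem_erase]
        exact ⟨fun h => h.elim (fun h' => absurd h' h3) (fun h' => h'.2), fun h => Or.inr ⟨h1, h⟩⟩
      · rw [Fo y hyz hyv hyx]
  · -- E
    intro n hn β
    exact hDEX ζ d P X Ss U (Fc2 G X P t) (Fc2 G X P t') v x b b3 f n β hn.1 hv0 hx0 hvx hbv h3v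
      h3x hfx Fv Fx (fun y hy hyv hyx => Fo y (fun e => hy (e ▸ hz)) hyv hyx) hbU hfU h3U h3Ss
      (h3z n hn) hSC (hP.E n hn β)
  · -- br
    intro z' hz' w hG hH hm
    rcases hpq z' w with (⟨rfl, rfl, h⟩ | ⟨rfl, rfl, h⟩) | (⟨rfl, rfl, h⟩ | ⟨rfl, rfl, h⟩) | h
    · rw [h] at hm
      exact absurd hm (hzS hz').1
    · exact absurd hz' hvW
    · rw [h] at hm
      exact absurd hm (hzS hz').2
    · exact absurd hz' hxW
    · rw [h] at hm ⊢
      exact hP.br z' hz' w hG hH hm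
  · -- own
    intro z' hz' hz'H
    by_cases hzz : z' = z
    · subst hzz
      rw [Fz, mem_insert, mem_erase]
      have h1 := hP.own z' hz' hz'H
      rintro (h2 | h2)
      · rcases huse with ⟨h3, _⟩ | ⟨h3, _, _⟩ | ⟨u, h3, _, h4⟩
        · rw [h3] at h2
          exact h1 (h2 ▸ hbz)
        · exact hz'H h3
        · rw [h4] at h2
          exact c_ne_t0 hc hz' h3 h2
      · exact h1 h2.2
    · rw [FV0 z' hz' hzz]
      exact hP.own z' hz' hz'H
  · -- own2
    intro z' hz'H hz' h0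
    by_cases hzz : z' = z
    · subst hzz
      rw [Fz, mem_insert, mem_erase] at h0 ⊢
      rcases huse with ⟨h3, _⟩ | ⟨h3, h4, h5⟩ | ⟨u, h3, h4, h5⟩
      · have h1 : X.c0 z' ∈ Fc2 G X P t z' := by
          rcases h0 with h | h
          · rw [h, h3]; exact hbz
          · exact h.2
        have h2 := hP.own2 z' hz'H hz' h1
        rintro (h | h)
        · rw [h3] at h; exact h2 (h ▸ hbz)
        · exact h2 h.2
      · exfalso
        rcases h0 with h | h
        · rw [h5] at h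
          exact c_nSs hc hz' (h ▸ (hc.sV z' hz'H).1)
        · exact h.1 h4.symm
      · have h6 : X.c0 z' ∈ Fc2 G X P t z' := by
          rcases h0 with h | h
          · exfalso
            rw [h5] at h
            exact t0_nSs hc hzW hz' h3 (h ▸ (hc.sV z' hz'H).1)
          · exact h.2
        have h2 := hP.own2 z' hz'H hz' h6
        rintro (h | h)
        · rw [h5] at h
          exact c_ne_t0 hc hz' h3 h
        · exact h2 h.2
    · rw [FV0 z' hz' hzz] at h0 ⊢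
      exact hP.own2 z' hz'H hz' h0
  · -- hol
    intro z' hz'W hz' u' hu' h0
    by_cases hzz : z' = z
    · subst hzz
      rw [Fz, mem_insert, mem_erase] at h0 ⊢
      rcases huse with ⟨h3, _⟩ | ⟨h3, h4, h5⟩ | ⟨u, h3, h4, h5⟩
      · have h1 : X.h0 z' ∈ Fc2 G X P t z' := by
          rcases h0 with h | h
          · rw [h, h3]; exact hbz
          · exact h.2
        have h2 := hP.hol z' hz'W hz' u' hu' h1
        rintro (h | h)
        · rw [h3] at h; exact h2 (h ▸ hbz)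
        · exact h2 h.2
      · have h6 : X.h0 z' ∈ Fc2 G X P t z' := by
          rcases h0 with h | h
          · exfalso
            rw [h5] at h
            exact c_nSs hc hz' (h ▸ h0_mem hc.hp hc.sV hu')
          · exact h.2
        have h2 := hP.hol z' hz'W hz' u' hu' h6
        rintro (h | h)
        · rw [h5] at h
          exact c_ne_t0 hc hz' hu' h.symm
        · exact h2 h.2
      · exfalso
        rcases h0 with h | h
        · rw [h5] at h
          exact t0_nSs hc hzW hz' h3 (h ▸ h0_mem hc.hp hc.sV hu')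
        · exact h.1 h4.symm
    · rw [FV0 z' hz' hzz] at h0 ⊢
      exact hP.hol z' hz'W hz' u' hu' h0

end Pool.Agent.Work.MP_db9399_da.helper72
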