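import Mathlib

/-!
# Statements of the sub-blocks of LBN (helper72)

`WR`: weak regularity (from `szemeredi_regularity`).  `PCUT`: closed pairs of a part which takes the
right fraction of every class extend to the whole graph.  `SPLIT`: random labels of the edges.
-/

set_option autoImplicit false

namespace Pool.Agent.Work.MP_db9399_da_helper72

open Finset Classical

universe u

/-- number of ordered pairs `(a, b)`, `a ∈ A`, `b ∈ B`, `a b` an edge -/
noncomputable def ee {V : Type u} [Fintype V] (H : SimpleGraph V) (A B : Finset V) : ℕ :=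
  ((A ×ˢ B).filter fun p => H.Adj p.1 p.2).card

/-- number of neighbours of `v` in `Z` -/
noncomputable def dg {V : Type u} [Fintype V] (H : SimpleGraph V) (v : V) (Z : Finset V) : ℕ :=
  (Z.filter fun w => H.Adj v w).card

/-- WR: weak regularity. -/
def Stmt_WR : Prop :=
  ∀ ι : ℝ, 0 < ι → ∃ M m0 : ℕ, ∀ (V : Type u) [Fintype V] (H : SimpleGraph V),
    m0 ≤ Fintype.card V → ∃ (cl : V → Fin M) (dd : Fin M → Fin M → ℝ),
      (∀ i j, 0 ≤ dd i j ∧ dd i j ≤ 1) ∧ ∀ A B : Finset V,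
        |(ee H A B : ℝ) - ∑ i, ∑ j, dd i j * ((A.filter fun v => cl v = i).card : ℝ) *
          ((B.filter fun v => cl v = j).card : ℝ)| ≤ ι * (Fintype.card V : ℝ) ^ 2

/-- PCUT: pairs `A ⊆ P'`, `B ⊆ Q'` of a part extend to pairs `A1 ⊆ P`, `B1 ⊆ Q`. -/
def Stmt_PCUT : Prop :=
  ∀ ξ lam : ℝ, 0 < ξ → 0 < lam → lam ≤ 1 → ∃ (M m0 : ℕ) (ι : ℝ), 0 < ι ∧
    ∀ (V : Type u) [Fintype V] (H : SimpleGraph V), m0 ≤ Fintype.card V →
      ∃ cl : V → Fin M, ∀ P Q P' Q' : Finset V, P' ⊆ P → Q' ⊆ Q →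
        (∀ i, |((P'.filter fun v => cl v = i).card : ℝ) -
          lam * ((P.filter fun v => cl v = i).card : ℝ)| ≤ ι * (Fintype.card V : ℝ)) →
        (∀ i, |((Q'.filter fun v => cl v = i).card : ℝ) -
          lam * ((Q.filter fun v => cl v = i).card : ℝ)| ≤ ι * (Fintype.card V : ℝ)) →
        ∀ A B : Finset V, A ⊆ P' → B ⊆ Q' → ∃ A1 B1 : Finset V, A1 ⊆ P ∧ B1 ⊆ Q ∧
          |lam * (A1.card : ℝ) - (A.card : ℝ)| ≤ ξ * (Fintype.card V : ℝ) ∧
          |lam * ((P \ A1).card : ℝ) - ((P' \ A).card : ℝ)| ≤ ξ * (Fintype.card V : ℝ) ∧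
          |lam * (B1.card : ℝ) - (B.card : ℝ)| ≤ ξ * (Fintype.card V : ℝ) ∧
          |lam * ((Q \ B1).card : ℝ) - ((Q' \ B).card : ℝ)| ≤ ξ * (Fintype.card V : ℝ) ∧
          lam ^ 2 * (ee H A1 (Q \ B1) : ℝ) ≤ (ee H A (Q' \ B) : ℝ) +
            ξ * (Fintype.card V : ℝ) ^ 2 ∧
          lam ^ 2 * (ee H B1 (P \ A1) : ℝ) ≤ (ee H B (P' \ A) : ℝ) +
            ξ * (Fintype.card V : ℝ) ^ 2

/-- SPLIT: the edges get labels in `Fin K` such that every label class is a uniform sample. -/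
def Stmt_SPLIT : Prop :=
  ∀ (K : ℕ) (ι : ℝ), 0 < K → 0 < ι → ∃ m0 : ℕ, ∀ (V : Type u) [Fintype V] (H : SimpleGraph V)
    (Zs : Finset (Finset V)), m0 ≤ Fintype.card V → Zs.card ≤ Fintype.card V →
    ∃ lab : Sym2 V → Fin K,
      (∀ (c : Fin K) (A B : Finset V),
        |(K : ℝ) * (((A ×ˢ B).filter fun p => H.Adj p.1 p.2 ∧ lab s(p.1, p.2) = c).card : ℝ) -
          (ee H A B : ℝ)| ≤ ι * (Fintype.card V : ℝ) ^ 2) ∧
      ∀ (c : Fin K) (v : V), ∀ Z ∈ Zs,
        |(K : ℝ) * ((Z.filter fun w => H.Adj v w ∧ lab s(v, w) = c).card : ℝ) -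
          (dg H v Z : ℝ)| ≤ ι * (Fintype.card V : ℝ)

/-- PERM: a bijection between colours and classes with few bad pairs at every vertex. -/
def Stmt_PERM : Prop :=
  ∀ (V P C : Type u) [Fintype V] [Fintype P] [Fintype C] (R : V → Finset (P × C)) (r k : ℕ),
    Fintype.card P = Fintype.card C → (∀ v, (R v).card ≤ Fintype.card P * r) → 1 ≤ k →
    16 * r ≤ k → 2 * k ≤ Fintype.card P → Fintype.card V < 2 ^ k →
    ∃ σ : P ≃ C, ∀ v, (univ.filter fun b => (b, σ b) ∈ R v).card ≤ k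

end Pool.Agent.Work.MP_db9399_da_helper72
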