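import Pool.Agent.Work.MP_db9399_da_helper72.STA

/-!
# STA: the leftover edges and the result (helper72)
-/

set_option autoImplicit false

namespace Pool.Agent.Work.MP_db9399_da_helper72

open Finset Classical

universe u

/-- the leftover edges are coloured with `P2` -/
theorem staL (hL : Stmt_LAM.{u}) (C σ π κ lam θ : ℝ) (K : ℕ) (hC : 1 ≤ C) (hπ : 0 < π)
    (hπ1 : π ≤ 1) (hl : 0 < lam) (hK0 : (0 : ℝ) < K) (hK1 : 100 ≤ K * π) (hK2 : 100 * C ≤ K * (π * lam))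
    (hθ : θ ≤ π / 200)
    (V : Type u) [Fintype V] (G N0 : SimpleGraph V) (d D s : ℕ) (sd pt : V → Bool)
    (Q : Bool → Finset ℕ) (P2 : Finset ℕ) (F : V → Finset ℕ) (W : ℕ → Finset V)
    (hd1 : 18 / lam ≤ (d : ℝ)) (hd0 : (0 : ℝ) < d)
    (hI : SI G N0 d D s C σ π κ θ sd pt Q P2 F W)
    (Lg : SimpleGraph V) (hLc : ∀ v w, Lg.Adj v w → pt v = pt w → sd v = sd w)
    (hLd : ∀ v, (dg Lg v univ : ℝ) ≤ 5 * d / K)
    (hLs : ∀ i, |∑ v ∈ univ.filter (fun v => pt v = i), sgv (sd v) * (dg Lg v univ : ℤ)| ≤ (s : ℤ)) :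
    ∃ (L : V → Finset ℕ) (t : V → V → ℕ), (∀ v w, t v w = t w v) ∧
      (∀ v w, Lg.Adj v w → t v w ∈ L v) ∧
      (∀ v w w', Lg.Adj v w → Lg.Adj v w' → t v w = t v w' → w = w') ∧
      (∀ v, ∀ b ∈ L v, ∃ w, Lg.Adj v w ∧ t v w = b) ∧
      (∀ v, L v ⊆ P2) ∧ (∀ v, Disjoint (L v) (F v)) ∧ (∀ v, ((L v).card : ℝ) ≤ lam * d) ∧
      (∀ b ∈ P2, ((univ.filter fun v => b ∈ L v).card : ℝ) ≤ lam * d) ∧
      ∀ b ∈ P2, ∀ i : Bool, |∑ v ∈ univ.filter (fun v => pt v = i ∧ b ∈ L v), sgv (sd v)| ≤ 2 := by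
  obtain ⟨Δ, hΔ⟩ : ∃ x : ℕ, x = ⌊5 * (d : ℝ) / K⌋₊ := ⟨_, rfl⟩
  obtain ⟨f, hf⟩ : ∃ x : ℕ, x = ⌊θ * d⌋₊ := ⟨_, rfl⟩
  obtain ⟨cap, hcap⟩ : ∃ x : ℕ, x = ⌊lam * d⌋₊ := ⟨_, rfl⟩
  have hθd0 : 0 ≤ θ * d := by
    have h1 := hI.sth
    have : (0 : ℝ) ≤ s := Nat.cast_nonneg _
    linarith
  have hΔ1 : (Δ : ℝ) ≤ 5 * d / K := by rw [hΔ]; exact Nat.floor_le (by positivity)
  have hf1 : (f : ℝ) ≤ θ * d := by rw [hf]; exact Nat.floor_le hθd0
  have hcap1 : (cap : ℝ) ≤ lam * d := by rw [hcap]; exact Nat.floor_le (by positivity)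
  have hcap2 : lam * d < cap + 1 := by rw [hcap]; exact Nat.lt_floor_add_one _
  have hθd1 : θ * d ≤ π * d / 200 := by
    have := mul_le_mul_of_nonneg_right hθ hd0.le
    linarith
  have hP := hI.Pc.1
  have hπd : 0 < π * d := by positivity
  have hΔ2 : 5 * (d : ℝ) / K ≤ π * d / 20 := by
    rw [div_le_iff₀ hK0]
    nlinarith
  have hld : 18 ≤ lam * d := by
    rw [div_le_iff₀ hl] at hd1
    linarith
  have hdg : ∀ v, (univ.filter fun w => Lg.Adj v w).card ≤ Δ := by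
    intro v
    rw [hΔ]
    refine Nat.le_floor ?_
    exact hLd v
  obtain ⟨t, h1, h2, h3, h4, h5⟩ := hL V Lg sd pt P2 F Δ f s 1 cap hLc hdg
    (by
      intro v
      rw [hf]
      refine Nat.le_floor ?_
      refine le_trans ?_ (hI.Fx v)
      exact_mod_cast card_le_card inter_subset_left)
    hLs
    (by
      have : ((16 * f + 16 * Δ : ℕ) : ℝ) < P2.card := by
        push_cast
        linarith
      exact_mod_cast this)
    (by
      have : ((4 * Δ * Fintype.card V + 8 * P2.card : ℕ) : ℝ) ≤ (P2.card * cap : ℕ) := by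
        push_cast
        have e1 : (4 : ℝ) * Δ * Fintype.card V ≤ 4 * (5 * d / K) * (C * d) := by
          have := mul_le_mul hΔ1 hI.VC (Nat.cast_nonneg _) (by positivity)
          linarith
        have e2 : 4 * (5 * (d : ℝ) / K) * (C * d) ≤ π * d * (lam * d / 5) := by
          have : 4 * (5 * (d : ℝ) / K) * (C * d) = (20 * C * d * d) / K := by ring
          rw [this, div_le_iff₀ hK0]
          have h6 : 20 * C * d * d ≤ (K * (π * lam)) / 5 * (d * d) := by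
            have : 0 ≤ (d : ℝ) * d := by positivity
            nlinarith
          refine h6.trans (le_of_eq ?_)
          ring
        have e3 : (8 : ℝ) ≤ lam * d / 2 - 1 := by linarith
        have e4 : (lam * d / 5) + 8 ≤ (cap : ℝ) := by linarith
        have e5 : π * d * (lam * d / 5) ≤ P2.card * (lam * d / 5) :=
          mul_le_mul_of_nonneg_right hP (by positivity)
        have e6 : (P2.card : ℝ) * (lam * d / 5 + 8) ≤ P2.card * cap :=
          mul_le_mul_of_nonneg_left e4 (Nat.cast_nonneg _)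
        nlinarith
      exact_mod_cast this)
    (by
      have : ((12 * (s + Δ) : ℕ) : ℝ) ≤ (P2.card * 1 : ℕ) := by
        push_cast
        have := hI.sth
        linarith
      exact_mod_cast this)
    le_rfl
  set L : V → Finset ℕ := fun v => (univ.filter fun w => Lg.Adj v w).image (t v) with hLdef
  have hmem : ∀ v b, b ∈ L v ↔ ∃ w, Lg.Adj v w ∧ t v w = b := by
    intro v b
    simp only [hLdef, mem_image, mem_filter, mem_univ, true_and]
  refine ⟨L, t, h1, ?_, h3, ?_, ?_, ?_, ?_, ?_, ?_⟩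
  · intro v w hw
    exact (hmem v _).2 ⟨w, hw, rfl⟩
  · intro v b hb
    exact (hmem v b).1 hb
  · intro v b hb
    obtain ⟨w, hw, rfl⟩ := (hmem v b).1 hb
    exact (h2 v w hw).1
  · intro v
    rw [disjoint_left]
    intro b hb
    obtain ⟨w, hw, rfl⟩ := (hmem v b).1 hb
    exact (h2 v w hw).2
  · intro v
    have h6 : (L v).card ≤ Δ := card_image_le.trans (hdg v)
    have h7 : ((L v).card : ℝ) ≤ Δ := by exact_mod_cast h6
    have h8 : π * d / 20 ≥ 0 := by positivity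
    refine h7.trans (hΔ1.trans ?_)
    rw [div_le_iff₀ hK0]
    have h9 : 5 * (d : ℝ) ≤ (K * (π * lam)) * d := by nlinarith
    have h10 : K * (π * lam) * (d : ℝ) ≤ lam * d * K := by
      have : 0 ≤ lam * d * K := by positivity
      nlinarith
    linarith
  · intro b hb
    have h6 := h4 b hb
    have h7 : (univ.filter fun v => b ∈ L v) = univ.filter fun v => ∃ w, Lg.Adj v w ∧ t v w = b := by
      ext v
      simp only [mem_filter, mem_univ, true_and, hmem]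
    rw [h7]
    refine le_trans ?_ hcap1
    exact_mod_cast h6
  · intro b hb i
    have h6 := h5 b hb i
    have h7 : (univ.filter fun v => pt v = i ∧ b ∈ L v) =
        univ.filter fun v => pt v = i ∧ ∃ w, Lg.Adj v w ∧ t v w = b := by
      ext v
      simp only [mem_filter, mem_univ, true_and, hmem]
    rw [h7]
    simpa using h6

theorem stmt_STA (hS : Stmt_SPLIT.{u}) (hL : Stmt_LAM.{u}) : Stmt_STA.{u} := by
  intro C σ π κ lam ι N2 hC hσ hπ hπ1 hκ hκ1 hl hl1 hι hN2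
  obtain ⟨X, hX⟩ : ∃ x : ℝ, x = 1000 * C / (π * κ * lam) := ⟨_, rfl⟩
  have hX0 : 0 < X := by rw [hX]; positivity
  obtain ⟨k2, hk2⟩ : ∃ x : ℕ, x = ⌈X⌉₊ := ⟨_, rfl⟩
  have hk2X : X ≤ k2 := by rw [hk2]; exact Nat.le_ceil _
  have hk20 : (0 : ℝ) < k2 := lt_of_lt_of_le hX0 hk2X
  obtain ⟨K, hKdef⟩ : ∃ x : ℕ, x = N2 * k2 := ⟨_, rfl⟩
  have hKR : (K : ℝ) = N2 * k2 := by rw [hKdef]; push_cast; ring
  have hN20 : (0 : ℝ) < N2 := by
    by_contra h
    have : (N2 : ℝ) ≤ 0 := not_lt.1 h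
    nlinarith
  have hN21 : (1 : ℝ) ≤ N2 := by nlinarith
  have hK0 : (0 : ℝ) < K := by rw [hKR]; positivity
  have hK0' : 0 < K := by exact_mod_cast hK0
  have hKX : X ≤ K := by
    rw [hKR]
    nlinarith
  have hXe : X * (π * κ * lam) = 1000 * C := by
    rw [hX]
    field_simp
  have hπκl : 0 < π * κ * lam := by positivity
  have hKe : 1000 * C ≤ K * (π * κ * lam) := by
    rw [← hXe]
    exact mul_le_mul_of_nonneg_right hKX hπκl.le
  have hKκ : 100 ≤ K * κ := by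
    have h1 : π * κ * lam ≤ κ := by
      have : π * lam ≤ 1 := by nlinarith
      nlinarith
    have h2 : K * (π * κ * lam) ≤ K * κ := mul_le_mul_of_nonneg_left h1 hK0.le
    linarith
  have hKπ : 100 ≤ K * π := by
    have h1 : π * κ * lam ≤ π := by
      have : κ * lam ≤ 1 := by nlinarith
      nlinarith
    have h2 : K * (π * κ * lam) ≤ K * π := mul_le_mul_of_nonneg_left h1 hK0.le
    linarith
  have hKπl : 100 * C ≤ K * (π * lam) := by
    have h1 : π * κ * lam ≤ π * lam := by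
      have : 0 < π * lam := by positivity
      nlinarith
    have h2 : K * (π * κ * lam) ≤ K * (π * lam) := mul_le_mul_of_nonneg_left h1 hK0.le
    linarith
  have hk2K : (k2 : ℝ) ≤ κ * K := by
    rw [hKR]
    nlinarith
  have hK1 : (1 : ℝ) ≤ K := by exact_mod_cast hK0'
  refine ⟨1 / K, by positivity, by rw [div_le_one hK0]; exact hK1, ?_⟩
  intro ε1 hε1
  obtain ⟨ε', hε'⟩ : ∃ x : ℝ, x = min ε1 1 := ⟨_, rfl⟩
  have hε'0 : 0 < ε' := by rw [hε']; exact lt_min hε1 one_pos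
  have hε'2 : ε' ≤ ε1 := by rw [hε']; exact min_le_left _ _
  obtain ⟨θ, hθ⟩ : ∃ x : ℝ, x = min (ε' / (64 * K)) (π / 200) := ⟨_, rfl⟩
  obtain ⟨ι', hι'⟩ : ∃ x : ℝ, x = min (ε' / (96 * K * C)) ι := ⟨_, rfl⟩
  have hθ0 : 0 < θ := by rw [hθ]; exact lt_min (by positivity) (by positivity)
  have hι0 : 0 < ι' := by rw [hι']; exact lt_min (by positivity) hι
  have hθ1 : θ ≤ ε' / (64 * K) := by rw [hθ]; exact min_le_left _ _
  have hθ2 : θ ≤ π / 200 := by rw [hθ]; exact min_le_right _ _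
  have hι1 : ι' ≤ ε' / (96 * K * C) := by rw [hι']; exact min_le_left _ _
  have hι2 : ι' ≤ ι := by rw [hι']; exact min_le_right _ _
  have hdiv : ∀ c : ℝ, 2 ≤ c → ε' / c ≤ ε1 / 2 := by
    intro c hc
    have h1 : ε' / c ≤ ε' / 2 := div_le_div_of_nonneg_left hε'0.le (by norm_num) hc
    linarith
  have hιε : ι' ≤ ε1 := by
    have := hdiv (96 * K * C) (by nlinarith)
    linarith
  have hθε : 2 * θ ≤ ε1 := by
    have := hdiv (64 * K) (by nlinarith)
    linarith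
  obtain ⟨m0, hspl⟩ := spl hS K ι' hK0' hι0
  refine ⟨θ, m0 + 100 * K + ⌈40 * K / ε'⌉₊ + ⌈1 / θ⌉₊ + ⌈18 / lam⌉₊ + 1, hθ0, ?_⟩
  intro V _ G N0 d D s sd pt Q P2 F W Zs par hd hZs hI hRO hpar
  have hdR : (m0 : ℝ) + 100 * K + ⌈40 * K / ε'⌉₊ + ⌈1 / θ⌉₊ + ⌈18 / lam⌉₊ + 1 ≤ d := by
    exact_mod_cast hd
  have hn1 := Nat.le_ceil (40 * K / ε')
  have hn2 := Nat.le_ceil (1 / θ)
  have hn3 := Nat.le_ceil (18 / lam)
  have hp1 : (0 : ℝ) ≤ m0 := Nat.cast_nonneg _
  have hp2 : (0 : ℝ) ≤ (⌈40 * K / ε'⌉₊ : ℝ) := Nat.cast_nonneg _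
  have hp3 : (0 : ℝ) ≤ (⌈1 / θ⌉₊ : ℝ) := Nat.cast_nonneg _
  have hp4 : (0 : ℝ) ≤ (⌈18 / lam⌉₊ : ℝ) := Nat.cast_nonneg _
  have hd2 : 40 * K / ε' ≤ (d : ℝ) := by linarith
  have hd3 : 1 ≤ θ * d := by
    have : 1 / θ ≤ (d : ℝ) := by linarith
    rw [div_le_iff₀ hθ0] at this
    linarith
  have hd4 : 18 / lam ≤ (d : ℝ) := by linarith
  have hd0 : (0 : ℝ) < d := by linarith
  have hVl := hI.Vl
  rw [hε'] at hθ1 hι1 hd2
  obtain ⟨k3, hk3, hk3', hstaA⟩ := staA C σ π κ θ ι' ε1 K k2 hC hσ hκ hκ1 hπ hπ1 hKκ hk2K hε1 hθ0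
    hι0 hθ1 hι1 (by linarith) hιε hθε G N0 d D s sd pt Q P2 F W par (by omega) hd2 hd3 hI hRO hpar
  obtain ⟨Con1, Con2, Fr, hC1, hC2, hFr, hs1, hs1', hs2, hs2', hs3, hs3', hs4⟩ :=
    hspl V G N0 sd pt Zs k2 k3 (by omega) hZs hI.N0m hk3
  obtain ⟨G1, R, t1, hG1, hCol, hRd⟩ := hstaA Con1 Con2 Fr hC1 hC2 hFr hs1 hs1' hs2' hs3'
  -- the reserve
  have hsup : ∀ v w, (G1 ⊔ Con1).Adj v w ↔ G.Adj v w ∧ ¬ Con2.Adj v w ∧ ¬ Fr.Adj v w ∧
      ¬ N0.Adj v w := by
    intro v w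
    rw [SimpleGraph.sup_adj, hG1]
    constructor
    · rintro (h | h)
      · exact ⟨h.1, h.2.2.1, h.2.2.2.1, h.2.2.2.2⟩
      · exact ⟨(hC1 _ _ h).1, (hC1 _ _ h).2.2.1, (hC1 _ _ h).2.2.2, (hC1 _ _ h).2.1⟩
    · rintro ⟨h1, h2, h3, h4⟩
      by_cases h5 : Con1.Adj v w
      · exact Or.inr h5
      · exact Or.inl ⟨h1, h5, h2, h3, h4⟩
  obtain ⟨U1, hU1⟩ : ∃ U1 : SimpleGraph V, ∀ v w, U1.Adj v w ↔
      R.Adj v w ∨ Con2.Adj v w ∨ Fr.Adj v w ∨ N0.Adj v w := ⟨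
    { Adj := fun v w => R.Adj v w ∨ Con2.Adj v w ∨ Fr.Adj v w ∨ N0.Adj v w
      symm := ⟨fun v w h => by
        rcases h with h | h | h | h
        · exact Or.inl h.symm
        · exact Or.inr (Or.inl h.symm)
        · exact Or.inr (Or.inr (Or.inl h.symm))
        · exact Or.inr (Or.inr (Or.inr h.symm))⟩
      loopless := ⟨fun v h => by
        rcases h with h | h | h | h
        · exact R.loopless.irrefl v h
        · exact Con2.loopless.irrefl v h
        · exact Fr.loopless.irrefl v h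
        · exact N0.loopless.irrefl v h⟩ }, fun v w => Iff.rfl⟩
  have hRG : ∀ v w, R.Adj v w → G.Adj v w ∧ ¬ Con2.Adj v w ∧ ¬ Fr.Adj v w ∧ ¬ N0.Adj v w :=
    fun v w h => (hsup v w).1 (hCol.le v w h)
  have hU1G : ∀ v w, U1.Adj v w → G.Adj v w := by
    intro v w h
    rcases (hU1 v w).1 h with h | h | h | h
    · exact (hRG _ _ h).1
    · exact (hC2 _ _ h).1.1
    · exact (hFr _ _ h).1.1
    · exact (hI.N0c _ _ h).1
  have hCol1 : Col G U1 (fun v => BB d Q P2 F W v) t1 := by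
    refine hCol.ext (fun v w h => ((hsup v w).1 h).1) hU1G ?_
    intro v w hG
    rw [hU1, hsup]
    tauto
  obtain ⟨Lg, hLg⟩ : ∃ Lg : SimpleGraph V, ∀ v w, Lg.Adj v w ↔
      R.Adj v w ∧ ¬ (crs G sd pt).Adj v w := ⟨
    { Adj := fun v w => R.Adj v w ∧ ¬ (crs G sd pt).Adj v w
      symm := ⟨fun v w h => ⟨h.1.symm, fun h' => h.2 h'.symm⟩⟩
      loopless := ⟨fun v h => R.loopless.irrefl v h.1⟩ }, fun v w => Iff.rfl⟩
  obtain ⟨U, hU⟩ : ∃ U : SimpleGraph V, ∀ v w, U.Adj v w ↔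
      U1.Adj v w ∧ (crs G sd pt).Adj v w := ⟨
    { Adj := fun v w => U1.Adj v w ∧ (crs G sd pt).Adj v w
      symm := ⟨fun v w h => ⟨h.1.symm, h.2.symm⟩⟩
      loopless := ⟨fun v h => U1.loopless.irrefl v h.1⟩ }, fun v w => Iff.rfl⟩
  have hUL : ∀ v w, U1.Adj v w → (¬ U.Adj v w ↔ Lg.Adj v w) := by
    intro v w h
    rw [hU, hLg]
    constructor
    · intro h1
      have h2 : ¬ (crs G sd pt).Adj v w := fun h3 => h1 ⟨h, h3⟩
      rcases (hU1 v w).1 h with h | h | h | h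
      · exact ⟨h, h2⟩
      · exact absurd (hC2 _ _ h).1 h2
      · exact absurd (hFr _ _ h).1 h2
      · exact absurd (hI.N0c _ _ h) h2
    · rintro ⟨_, h1⟩ h2
      exact h1 h2.2
  have hLU1 : ∀ v w, Lg.Adj v w → U1.Adj v w := fun v w h => (hU1 v w).2 (Or.inl ((hLg v w).1 h).1)
  have hdgU : ∀ v, dg U1 v univ = dg U v univ + dg Lg v univ := by
    intro v
    have : U1 = U ⊔ Lg := by
      ext a b
      rw [SimpleGraph.sup_adj]
      constructor
      · intro h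
        by_cases h1 : U.Adj a b
        · exact Or.inl h1
        · exact Or.inr ((hUL a b h).1 h1)
      · rintro (h | h)
        · exact ((hU _ _).1 h).1
        · exact hLU1 _ _ h
    rw [this, dg_sup]
    intro a b h h'
    exact ((hLg _ _).1 h').2 ((hU _ _).1 h).2
  obtain ⟨L, t2, h1, h2, h3, h4, h5, h6, h7, h8, h9⟩ := staL hL C σ π κ lam θ K hC hπ (by linarith) hl hK0 hKπ
    hKπl hθ2 V G N0 d D s sd pt Q P2 F W hd4 hd0 hI Lg
    (by
      intro v w h hpt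
      by_contra hsd
      exact ((hLg _ _).1 h).2 ⟨(hRG _ _ ((hLg _ _).1 h).1).1, hsd, hpt⟩)
    (by
      intro v
      refine le_trans ?_ (hRd v)
      have := dg_le_of_le (G := Lg) (H := R) (fun v w h => ((hLg v w).1 h).1) v univ
      exact_mod_cast this)
    (by
      intro i
      have e1 := hI.sgs i
      have e2 := sum_crs_zero U sd pt (fun v w h => ⟨((hU v w).1 h).2.2.1, ((hU v w).1 h).2.2.2⟩) i
      have e3 : ∑ v ∈ univ.filter (fun v => pt v = i), sgv (sd v) * (dg Lg v univ : ℤ) =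
          ∑ v ∈ univ.filter (fun v => pt v = i), sgv (sd v) *
            ((dg G v univ : ℤ) - (BB d Q P2 F W v).card) := by
        rw [← sub_zero (∑ v ∈ univ.filter (fun v => pt v = i), sgv (sd v) *
            ((dg G v univ : ℤ) - (BB d Q P2 F W v).card)), ← e2, ← sum_sub_distrib]
        refine sum_congr rfl fun v _ => ?_
        have e4 := hCol1.card v
        rw [hdgU v] at e4
        have e5 : (dg G v univ : ℤ) = dg U v univ + dg Lg v univ + (BB d Q P2 F W v).card := by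
          exact_mod_cast e4.symm
        rw [e5]
        ring
      rw [e3]
      exact e1)
  have hCol2 : Col U1 U L t2 := by
    refine ⟨fun v w h => ((hU v w).1 h).1, h1, ?_, ?_, ?_⟩
    · intro v w hw hw'
      exact h2 v w ((hUL v w hw).1 hw')
    · intro v w w' ha hb hc hd' he
      exact h3 v w w' ((hUL v w ha).1 hb) ((hUL v w' hc).1 hd') he
    · intro v b hb
      obtain ⟨w, hw, he⟩ := h4 v b hb
      exact ⟨w, hLU1 _ _ hw, (hUL v w (hLU1 _ _ hw)).2 hw, he⟩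
  have hCol3 := hCol1.comp hCol2
    (by
      intro v
      rw [disjoint_left]
      intro b hb hb'
      have hb1 : b ∈ PP d Q P2 := (mem_filter.1 hb).1
      exact (mem_sdiff.1 hb1).2 (mem_union_right _ (h5 v hb')))
  have hk3K : κ ≤ k3 / K := by
    rw [le_div_iff₀ hK0]
    exact hk3'
  have hk2N : (k2 : ℝ) / K = 1 / N2 := by
    rw [hKR]
    field_simp
  refine ⟨U, Con2, L, _,
    { Uc := fun v w h => ((hU v w).1 h).2
      N0U := fun v w h => (hU v w).2 ⟨(hU1 v w).2 (Or.inr (Or.inr (Or.inr h))), hI.N0c _ _ h⟩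
      CU := fun v w h => ⟨(hU v w).2 ⟨(hU1 v w).2 (Or.inr (Or.inl h)), (hC2 _ _ h).1⟩,
        (hC2 _ _ h).2.1⟩
      sam := ?_, sad := ?_, fre := ?_, frd := ?_, col := hCol3, LP := h5, LF := h6, Lx := h7
      Ll := h8, Ls := h9 }⟩
  · intro A A'
    have := hs2 A A'
    rw [hk2N] at this
    refine this.trans ?_
    exact mul_le_mul_of_nonneg_right hι2 (by positivity)
  · intro v
    have := hs2' v
    rw [hk2N] at this
    refine this.trans ?_
    exact mul_le_mul_of_nonneg_right hι2 (by positivity)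
  · intro A A'
    have e1 := (abs_le.1 (hs3 A A')).1
    have e2 : (ee Fr A A' : ℝ) ≤ (((A ×ˢ A').filter fun p => U.Adj p.1 p.2 ∧ ¬ Con2.Adj p.1 p.2 ∧
        ¬ N0.Adj p.1 p.2).card : ℝ) := by
      have : ee Fr A A' ≤ ((A ×ˢ A').filter fun p => U.Adj p.1 p.2 ∧ ¬ Con2.Adj p.1 p.2 ∧
          ¬ N0.Adj p.1 p.2).card := by
        refine card_le_card fun p hp => ?_
        rw [mem_filter] at hp ⊢
        exact ⟨hp.1, (hU _ _).2 ⟨(hU1 _ _).2 (Or.inr (Or.inr (Or.inl hp.2))), (hFr _ _ hp.2).1⟩,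
          fun h => (hC2 _ _ h).2.2 hp.2, (hFr _ _ hp.2).2⟩
      exact_mod_cast this
    have e3 : κ * (ee (crs G sd pt) A A' : ℝ) ≤ k3 / K * ee (crs G sd pt) A A' :=
      mul_le_mul_of_nonneg_right hk3K (Nat.cast_nonneg _)
    have e4 : ι' * (Fintype.card V : ℝ) ^ 2 ≤ ι * (Fintype.card V : ℝ) ^ 2 :=
      mul_le_mul_of_nonneg_right hι2 (by positivity)
    linarith
  · intro v Z hZ
    have e1 := (abs_le.1 (hs4 v Z hZ)).1
    have e2 : (dg Fr v Z : ℝ) ≤ ((Z.filter fun w => U.Adj v w ∧ ¬ Con2.Adj v w ∧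
        ¬ N0.Adj v w).card : ℝ) := by
      have : dg Fr v Z ≤ (Z.filter fun w => U.Adj v w ∧ ¬ Con2.Adj v w ∧ ¬ N0.Adj v w).card := by
        refine card_le_card fun p hp => ?_
        rw [mem_filter] at hp ⊢
        exact ⟨hp.1, (hU _ _).2 ⟨(hU1 _ _).2 (Or.inr (Or.inr (Or.inl hp.2))), (hFr _ _ hp.2).1⟩,
          fun h => (hC2 _ _ h).2.2 hp.2, (hFr _ _ hp.2).2⟩
      exact_mod_cast this
    have e3 : κ * (dg (crs G sd pt) v Z : ℝ) ≤ k3 / K * dg (crs G sd pt) v Z :=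
      mul_le_mul_of_nonneg_right hk3K (Nat.cast_nonneg _)
    have e4 : ι' * (Fintype.card V : ℝ) ≤ ι * (Fintype.card V : ℝ) :=
      mul_le_mul_of_nonneg_right hι2 (by positivity)
    linarith

end Pool.Agent.Work.MP_db9399_da_helper72
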