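import Pool.Agent.Work.MP_db9399_da_helper72.Stm4

/-!
# Statement of STB, stage B of LBN (helper72)

The rounds of `P2 ∪ Q (!i)` in both parts, after stage A (used by LOCN and LOCB).
-/

set_option autoImplicit false

namespace Pool.Agent.Work.MP_db9399_da_helper72

open Finset Classical

universe u

section defs
variable {V : Type u} [Fintype V]

/-- the colours of `P2 ∪ Q (! pt v)` which occur at `v` in stage B -/
noncomputable def B2 (Q : Bool → Finset ℕ) (P2 : Finset ℕ) (F L : V → Finset ℕ) (pt : V → Bool)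
    (W2 : ℕ → Finset V) (v : V) : Finset ℕ :=
  (P2 ∪ Q (!(pt v))).filter fun b => b ∉ F v ∧ b ∉ L v ∧ v ∉ W2 b

/-- Input of stage B: `N` are the edges which must stay uncoloured, `W2 b` the missed vertices. -/
structure S2I (U Con2 N : SimpleGraph V) (d : ℕ) (θ : ℝ) (sd pt : V → Bool)
    (Q : Bool → Finset ℕ) (P2 : Finset ℕ) (F L : V → Finset ℕ) (W W2 : ℕ → Finset V) : Prop where
  Flt : ∀ v, F v ⊆ range (d + 2)
  FQ : ∀ v, Disjoint (F v) (Q (pt v))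
  eqs : ∀ i, (qt sd pt false i).card = (qt sd pt true i).card
  prl : ∀ i, Fintype.card V ≤ 4 * (pr pt i).card
  WF : ∀ b ∈ PP d Q P2, ∀ v ∈ W b, b ∉ F v
  NU : ∀ v w, N.Adj v w → U.Adj v w ∧ ¬ Con2.Adj v w
  Nm : ∀ v, dg N v univ ≤ 1
  Wc : ∀ b, ((W2 b).card : ℝ) ≤ θ * d
  W1 : ∀ v, ((P2 ∪ Q (!(pt v))).filter fun b => v ∈ W2 b).card ≤ 1
  bal : ∀ i, ∀ b ∈ P2 ∪ Q (!i),
    (qt sd pt false i \ univ.filter fun v => b ∈ F v ∨ b ∈ L v ∨ v ∈ W2 b).card =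
      (qt sd pt true i \ univ.filter fun v => b ∈ F v ∨ b ∈ L v ∨ v ∈ W2 b).card

end defs

/-- STB. PROOF: `ROP` for `H = crs G`, `G1 = U - Con2 - N`, `Con = Con2`, `B i = P2 ∪ Q (!i)`,
`D b = {v | b ∈ F v ∨ b ∈ L v ∨ v ∈ W2 b}`. Degrees: `dgU` of helper93's SGS.lean gives
`dg G1 v = |B i| + |Q i| - d / (σ N2)` up to `η = (2 θ + λ + ι C) d + 4`; `w i = ⌊|Q i| - d / (σ N2) + η⌋ + 1`,
`e i = ⌈2 η + 1⌉`, and `|Q i| - d / (σ N2) ≥ κ d / 2`. -/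
def Stmt_STB : Prop :=
  ∀ (C σ π κ ε2 : ℝ) (N2 : ℕ), 1 ≤ C → (σ = 2 ∨ σ = 4) → 0 < π → π ≤ 1 / 100 → 0 < κ →
    κ ≤ 1 / 100 → 1 ≤ N2 * κ → 0 < ε2 → ∃ (lam ι θ : ℝ) (d0 : ℕ), 0 < lam ∧ lam ≤ 1 ∧ 0 < ι ∧
    0 < θ ∧
    ∀ (V : Type u) [Fintype V] (G N0 U Con2 N : SimpleGraph V) (d D s : ℕ) (sd pt : V → Bool)
      (Q : Bool → Finset ℕ) (P2 : Finset ℕ) (F L : V → Finset ℕ) (W W2 : ℕ → Finset V)
      (Zs : Finset (Finset V)) (t : V → V → ℕ), d0 ≤ d →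
      SI G N0 d D s C σ π κ θ sd pt Q P2 F W →
      SO G N0 U Con2 d κ (1 / N2) lam ι sd pt Q P2 F W Zs L t →
      S2I U Con2 N d θ sd pt Q P2 F L W W2 →
      ROP (crs G sd pt) sd pt (1 / N2) (κ / C) ε2 →
      ∃ (R : SimpleGraph V) (t2 : V → V → ℕ), (∀ v w, N.Adj v w → R.Adj v w) ∧
        Col U R (B2 Q P2 F L pt W2) t2

end Pool.Agent.Work.MP_db9399_da_helper72
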