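import Pool.Agent.Work.MP_db9399_da_helper72.MidC

/-!
# LOCM: the middle theorem of LOCB (helper72)
-/

set_option autoImplicit false

namespace Pool.Agent.Work.MP_db9399_da_helper72

open Finset Classical
open Pool.Agent.Work.MP_db9399_all (nb)
open Pool.Agent.Work.MP_db9399_lt (us)
open Pool.Agent.Work.MP_db9399_da

universe u

theorem stmt_LOCM (hSTA : Stmt_STA.{u}) (hSTB : Stmt_STB.{u}) (hRB : Stmt_RB.{u})
    (hRP : Stmt_RP.{u}) (hM2 : Stmt_MIS2K.{u}) (hCRF : Stmt_CRF.{u}) : Stmt_LOCM.{u} := by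
  intro C ρ K hC hρ
  have hC0 : 0 < C := by linarith
  refine ⟨min (1 / 100) (1 / (200 * ((K : ℝ) + 2))), lt_min (by norm_num) (by positivity), ?_⟩
  intro π hπ hπ1
  have hπ2 : π ≤ 1 / 100 := hπ1.trans (min_le_left _ _)
  have hπ3 : π ≤ 1 / (200 * ((K : ℝ) + 2)) := hπ1.trans (min_le_right _ _)
  refine ⟨π, hπ, ?_⟩
  intro κ hκ hκπ M0
  have hκ2 : κ ≤ 1 / 100 := by linarith
  -- N2
  obtain ⟨N2, hN2⟩ : ∃ x : ℕ, x = ⌈1 / κ⌉₊ := ⟨_, rfl⟩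
  have hN2κ : 1 ≤ N2 * κ := by
    have h1 : 1 / κ ≤ N2 := by rw [hN2]; exact Nat.le_ceil _
    rw [div_le_iff₀ hκ] at h1
    exact h1
  have hN20 : (0 : ℝ) < N2 := by
    by_contra h
    have : (N2 : ℝ) ≤ 0 := not_lt.1 h
    nlinarith
  have hN21 : (1 : ℝ) ≤ N2 := by nlinarith
  have hr2 : (1 : ℝ) / N2 ≤ 1 := by
    rw [div_le_one hN20]
    exact hN21
  -- constants
  obtain ⟨δ2, d2, hδ2, hMIS⟩ := hM2 C κ M0 K hC hκ hκ2
  obtain ⟨ε2, m2, hε2, hRP'⟩ := hRP (2 * C) ρ (1 / N2) (κ / C) (by linarith) hρ (by positivity) hr2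
    (by positivity)
  obtain ⟨lamB, ιB, θB, dB, hlB, hlB1, hιB, hθB, hSTB'⟩ := hSTB C 2 π κ ε2 N2 hC (Or.inl rfl) hπ
    hπ2 hκ hκ2 hN2κ hε2
  obtain ⟨lam, hlam⟩ : ∃ x : ℝ, x = min lamB (δ2 / 2) := ⟨_, rfl⟩
  obtain ⟨ι, hι⟩ : ∃ x : ℝ, x = min ιB (δ2 / C ^ 2) := ⟨_, rfl⟩
  have hlam0 : 0 < lam := by rw [hlam]; exact lt_min hlB (by positivity)
  have hlam1 : lam ≤ lamB := by rw [hlam]; exact min_le_left _ _
  have hlam2 : 2 * lam ≤ δ2 := by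
    have : lam ≤ δ2 / 2 := by rw [hlam]; exact min_le_right _ _
    linarith
  have hι0 : 0 < ι := by rw [hι]; exact lt_min hιB (by positivity)
  have hι1 : ι ≤ ιB := by rw [hι]; exact min_le_left _ _
  have hι2 : ι * C ^ 2 ≤ δ2 := by
    have : ι ≤ δ2 / C ^ 2 := by rw [hι]; exact min_le_right _ _
    rw [le_div_iff₀ (by positivity)] at this
    exact this
  obtain ⟨r1, hr1, hr11, hSTA'⟩ := hSTA C 2 π κ lam ι N2 hC (Or.inl rfl) hπ hπ2 hκ hκ2 hlam0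
    (by linarith) hι0 hN2κ
  obtain ⟨ε1, m1, hε1, hRB'⟩ := hRB C ρ r1 (1 / (2 * C)) hC hρ hr1 hr11 (by positivity)
  obtain ⟨θ1, d1, hθ1, hSTA''⟩ := hSTA' ε1 hε1
  obtain ⟨θ', hθ'⟩ : ∃ x : ℝ, x = min θ1 θB := ⟨_, rfl⟩
  have hθ'0 : 0 < θ' := by rw [hθ']; exact lt_min hθ1 hθB
  have hθ'1 : θ' ≤ θ1 := by rw [hθ']; exact min_le_left _ _
  have hθ'2 : θ' ≤ θB := by rw [hθ']; exact min_le_right _ _
  obtain ⟨θ, hθ⟩ : ∃ x : ℝ, x = min (θ' / 4) (min (δ2 / 2) (min ε1 ε2)) := ⟨_, rfl⟩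
  have hθ0 : 0 < θ := by
    rw [hθ]
    exact lt_min (by positivity) (lt_min (by positivity) (lt_min hε1 hε2))
  have ht1 : θ ≤ θ' / 4 := by rw [hθ]; exact min_le_left _ _
  have ht2 : θ ≤ δ2 / 2 := by rw [hθ]; exact (min_le_right _ _).trans (min_le_left _ _)
  have ht3 : θ ≤ ε1 := by
    rw [hθ]
    exact (min_le_right _ _).trans ((min_le_right _ _).trans (min_le_left _ _))
  have ht4 : θ ≤ ε2 := by
    rw [hθ]
    exact (min_le_right _ _).trans ((min_le_right _ _).trans (min_le_right _ _))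
  refine ⟨θ, d1 + dB + d2 + m1 + m2 + ⌈1 / θ⌉₊ + ⌈2 / κ⌉₊ + ⌈(2 * (K : ℝ) + 4) / θB⌉₊ + 1, hθ0, ?_⟩
  intro V _ G Th N0 d sd pt Q P2 F A W T1 Pf c0 hd hM
  have hdR : (d1 : ℝ) + dB + d2 + m1 + m2 + ⌈1 / θ⌉₊ + ⌈2 / κ⌉₊ +
      ⌈(2 * (K : ℝ) + 4) / θB⌉₊ + 1 ≤ d := by exact_mod_cast hd
  have hn1 := Nat.le_ceil (1 / θ)
  have hn2 := Nat.le_ceil (2 / κ)
  have hn3 := Nat.le_ceil ((2 * (K : ℝ) + 4) / θB)
  have hp1 : (0 : ℝ) ≤ d1 := Nat.cast_nonneg _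
  have hp2 : (0 : ℝ) ≤ dB := Nat.cast_nonneg _
  have hp3 : (0 : ℝ) ≤ d2 := Nat.cast_nonneg _
  have hp4 : (0 : ℝ) ≤ m1 := Nat.cast_nonneg _
  have hp5 : (0 : ℝ) ≤ m2 := Nat.cast_nonneg _
  have hp6 : (0 : ℝ) ≤ (⌈1 / θ⌉₊ : ℝ) := Nat.cast_nonneg _
  have hp7 : (0 : ℝ) ≤ (⌈2 / κ⌉₊ : ℝ) := Nat.cast_nonneg _
  have hp8 : (0 : ℝ) ≤ (⌈(2 * (K : ℝ) + 4) / θB⌉₊ : ℝ) := Nat.cast_nonneg _
  have hd1 : 1 ≤ θ * d := by
    have : 1 / θ ≤ (d : ℝ) := by linarith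
    rw [div_le_iff₀ hθ0] at this
    linarith
  have hd2 : 2 ≤ κ * d := by
    have : 2 / κ ≤ (d : ℝ) := by linarith
    rw [div_le_iff₀ hκ] at this
    linarith
  have hd3 : 2 * (K : ℝ) + 4 ≤ θB * d := by
    have : (2 * (K : ℝ) + 4) / θB ≤ (d : ℝ) := by linarith
    rw [div_le_iff₀ hθB] at this
    linarith
  have hd0 : (0 : ℝ) < d := by linarith
  have hVd : d + 2 ≤ Fintype.card V := hM.Vl
  have hVdR : (d : ℝ) ≤ Fintype.card V := by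
    have : d ≤ Fintype.card V := by omega
    exact_mod_cast this
  have hQ2 : ∀ i, 2 ≤ (Q i).card := by
    intro i
    have := (hM.Qc i).1
    have h1 : (2 : ℝ) ≤ (Q i).card := by linarith
    exact_mod_cast h1
  -- stage A
  obtain ⟨s, hSI⟩ := hM.toSI (θ' := θ') hθ0 (by linarith) hd1
  have hRO := hRB' V G sd d (by omega) hM.VC hM.bip
    (by
      intro v
      have h1 : (dg G v univ : ℝ) + (F v).card = d := by exact_mod_cast hM.deg v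
      have h2 := hM.Fx v
      have h3 : (0 : ℝ) ≤ (F v).card := Nat.cast_nonneg _
      have h4 : θ * (d : ℝ) ≤ ε1 * Fintype.card V := mul_le_mul ht3 hVdR hd0.le hε1.le
      rw [abs_le]
      constructor <;> linarith)
    hM.cutG
  obtain ⟨Zs, hZs⟩ : ∃ Zs : Finset (Finset V), Zs = (univ : Finset Bool).image
    fun i => qtr sd pt true i \ (T1 ∪ Pf) := ⟨_, rfl⟩
  have hZc : Zs.card ≤ 10 := by
    rw [hZs]
    refine card_image_le.trans ?_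
    rw [card_univ, Fintype.card_bool]
    omega
  have hZm : ∀ i, qtr sd pt true i \ (T1 ∪ Pf) ∈ Zs := by
    intro i
    rw [hZs]
    exact mem_image_of_mem _ (mem_univ i)
  obtain ⟨U, Con2, L, t, hSO⟩ := hSTA'' V G N0 d d s sd pt Q P2 F W Zs _ (by omega) hZc
    (hSI.mono hθ'1) hRO hM.bal
  -- misses of stage B
  obtain ⟨Fr, hFr⟩ : ∃ Fr : SimpleGraph V, ∀ v w, Fr.Adj v w ↔
      U.Adj v w ∧ ¬ Con2.Adj v w ∧ ¬ N0.Adj v w := ⟨
    { Adj := fun v w => U.Adj v w ∧ ¬ Con2.Adj v w ∧ ¬ N0.Adj v w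
      symm := ⟨fun v w h => ⟨h.1.symm, fun h' => h.2.1 h'.symm, fun h' => h.2.2 h'.symm⟩⟩
      loopless := ⟨fun v h => U.loopless.irrefl v h.1⟩ }, fun v w => Iff.rfl⟩
  obtain ⟨W2, N1, hO⟩ := hMIS V (crs G sd pt) Fr N0 Th d sd pt Q P2 (fun v => F v ∪ L v) A c0 T1 Pf
    (by omega) (hM.toM2K hSO hFr hZm hC hι0 (by linarith) hθ0 hlam2 hι2 hπ3 hκπ)
  have hWF : ∀ b, ∀ v ∈ W2 b, b ∉ F v ∧ b ∉ L v := by
    intro b v hv
    have := (hO.W b v hv).2.1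
    rw [mem_union, not_or] at this
    exact this
  -- stage B
  have hROP := hRP' V (crs G sd pt) sd pt (d / 2) (by omega)
    (by
      have := hM.VC
      linarith)
    (fun v w h => h.2) hM.prl
    (by
      intro v
      refine (hM.crd v).trans ?_
      exact mul_le_mul ht4 hVdR hd0.le hε2.le)
    hM.cutP
  have hS2 : S2I U Con2 (N0 ⊔ N1) d θB sd pt Q P2 F L W W2 :=
    { Flt := hM.Flt, FQ := hM.FQ, eqs := hM.eqs, prl := hM.prl, WF := hM.WF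
      NU := by
        rintro v w (h | h)
        · exact ⟨hSO.N0U v w h, fun h' => (hSO.CU v w h').2 h⟩
        · have := (hFr v w).1 (hO.N1F v w h)
          exact ⟨this.1, this.2.1⟩
      Nm := hO.N1m
      Wc := by
        intro b
        refine le_trans ?_ hd3
        exact_mod_cast hO.c b
      W1 := by
        intro v
        rw [card_le_one]
        intro a ha b hb
        rw [mem_filter] at ha hb
        exact hO.one a b v ha.2 hb.2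
      bal := by
        intro i b hb
        have h1 : (univ.filter fun v => b ∈ F v ∨ b ∈ L v ∨ v ∈ W2 b) =
            us (fun v => F v ∪ L v) b ∪ W2 b := by
          ext v
          simp only [us, mem_filter, mem_univ, true_and, mem_union]
          tauto
        rw [h1]
        exact hO.bal i b hb }
  obtain ⟨R, t2, hNR, hcol2⟩ := hSTB' V G N0 U Con2 (N0 ⊔ N1) d d s sd pt Q P2 F L W W2 Zs t
    (by omega) (hSI.mono hθ'2) (hSO.mono hlam1 hι1) hS2 hROP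
  exact locm_core hCRF hM hQ2 hSO.Uc hSO.col hSO.LP hSO.LF
    (fun b v hv => ⟨(hO.W b v hv).1, (hWF b v hv).1, (hWF b v hv).2, (hO.W b v hv).2.2.1,
      (hO.W b v hv).2.2.2⟩)
    hO.one (fun b v hv hs => hO.T b v hv hs) hO.c hO.N1m hO.N1p hNR hcol2

end Pool.Agent.Work.MP_db9399_da_helper72
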