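import Pool.Agent.Work.MP_db9399_da_helper72.LOCB
import Pool.Agent.Work.MP_db9399_da_helper72.LOCM
import Pool.Agent.Work.MP_db9399_da_helper72.MIS2K
import Pool.Agent.Work.MP_db9399_da_helper72.STA2
import Pool.Agent.Work.MP_db9399_da_helper73.SPLIT
import Pool.Agent.Work.MP_db9399_da_helper22.LAM
import Pool.Agent.Work.MP_db9399_da_helper93.STB
import Pool.Agent.Work.MP_db9399_da_helper93.RB
import Pool.Agent.Work.MP_db9399_da_helper93.OWC
import Pool.Agent.Work.MP_db9399_da_helper49.RP
import Pool.Agent.Work.MP_db9399_da_helper46.CRF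
import Pool.Agent.Work.MP_db9399_da_helper71.MIS1
import Pool.Agent.Work.MP_db9399_bp_helper22.Perm

/-!
# LOCM and LOCB without hypotheses (helper72)
-/

set_option autoImplicit false

namespace Pool.Agent.Work.MP_db9399_da_helper72

universe u

theorem locm : Stmt_LOCM.{u} :=
  stmt_LOCM
    (stmt_STA MP_db9399_da_helper73.stmt_SPLIT MP_db9399_da_helper22.stmt_LAM)
    MP_db9399_da_helper93.stmt_STB
    (MP_db9399_da_helper93.stmt_RB MP_db9399_bp_helper22.stmt_PERM)
    (MP_db9399_da_helper49.stmt_RP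
      (MP_db9399_da_helper93.stmt_RB MP_db9399_bp_helper22.stmt_PERM))
    MIS2KAux.stmt_MIS2K
    MP_db9399_da.helper46.stmt_CRF

theorem stmt_LOCB : Pool.Agent.Work.MP_db9399_da.Stmt_LOCB.{u} :=
  locb MP_db9399_da_helper71.stmt_MIS1 MP_db9399_da_helper93.stmt_OWC locm

end Pool.Agent.Work.MP_db9399_da_helper72
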