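import Pool.Agent.Work.MP_db9399_da_helper72.Stm4
import Pool.Agent.Work.MP_db9399_da.Local2

/-!
# Statement of MIS1B (phase 2): misses of the P1 rounds with members of prescribed own colour (helper72)
-/

set_option autoImplicit false

namespace Pool.Agent.Work.MP_db9399_da_helper72

open Finset Classical
open Pool.Agent.Work.MP_db9399_all (nb)
open Pool.Agent.Work.MP_db9399_lt (us)
open Pool.Agent.Work.MP_db9399_da

universe u

section defs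
variable {V : Type u} [Fintype V]

/-- Result of MIS1B. `W b`: all vertices missed in the round `b ∈ P1`, the vertices of `o` included (in the
round of their own colour). `T1`: missed vertices whose own colour is the missed colour (`o` included),
`Pf`: missed vertices which keep their own colour, with partners `N0` in `T1`. -/
structure M1B (G Th N0 : SimpleGraph V) (d K : ℕ) (δ : ℝ) (sd pt : V → Bool)
    (Q : Bool → Finset ℕ) (P2 : Finset ℕ) (F A : V → Finset ℕ) (o : Finset V) (c0 : V → ℕ)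
    (W : ℕ → Finset V) (T1 Pf : Finset V) : Prop where
  WF : ∀ b ∈ P1 d Q P2, ∀ v ∈ W b, b ∉ F v
  oT1 : o ⊆ T1
  oW : ∀ v ∈ o, c0 v ∈ P1 d Q P2 ∧ v ∈ W (c0 v)
  TA : ∀ b ∈ P1 d Q P2, ∀ v ∈ W b, v ∈ T1 → v ∉ o → b ∉ A v
  TT : ∀ b ∈ P1 d Q P2, ∀ v ∈ W b, ∀ w ∈ W b, v ∈ T1 → w ∈ T1 → ¬ Th.Adj v w
  TG : ∀ b ∈ P1 d Q P2, ∀ v ∈ W b, ∀ w ∈ W b, v ∈ T1 → w ∈ T1 → ¬ G.Adj v w
  Wc : ∀ b ∈ P1 d Q P2, (W b).card ≤ 2 * K
  bal : ∀ b ∈ P1 d Q P2, (sid sd false \ (us F b ∪ W b)).card = (sid sd true \ (us F b ∪ W b)).card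
  one : ∀ b ∈ P1 d Q P2, ∀ b' ∈ P1 d Q P2, ∀ v, v ∈ W b → v ∈ W b' → b = b'
  TPW : ∀ v, (v ∈ T1 ∪ Pf ↔ ∃ b ∈ P1 d Q P2, v ∈ W b)
  TP : Disjoint T1 Pf
  sgn : ∀ i, |((∑ v ∈ (T1 ∪ Pf).filter (fun v => pt v = i), sgv (sd v) : ℤ) : ℝ)| ≤ δ * d
  qua : ∀ β i, ((qtr sd pt β i ∩ (T1 ∪ Pf)).card : ℝ) ≤ (3 / 10 + δ) * d
  N0a : ∀ v w, N0.Adj v w → G.Adj v w ∧ pt v = pt w ∧ ((v ∈ Pf ∧ w ∈ T1) ∨ (w ∈ Pf ∧ v ∈ T1))
  N0m : ∀ v, dg N0 v univ ≤ 1
  N0p : ∀ v ∈ Pf, ∃ w ∈ T1, N0.Adj v w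

end defs

/-- MIS1B. PROOF. `Fo v` = `F v` with `c0 v` if `v ∈ o`. In the round `b` the `need (Fo ..) sd β b ≤ K` new missed
vertices are on the side `β` with `need > 0`, outside `o`; together with the `v ∈ o` with `c0 v = b` they
form `W b` (`us (Fo o c0 F) b = us F b ∪ {v ∈ o | c0 v = b}`). Type P if `b ∈ Bk β`, otherwise type T.
(1) `b ∈ Sp`, type T: `Ze`, `Zz`, `Zt` as in MIS1 (pairwise not `Th`-adjacent). (2) `b ∉ Sp` (type T, `BS`): alternately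
in both parts for every side. (3) `b ∈ Bk β`, type P: by `EX` there is an injective map from these events of
the side `β` to the vertices of `T1` on the other side (`o` or (1), (2)); for an event with partner `w` choose
an unmissed neighbour `v ∉ o` of `w` in the part of `w` with `b ∉ F v` (at least `d / 10`). Conflicts of
type T vertices with `o`: `oG`, `oT` (the colour `c0 v` is in `A w`). -/
def Stmt_MIS1B : Prop :=
  ∀ (C ρ π κ δ : ℝ) (K : ℕ), 1 ≤ C → 0 < κ → κ ≤ 1 / 100 → 0 < π → π ≤ 1 / 100 → 0 < δ → 1 ≤ K →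
    ∃ (θ : ℝ) (d0 : ℕ), 0 < θ ∧
    ∀ (V : Type u) [Fintype V] (G Th : SimpleGraph V) (d z : ℕ) (sd pt : V → Bool)
      (Q : Bool → Finset ℕ) (P2 : Finset ℕ) (F A : V → Finset ℕ) (Sp : Finset ℕ)
      (Bk : Bool → Finset ℕ) (o : Finset V) (c0 : V → ℕ), d0 ≤ d →
      LI2 G d K C ρ π κ θ sd pt Q P2 F → LB2 G Th d z K θ sd pt Q P2 F A Sp Bk o c0 →
      ∃ (W : ℕ → Finset V) (T1 Pf : Finset V) (N0 : SimpleGraph V),
        M1B G Th N0 d K δ sd pt Q P2 F A o c0 W T1 Pf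

end Pool.Agent.Work.MP_db9399_da_helper72
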