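import Pool.Agent.Work.MP_db9399_da_helper72.Stm3
import Pool.Agent.Work.MP_db9399_da.Local

/-!
# Statements of the blocks of LOCB (helper72): OWC, MIS1, MIS2
-/

set_option autoImplicit false

namespace Pool.Agent.Work.MP_db9399_da_helper72

open Finset Classical
open Pool.Agent.Work.MP_db9399_all (nb)
open Pool.Agent.Work.MP_db9399_lt (us)
open Pool.Agent.Work.MP_db9399_da

universe u

/-- OWC: own colours, greedy (at `v` at most `|A v| + |nb Th v|` colours and the at most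
`|V| / M0` full colours are excluded). -/
def Stmt_OWC : Prop :=
  ∀ C κ : ℝ, 1 ≤ C → 0 < κ → ∃ (M0 : ℕ) (θ : ℝ) (d0 : ℕ), 0 < θ ∧
    ∀ (V : Type u) [Fintype V] (Th : SimpleGraph V) (d : ℕ) (pal A : V → Finset ℕ), d0 ≤ d →
      (Fintype.card V : ℝ) ≤ C * d → (∀ v, κ * d ≤ ((pal v).card : ℝ)) →
      (∀ v, ((A v).card : ℝ) ≤ θ * d) → (∀ v, ((nb Th v).card : ℝ) ≤ θ * d) →
      ∃ c : V → ℕ, (∀ v, c v ∈ pal v ∧ c v ∉ A v) ∧ (∀ v w, Th.Adj v w → c v ≠ c w) ∧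
        ∀ b, (univ.filter fun v => c v = b).card ≤ M0

section defs
variable {V : Type u} [Fintype V]

/-- all vertices missed in the rounds `b ∈ P` -/
noncomputable def ms (P : Finset ℕ) (W : ℕ → Finset V) : Finset V := P.biUnion W

/-- Result of MIS1: vertices `W b` missed in the rounds `b ∈ P1`, and the matching `N0` of the partners
of the vertices missed in the rounds `b ∈ Sf`. -/
structure M1 (G Th N0 : SimpleGraph V) (d : ℕ) (δ : ℝ) (sd pt : V → Bool)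
    (Q : Bool → Finset ℕ) (P2 : Finset ℕ) (F A : V → Finset ℕ) (Sf : Finset ℕ)
    (W : ℕ → Finset V) : Prop where
  WF : ∀ b ∈ P1 d Q P2, ∀ v ∈ W b, b ∉ F v
  WA : ∀ b ∈ P1 d Q P2, b ∉ Sf → ∀ v ∈ W b, b ∉ A v
  WT : ∀ b ∈ P1 d Q P2, b ∉ Sf → ∀ v ∈ W b, ∀ w ∈ W b, ¬ Th.Adj v w
  Ws : ∀ b ∈ P1 d Q P2, ∀ v ∈ W b, ∀ w ∈ W b, sd v = sd w
  Wc : ∀ b ∈ P1 d Q P2, (W b).card ≤ 8
  bal : ∀ b ∈ P1 d Q P2, (sid sd false \ (us F b ∪ W b)).card = (sid sd true \ (us F b ∪ W b)).card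
  one : ∀ b ∈ P1 d Q P2, ∀ b' ∈ P1 d Q P2, ∀ v, v ∈ W b → v ∈ W b' → b = b'
  sgn : ∀ i, |((∑ v ∈ (ms (P1 d Q P2) W).filter (fun v => pt v = i), sgv (sd v) : ℤ) : ℝ)| ≤ δ * d
  qua : ∀ β i, ((qtr sd pt β i ∩ ms (P1 d Q P2) W).card : ℝ) ≤ (3 / 10 + δ) * d
  N0a : ∀ v w, N0.Adj v w → G.Adj v w ∧ pt v = pt w ∧
    ((v ∈ ms Sf W ∧ w ∈ ms (P1 d Q P2 \ Sf) W) ∨ (w ∈ ms Sf W ∧ v ∈ ms (P1 d Q P2 \ Sf) W))
  N0m : ∀ v, dg N0 v univ ≤ 1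
  N0p : ∀ v ∈ ms Sf W, ∃ w ∈ ms (P1 d Q P2 \ Sf) W, N0.Adj v w

end defs

/-- MIS1. PROOF. In the round `b` the `need F sd β b ≤ 8` missed vertices are on the side `β` with
`need > 0`. (1) `b ∈ Sp`: by `Ze` at least `z` allowed vertices, at most `8 |Sp|` are used and at most
`8 z / 100` are `Th`-adjacent to the others of `W b` (`Zt`, `Zz`). (2) `b ∈ P1 ∖ Sp ∖ Sf`: alternately in
both parts (for every side); a quarter has at least `(1/2 - θ) d` vertices (`dgp`), at most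
`(3/10 + small) d` are used (`tot`), `us A b` and the `Th`-neighbours are few. (3) `b ∈ Sf`: if `rich` holds
with the second alternative: choose an unused partner `w` on the other side among the vertices of (1), (2)
(there are `80 (|Sf| + 1)`), then an unmissed neighbour `v` of `w` in the part of `w`, `b ∉ F v`. -/
def Stmt_MIS1 : Prop :=
  ∀ (C ρ π κ δ : ℝ), 1 ≤ C → 0 < κ → κ ≤ 1 / 100 → 0 < π → π ≤ 1 / 100 → 0 < δ →
    ∃ (θ : ℝ) (d0 : ℕ), 0 < θ ∧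
    ∀ (V : Type u) [Fintype V] (G Th : SimpleGraph V) (d z : ℕ) (sd pt : V → Bool)
      (Q : Bool → Finset ℕ) (P2 : Finset ℕ) (F A : V → Finset ℕ) (Sp Sf : Finset ℕ), d0 ≤ d →
      LI G d C ρ π κ θ sd pt Q P2 F → LB G Th d z θ sd pt Q P2 F A Sp Sf →
      ∃ (W : ℕ → Finset V) (N0 : SimpleGraph V), M1 G Th N0 d δ sd pt Q P2 F A Sf W

section defs
variable {V : Type u} [Fintype V]

/-- surplus of the side `false` in the part `i` in the round `b` -/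
noncomputable def qq (F2 : V → Finset ℕ) (sd pt : V → Bool) (i : Bool) (b : ℕ) : ℤ :=
  ((qtr sd pt false i \ us F2 b).card : ℤ) - ((qtr sd pt true i \ us F2 b).card : ℤ)

/-- Input of MIS2: `H` cross graph, `Fr` free edges of the reserve, `T1`, `Pf` the vertices missed in stage A
(types T and P), `N0` partners of `Pf`. -/
structure M2I (H Fr N0 Th : SimpleGraph V) (d M0 : ℕ) (C κ δ : ℝ) (sd pt : V → Bool)
    (Q : Bool → Finset ℕ) (P2 : Finset ℕ) (F2 A : V → Finset ℕ) (c0 : V → ℕ)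
    (T1 Pf : Finset V) : Prop where
  Hc : ∀ v w, H.Adj v w → sd v ≠ sd w ∧ pt v = pt w
  FrH : ∀ v w, Fr.Adj v w → H.Adj v w
  Hd : ∀ v, (1 / 2 - δ) * d ≤ (dg H v univ : ℝ)
  VC : (Fintype.card V : ℝ) ≤ C * d
  F2l : ∀ b ∈ P2 ∪ Q false ∪ Q true, ((us F2 b).card : ℝ) ≤ δ * d
  Al : ∀ b ∈ P2 ∪ Q false ∪ Q true, ((us A b).card : ℝ) ≤ δ * d
  Tx : ∀ v, ((nb Th v).card : ℝ) ≤ δ * d
  c0c : ∀ b, (univ.filter fun v => c0 v = b).card ≤ M0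
  q10 : ∀ i, ∀ b ∈ P2 ∪ Q (!i), |qq F2 sd pt i b| ≤ 10
  Pc : ∀ i, ((P2 ∪ Q i).card : ℝ) ≤ d / 500
  fre : ∀ A' B' : Finset V, κ * ee H A' B' ≤ (ee Fr A' B' : ℝ) + δ * (d : ℝ) ^ 2
  frd : ∀ v i, κ * dg H v (qtr sd pt true i \ (T1 ∪ Pf)) ≤
    (dg Fr v (qtr sd pt true i \ (T1 ∪ Pf)) : ℝ) + δ * d
  qua : ∀ β i, ((qtr sd pt β i ∩ (T1 ∪ Pf)).card : ℝ) ≤ (3 / 10 + δ) * d
  sgn : ∀ i, |((∑ v ∈ (T1 ∪ Pf).filter (fun v => pt v = i), sgv (sd v) : ℤ) : ℝ)| ≤ δ * d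
  hid : ∀ i, ∑ v ∈ (T1 ∪ Pf).filter (fun v => pt v = i), sgv (sd v) =
    - ∑ b ∈ P2 ∪ Q (!i), qq F2 sd pt i b
  TP : Disjoint T1 Pf
  N0a : ∀ v w, N0.Adj v w → H.Adj v w ∧ ((v ∈ Pf ∧ w ∈ T1) ∨ (w ∈ Pf ∧ v ∈ T1))
  N0m : ∀ v, dg N0 v univ ≤ 1
  N0p : ∀ v ∈ Pf, ∃ w ∈ T1, N0.Adj v w

/-- Result of MIS2: vertices `W2 b` missed in the rounds of stage B, partners `N1`. -/
structure M2O (Fr N0 N1 Th : SimpleGraph V) (sd pt : V → Bool) (Q : Bool → Finset ℕ)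
    (P2 : Finset ℕ) (F2 A : V → Finset ℕ) (c0 : V → ℕ) (T1 Pf : Finset V) (W2 : ℕ → Finset V) :
    Prop where
  W : ∀ b, ∀ v ∈ W2 b, b ∈ P2 ∪ Q (!(pt v)) ∧ b ∉ F2 v ∧ v ∉ T1 ∧ v ∉ Pf
  one : ∀ b b' v, v ∈ W2 b → v ∈ W2 b' → b = b'
  bal : ∀ i, ∀ b ∈ P2 ∪ Q (!i), (qtr sd pt false i \ (us F2 b ∪ W2 b)).card =
    (qtr sd pt true i \ (us F2 b ∪ W2 b)).card
  T : ∀ b, ∀ v ∈ W2 b, sd v = false → b ∉ A v ∧ 0 < qq F2 sd pt (pt v) b ∧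
    ∀ w, Th.Adj v w → c0 w ≠ b ∧ ¬ (w ∈ W2 b ∧ sd w = false)
  c : ∀ b, (W2 b).card ≤ 20
  N1F : ∀ v w, N1.Adj v w → Fr.Adj v w
  N1m : ∀ v, dg (N0 ⊔ N1) v univ ≤ 1
  N1p : ∀ b, ∀ v ∈ W2 b, sd v = true →
    ∃ w, N1.Adj v w ∧ sd w = false ∧ (w ∈ T1 ∨ ∃ b', w ∈ W2 b')

end defs

/-- MIS2. PROOF, for both parts `i`: events `(b, k)`, `k < |qq i b|`, `b ∈ P2 ∪ Q (!i)`; type T (a vertex of the
side `false` is missed) if `qq > 0`, type P (side `true`) if `qq < 0`; `a`, `p` their numbers, `x`, `y` numbers of the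
vertices of `T1 ∪ Pf` in `X_i`, `Y_i`: `x - y = p - a` (`hid`), at most `10 (|P2 ∪ Q (!i)|) ≤ d / 50` events.
(1) `s = (x - y)^+ ≤ δ d` events of type P get partners `x* ∈ T1 ∩ X_i` not covered by `N0` (there are
`|T1 ∩ X_i| - |Pf ∩ Y_i| ≥ x - y` since `|Pf ∩ X_i| ≤ |T1 ∩ Y_i|` by `N0`) and missed vertices `y` in the free
neighbourhood of `x*` (`frd`, at least `κ d / 6` unmissed ones). (2) The other events of type P are paired with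
events of type T: choose a free edge `x y` between the allowed vertices (`fre`: at least `d / 10` allowed `x ∈ X_i`,
each with `d / 10` allowed neighbours in `H`). (3) The remaining events of type T: any allowed `x`. Forbidden for
type T besides used vertices: `us A b`, `us F2 b`, `Th`-neighbours of `W2 b` and of the vertices with `c0 = b`. -/
def Stmt_MIS2 : Prop :=
  ∀ (C κ : ℝ) (M0 : ℕ), 1 ≤ C → 0 < κ → κ ≤ 1 / 100 → ∃ (δ : ℝ) (d0 : ℕ), 0 < δ ∧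
    ∀ (V : Type u) [Fintype V] (H Fr N0 Th : SimpleGraph V) (d : ℕ) (sd pt : V → Bool)
      (Q : Bool → Finset ℕ) (P2 : Finset ℕ) (F2 A : V → Finset ℕ) (c0 : V → ℕ)
      (T1 Pf : Finset V), d0 ≤ d → M2I H Fr N0 Th d M0 C κ δ sd pt Q P2 F2 A c0 T1 Pf →
      ∃ (W2 : ℕ → Finset V) (N1 : SimpleGraph V),
        M2O Fr N0 N1 Th sd pt Q P2 F2 A c0 T1 Pf W2

end Pool.Agent.Work.MP_db9399_da_helper72
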