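import Mathlib

/-!
# Statement of the sub-block LAM of LBN (helper72)

The leftover edges `L` inside a piece (no edge inside a part between the two sides) are coloured with
the palette `P2` such that every colour is almost balanced at both parts.
-/

set_option autoImplicit false

namespace Pool.Agent.Work.MP_db9399_da_helper72

open Finset Classical

universe u

/-- sign of a vertex: `1` on the side `false`, `-1` on the side `true` -/
def sgv (x : Bool) : ℤ := if x then -1 else 1

/-- LAM.  PROOF. Bundles: sets of at most 4 pairwise disjoint edges of `L` with zero signed sum at both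
parts.  Take a maximal family of disjoint bundles.  Types of the remaining edges (vectors at the parts
`(false, true)`): A = (2σ,0) inside `X_0` (σ = 1) or `Y_0` (σ = -1); B = (0,2σ) inside `X_1` / `Y_1`;
C = (σ,σ): `X_0X_1` / `Y_0Y_1`; E = (σ,-σ): `X_0Y_1` / `Y_0X_1`.  Opposite types are disjoint, so only
one sign of every type is left: numbers a, b, c, e with signs; (S_0+S_1)/2 = A+B+C and
(S_0-S_1)/2 = A-B+E (signed).  Bundles of 3 / 4 edges: A^σ B^σ C^-σ C^-σ; A^σ B^-σ E^-σ E^-σ;
A^σ C^-σ E^-σ; B^σ C^-σ E^σ.  Pairwise intersecting families are stars (at most `Δ` edges).  So at most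
`3 s + 3 Δ` edges are left.  Colour bundles and remaining edges greedily: blocked are at most
`8 f + 8 Δ` colours (at most 8 vertices), full are at most `p/4` colours (more than `cap - 8` ends),
for a remaining edge also the at most `p/4` colours which already have `K` remaining edges. -/
def Stmt_LAM : Prop :=
  ∀ (V : Type u) [Fintype V] (L : SimpleGraph V) (sd pt : V → Bool) (P2 : Finset ℕ)
    (F : V → Finset ℕ) (Δ f s K cap : ℕ),
    (∀ v w, L.Adj v w → pt v = pt w → sd v = sd w) →
    (∀ v, (univ.filter fun w => L.Adj v w).card ≤ Δ) →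
    (∀ v, (F v ∩ P2).card ≤ f) →
    (∀ i : Bool, |∑ v ∈ univ.filter (fun v => pt v = i),
      sgv (sd v) * ((univ.filter fun w => L.Adj v w).card : ℤ)| ≤ (s : ℤ)) →
    16 * f + 16 * Δ < P2.card →
    4 * Δ * Fintype.card V + 8 * P2.card ≤ P2.card * cap →
    12 * (s + Δ) ≤ P2.card * K → 1 ≤ K →
    ∃ t : V → V → ℕ, (∀ v w, t v w = t w v) ∧
      (∀ v w, L.Adj v w → t v w ∈ P2 ∧ t v w ∉ F v) ∧
      (∀ v w w', L.Adj v w → L.Adj v w' → t v w = t v w' → w = w') ∧
      (∀ b ∈ P2, (univ.filter fun v => ∃ w, L.Adj v w ∧ t v w = b).card ≤ cap) ∧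
      ∀ b ∈ P2, ∀ i : Bool,
        |∑ v ∈ univ.filter (fun v => pt v = i ∧ ∃ w, L.Adj v w ∧ t v w = b), sgv (sd v)| ≤
          2 * (K : ℤ)

end Pool.Agent.Work.MP_db9399_da_helper72
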