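import Pool.Agent.Work.MP_db9399_da_helper72.Rnd
import Pool.Agent.Work.MP_db9399_da_helper72.Stm2

/-!
# Facts about `Col` (helper72)
-/

set_option autoImplicit false

namespace Pool.Agent.Work.MP_db9399_da_helper72

open Finset Classical

universe u

variable {V : Type u}

/-- the cross edges: inside a part, between the two sides -/
def crs (G : SimpleGraph V) (sd pt : V → Bool) : SimpleGraph V where
  Adj v w := G.Adj v w ∧ sd v ≠ sd w ∧ pt v = pt w
  symm := ⟨fun _ _ h => ⟨h.1.symm, h.2.1.symm, h.2.2.symm⟩⟩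
  loopless := ⟨fun v h => G.loopless.irrefl v h.1⟩

theorem Col.comp {G R S : SimpleGraph V} {B B' : V → Finset ℕ} {t t' : V → V → ℕ}
    (h : Col G R B t) (h' : Col R S B' t') (hd : ∀ v, Disjoint (B v) (B' v)) :
    Col G S (fun v => B v ∪ B' v) (fun v w => if R.Adj v w then t' v w else t v w) := by
  refine ⟨fun v w hw => h.le v w (h'.le v w hw), ?_, ?_, ?_, ?_⟩
  · intro v w
    by_cases hR : R.Adj v w
    · rw [if_pos hR, if_pos hR.symm, h'.sym]
    · rw [if_neg hR, if_neg (fun hh => hR hh.symm), h.sym]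
  · intro v w hG hS
    by_cases hR : R.Adj v w
    · rw [if_pos hR]
      exact mem_union_right _ (h'.col v w hR hS)
    · rw [if_neg hR]
      exact mem_union_left _ (h.col v w hG hR)
  · intro v w w' hG hS hG' hS' he
    by_cases hR : R.Adj v w
    · rw [if_pos hR] at he
      by_cases hR' : R.Adj v w'
      · rw [if_pos hR'] at he
        exact h'.inj v w w' hR hS hR' hS' he
      · rw [if_neg hR'] at he
        exact absurd (he ▸ h'.col v w hR hS) (disjoint_left.1 (hd v) (h.col v w' hG' hR'))
    · rw [if_neg hR] at he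
      by_cases hR' : R.Adj v w'
      · rw [if_pos hR'] at he
        exact absurd (h'.col v w' hR' hS') (disjoint_left.1 (hd v) (he ▸ h.col v w hG hR))
      · rw [if_neg hR'] at he
        exact h.inj v w w' hG hR hG' hR' he
  · intro v b hb
    rcases mem_union.1 hb with hb | hb
    · obtain ⟨w, h1, h2, h3⟩ := h.ful v b hb
      exact ⟨w, h1, fun hS => h2 (h'.le v w hS), by rw [if_neg h2]; exact h3⟩
    · obtain ⟨w, h1, h2, h3⟩ := h'.ful v b hb
      exact ⟨w, h.le v w h1, h2, by rw [if_pos h1]; exact h3⟩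

/-- enlarge `G` and `R` by the same edges -/
theorem Col.ext {G' G R U : SimpleGraph V} {B : V → Finset ℕ} {t : V → V → ℕ}
    (h : Col G' R B t) (hG : ∀ v w, G'.Adj v w → G.Adj v w) (hU : ∀ v w, U.Adj v w → G.Adj v w)
    (hUR : ∀ v w, G.Adj v w → (¬ U.Adj v w ↔ G'.Adj v w ∧ ¬ R.Adj v w)) :
    Col G U B t := by
  refine ⟨hU, h.sym, ?_, ?_, ?_⟩
  · intro v w h1 h2
    have := (hUR v w h1).1 h2
    exact h.col v w this.1 this.2
  · intro v w w' h1 h2 h3 h4 he
    have h5 := (hUR v w h1).1 h2
    have h6 := (hUR v w' h3).1 h4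
    exact h.inj v w w' h5.1 h5.2 h6.1 h6.2 he
  · intro v b hb
    obtain ⟨w, h1, h2, h3⟩ := h.ful v b hb
    exact ⟨w, hG v w h1, (hUR v w (hG v w h1)).2 ⟨h1, h2⟩, h3⟩

variable [Fintype V]

theorem Col.card {G R : SimpleGraph V} {B : V → Finset ℕ} {t : V → V → ℕ} (h : Col G R B t)
    (v : V) : dg R v univ + (B v).card = dg G v univ := by
  have h1 : (univ.filter fun w => G.Adj v w) =
      (univ.filter fun w => R.Adj v w) ∪ (univ.filter fun w => G.Adj v w ∧ ¬ R.Adj v w) := by
    ext w
    simp only [mem_filter, mem_univ, true_and, mem_union]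
    constructor
    · intro hh
      by_cases hR : R.Adj v w
      · exact Or.inl hR
      · exact Or.inr ⟨hh, hR⟩
    · rintro (hh | hh)
      · exact h.le v w hh
      · exact hh.1
  have h2 : (univ.filter fun w => G.Adj v w ∧ ¬ R.Adj v w).card = (B v).card := by
    have h3 : (univ.filter fun w => G.Adj v w ∧ ¬ R.Adj v w).image (t v) = B v := by
      ext b
      simp only [mem_image, mem_filter, mem_univ, true_and]
      constructor
      · rintro ⟨w, hw, rfl⟩
        exact h.col v w hw.1 hw.2
      · intro hb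
        obtain ⟨w, h4, h5, h6⟩ := h.ful v b hb
        exact ⟨w, ⟨h4, h5⟩, h6⟩
    rw [← h3, card_image_of_injOn]
    intro w hw w' hw' he
    rw [mem_coe, mem_filter] at hw hw'
    exact h.inj v w w' hw.2.1 hw.2.2 hw'.2.1 hw'.2.2 he
  unfold dg
  rw [h1, card_union_of_disjoint, h2]
  rw [disjoint_left]
  intro w hw hw'
  rw [mem_filter] at hw hw'
  exact hw'.2.2 hw.2

theorem dg_eq_sum (G : SimpleGraph V) (v : V) (Z : Finset V) :
    (dg G v Z : ℤ) = ∑ w ∈ Z, if G.Adj v w then 1 else 0 := by
  unfold dg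
  rw [card_filter]
  push_cast
  rfl

/-- double counting: a cross graph has signed degree sum zero in every part -/
theorem sum_crs_zero (U : SimpleGraph V) (sd pt : V → Bool)
    (hU : ∀ v w, U.Adj v w → sd v ≠ sd w ∧ pt v = pt w) (i : Bool) :
    ∑ v ∈ univ.filter (fun v => pt v = i), sgv (sd v) * (dg U v univ : ℤ) = 0 := by
  have h1 : ∀ v ∈ univ.filter (fun v => pt v = i), sgv (sd v) * (dg U v univ : ℤ) =
      ∑ w ∈ univ.filter (fun v => pt v = i), if U.Adj v w then sgv (sd v) else 0 := by
    intro v hv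
    rw [dg_eq_sum, mul_sum]
    rw [mem_filter] at hv
    rw [← sum_subset (subset_univ (univ.filter (fun v => pt v = i)))]
    · refine sum_congr rfl fun w _ => ?_
      split_ifs <;> simp
    · intro w _ hw
      rw [if_neg]
      · simp
      · intro h
        apply hw
        rw [mem_filter]
        exact ⟨mem_univ _, by rw [← (hU v w h).2]; exact hv.2⟩
  rw [sum_congr rfl h1]
  set A := univ.filter (fun v => pt v = i) with hA
  set T := ∑ v ∈ A, ∑ w ∈ A, (if U.Adj v w then sgv (sd v) else 0 : ℤ) with hT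
  have h2 : T = ∑ v ∈ A, ∑ w ∈ A, (if U.Adj v w then sgv (sd w) else 0 : ℤ) := by
    rw [hT, sum_comm]
    refine sum_congr rfl fun v _ => sum_congr rfl fun w _ => ?_
    by_cases h : U.Adj w v
    · rw [if_pos h, if_pos h.symm]
    · rw [if_neg h, if_neg (fun hh => h hh.symm)]
  have h3 : T + T = 0 := by
    nth_rewrite 2 [h2]
    rw [hT, ← sum_add_distrib]
    refine sum_eq_zero fun v _ => ?_
    rw [← sum_add_distrib]
    refine sum_eq_zero fun w _ => ?_
    by_cases h : U.Adj v w
    · rw [if_pos h, if_pos h]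
      have := (hU v w h).1
      unfold sgv
      cases h1 : sd v <;> cases h2 : sd w <;> simp_all
    · rw [if_neg h, if_neg h]
      rfl
  omega

end Pool.Agent.Work.MP_db9399_da_helper72
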