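import Pool.Agent.Work.MP_db9399_da_helper72.Reach

/-!
# CORE of the rounds: all rounds are completed simultaneously (helper72)

`N0 b` (`b : β`) are disjoint matchings (involutions) which cover all but few vertices outside the
holes `D b`; `Con` is a robust graph, edge disjoint from them.  Then there are disjoint matchings
`f b` which cover exactly the vertices outside `D b`, with edges of `N0 b` and of `Con`.
-/

set_option autoImplicit false

namespace Pool.Agent.Work.MP_db9399_da_helper72

open Finset

variable {V : Type*} [DecidableEq V] [Fintype V]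

open Classical in
theorem core {β : Type*} [Fintype β] (Con : V → V → Prop) (hCs : ∀ u v, Con u v → Con v u)
    (hCi : ∀ v, ¬ Con v v) (S : Finset V) (D : β → Finset V) (N0 : β → V → V)
    (hN0 : ∀ b v, N0 b (N0 b v) = v) (hN0D : ∀ b, ∀ v ∈ D b, N0 b v = v)
    (hdis : ∀ b b' v, b ≠ b' → N0 b v = N0 b' v → N0 b v = v)
    (hNC : ∀ b v, ¬ Con v (N0 b v))
    (hcl : ∀ v ∈ S, ∀ w, Con v w → ∀ u, (Con w u ∨ ∃ b, N0 b w = u) → u ≠ w → u ∈ S)
    (hpair : ∀ b, ∀ f : V → V, (∀ v, f (f v) = v) → (∀ v ∈ D b, f v = v) →
      (∀ v, f v = v ∨ f v = N0 b v ∨ Con v (f v)) → (∃ v, v ∉ D b ∧ f v = v) →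
      ∃ s t, s ≠ t ∧ s ∉ D b ∧ t ∉ D b ∧ f s = s ∧ f t = t ∧ s ∈ S ∧ ∀ w, Con w t → w ∈ S)
    (a a' g e1 e2 e3 ρ J h r0 u0 d0 H : ℕ)
    (hdeg : ∀ v, a + h + r0 ≤ (univ.filter fun w => Con v w).card)
    (hrob : ∀ O : Finset V, O ⊆ S → ∀ I : Finset V, a' ≤ O.card → I.card ≤ O.card + e1 →
      ((O ×ˢ Iᶜ).filter fun p => Con p.1 p.2).card ≤ e2 + Fintype.card V * (h + r0) →
      (S \ O).card ≤ e3)
    (hD : ∀ b, (D b).card ≤ d0)
    (hU : ∀ b, (univ.filter fun v => v ∉ D b ∧ N0 b v = v).card ≤ u0)
    (hr : ∀ v, (univ.filter fun b => v ∉ D b ∧ N0 b v = v).card ≤ r0) (hh : 0 < h)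
    (hH : Fintype.card β * ((J + 2) * u0) ≤ h * H)
    (h1 : a' + (d0 + u0 + (J + 2) * u0 + 2 * H) ≤ a)
    (h2 : g + (d0 + u0 + (J + 2) * u0 + 2 * H) ≤ e1)
    (h3 : Fintype.card V < J * (g + 1)) (h4 : Fintype.card V * (J * ρ) ≤ e2)
    (h5 : J * ρ + e3 ≤ a) (h6 : 2 * (2 * J + 3) < ρ) :
    ∃ f : β → V → V, (∀ b v, f b (f b v) = v) ∧ (∀ b v, f b v = v ↔ v ∈ D b) ∧
      (∀ b v, v ∉ D b → f b v = N0 b v ∨ Con v (f b v)) ∧
      ∀ b b' v, b ≠ b' → f b v = f b' v → f b v = v := by
  -- states
  set St : (β → V → V) → Prop := fun f =>
    (∀ b v, f b (f b v) = v) ∧ (∀ b, ∀ v ∈ D b, f b v = v) ∧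
    (∀ b v, f b v = v ∨ f b v = N0 b v ∨ Con v (f b v)) ∧
    (∀ b b' v, b ≠ b' → f b v = f b' v → f b v = v) ∧
    (∀ b v, f b v = v → N0 b v = v) ∧
    (∀ b, (univ.filter fun v => Con v (f b v)).card +
      (J + 2) * (univ.filter fun v => v ∉ D b ∧ f b v = v).card ≤
      (J + 2) * (univ.filter fun v => v ∉ D b ∧ N0 b v = v).card) ∧
    (∀ v, (univ.filter fun b => Con v (f b v) ∧ N0 b v ≠ v).card ≤ h) with hSt
  have hne : (univ.filter fun f : β → V → V => St f).Nonempty := by
    refine ⟨N0, mem_filter.2 ⟨mem_univ _, ?_⟩⟩
    rw [hSt]
    refine ⟨hN0, hN0D, fun b v => Or.inr (Or.inl rfl), hdis, fun _ _ h => h, ?_, ?_⟩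
    · intro b
      have : (univ.filter fun v => Con v (N0 b v)) = ∅ := by
        rw [filter_eq_empty_iff]
        intro v _
        exact hNC b v
      rw [this, card_empty, zero_add]
    · intro v
      have : (univ.filter fun b => Con v (N0 b v) ∧ N0 b v ≠ v) = ∅ := by
        rw [filter_eq_empty_iff]
        intro b _ hb
        exact hNC b v hb.1
      rw [this, card_empty]
      exact Nat.zero_le _
  obtain ⟨f, hf, hmin⟩ := exists_min_image _
    (fun f : β → V → V => ∑ b, (univ.filter fun v => v ∉ D b ∧ f b v = v).card) hne
  rw [mem_filter] at hf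
  obtain ⟨-, hf⟩ := hf
  obtain ⟨s1, s2, s3, s4, s5, s6, s7⟩ := hf
  -- everything is covered
  have hall : ∀ b v, v ∉ D b → f b v ≠ v := by
    intro b v0 hv0 hfv0
    -- used edges
    have hTc : ∀ b, (univ.filter fun v => Con v (f b v)).card ≤ (J + 2) * u0 := by
      intro b
      have h7 := s6 b
      have h8 : (J + 2) * (univ.filter fun v => v ∉ D b ∧ N0 b v = v).card ≤ (J + 2) * u0 :=
        Nat.mul_le_mul_left _ (hU b)
      omega
    have hused : ∀ v, (univ.filter fun b => Con v (f b v)).card ≤ h + r0 := by
      intro v
      have h7 : (univ.filter fun b => Con v (f b v)) ⊆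
          (univ.filter fun b => Con v (f b v) ∧ N0 b v ≠ v) ∪
          (univ.filter fun b => v ∉ D b ∧ N0 b v = v) := by
        intro b hb
        rw [mem_filter] at hb
        rw [mem_union, mem_filter, mem_filter]
        by_cases h : N0 b v = v
        · right
          refine ⟨mem_univ _, ?_, h⟩
          intro hD'
          have h8 := hb.2
          rw [s2 b v hD'] at h8
          exact hCi v h8
        · exact Or.inl ⟨mem_univ _, hb.2, h⟩
      exact (card_le_card h7).trans ((card_union_le _ _).trans (Nat.add_le_add (s7 v) (hr v)))
    obtain ⟨K, hK⟩ : ∃ K : V → V → Prop, ∀ u v, K u v ↔ Con u v ∧ ∀ b', f b' u ≠ v :=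
      ⟨_, fun _ _ => Iff.rfl⟩
    have hKs : ∀ u v, K u v → K v u := by
      intro u v h6
      rw [hK] at h6 ⊢
      obtain ⟨h7, h8⟩ := h6
      refine ⟨hCs _ _ h7, fun b' h9 => h8 b' ?_⟩
      rw [← h9, s1]
    have husedK : ∀ v, (univ.filter fun w => Con v w ∧ ¬ K v w).card ≤ h + r0 := by
      intro v
      refine le_trans ?_ (hused v)
      have h7 : (univ.filter fun w => Con v w ∧ ¬ K v w) ⊆
          (univ.filter fun b => Con v (f b v)).image (fun b => f b v) := by
        intro w hw
        rw [mem_filter] at hw
        obtain ⟨-, h8, h9⟩ := hw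
        have h10 : ∃ b', f b' v = w := by
          by_contra hcon
          push Not at hcon
          exact h9 ((hK v w).2 ⟨h8, hcon⟩)
        obtain ⟨b', hb'⟩ := h10
        rw [mem_image]
        exact ⟨b', mem_filter.2 ⟨mem_univ _, by rw [hb']; exact h8⟩, hb'⟩
      exact (card_le_card h7).trans card_image_le
    have hdegK : ∀ v, a ≤ (univ.filter fun w => K v w).card := by
      intro v
      have h7 : (univ.filter fun w => Con v w) ⊆ (univ.filter fun w => K v w) ∪
          (univ.filter fun w => Con v w ∧ ¬ K v w) := by
        intro w hw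
        rw [mem_filter] at hw
        rw [mem_union, mem_filter, mem_filter]
        by_cases h : K v w
        · exact Or.inl ⟨mem_univ _, h⟩
        · exact Or.inr ⟨mem_univ _, hw.2, h⟩
      have h8 := (card_le_card h7).trans (card_union_le _ _)
      have h9 := husedK v
      have h10 := hdeg v
      omega
    have hdegK' : ∀ v, a ≤ (univ.filter fun w => K w v).card := by
      intro v
      have h7 : (univ.filter fun w => K w v) = (univ.filter fun w => K v w) := by
        ext w
        simp only [mem_filter, mem_univ, true_and]
        exact ⟨hKs w v, hKs v w⟩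
      rw [h7]
      exact hdegK v
    have hrobK : ∀ O : Finset V, O ⊆ S → ∀ I : Finset V, a' ≤ O.card → I.card ≤ O.card + e1 →
        ((O ×ˢ Iᶜ).filter fun p => K p.1 p.2).card ≤ e2 → (S \ O).card ≤ e3 := by
      intro O hO I hO' hI he
      refine hrob O hO I hO' hI ?_
      have h7 : ((O ×ˢ Iᶜ).filter fun p => Con p.1 p.2) ⊆
          ((O ×ˢ Iᶜ).filter fun p => K p.1 p.2) ∪
          (O.biUnion fun u => (univ.filter fun w => Con u w ∧ ¬ K u w).image fun w => (u, w)) := by
        rintro ⟨u, w⟩ hp
        rw [mem_filter] at hp
        rw [mem_union, mem_filter, mem_biUnion]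
        by_cases h : K u w
        · exact Or.inl ⟨hp.1, h⟩
        · right
          refine ⟨u, (mem_product.1 hp.1).1, ?_⟩
          rw [mem_image]
          exact ⟨w, mem_filter.2 ⟨mem_univ _, hp.2, h⟩, rfl⟩
      have h8 := (card_le_card h7).trans (card_union_le _ _)
      have h9 : (O.biUnion fun u => (univ.filter fun w => Con u w ∧ ¬ K u w).image
          fun w => (u, w)).card ≤ Fintype.card V * (h + r0) := by
        refine card_biUnion_le.trans ?_
        calc ∑ u ∈ O, ((univ.filter fun w => Con u w ∧ ¬ K u w).image fun w => (u, w)).card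
            ≤ ∑ u ∈ O, (h + r0) := sum_le_sum fun u _ => card_image_le.trans (husedK u)
          _ = O.card * (h + r0) := by rw [sum_const, smul_eq_mul]
          _ ≤ Fintype.card V * (h + r0) := Nat.mul_le_mul_right _ (card_le_univ _)
      omega
    -- vertices of high load
    set High : Finset V := univ.filter fun v =>
      h ≤ (univ.filter fun b => Con v (f b v) ∧ N0 b v ≠ v).card with hHigh
    have hHc : High.card ≤ H := by
      have h7 : h * High.card ≤ ∑ v, (univ.filter fun b => Con v (f b v)).card := by
        calc h * High.card = ∑ v ∈ High, h := by rw [sum_const, smul_eq_mul, mul_comm]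
          _ ≤ ∑ v ∈ High, (univ.filter fun b => Con v (f b v)).card := by
              refine sum_le_sum fun v hv => ?_
              rw [hHigh, mem_filter] at hv
              refine hv.2.trans (card_le_card ?_)
              intro b hb
              rw [mem_filter] at hb ⊢
              exact ⟨hb.1, hb.2.1⟩
          _ ≤ ∑ v, (univ.filter fun b => Con v (f b v)).card :=
              sum_le_sum_of_subset (subset_univ _)
      have h8 : ∑ v, (univ.filter fun b => Con v (f b v)).card =
          ∑ b, (univ.filter fun v => Con v (f b v)).card := by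
        simp_rw [card_filter]
        exact sum_comm
      have h9 : ∑ b, (univ.filter fun v => Con v (f b v)).card ≤ ∑ _b : β, (J + 2) * u0 :=
        sum_le_sum fun b _ => hTc b
      rw [sum_const, card_univ, smul_eq_mul] at h9
      have h10 : h * High.card ≤ h * H := by
        rw [h8] at h7
        exact h7.trans (h9.trans hH)
      exact Nat.le_of_mul_le_mul_left h10 hh
    -- the bad set
    set Fx : Finset V := univ.filter fun v => f b v = v with hFx
    set Tb : Finset V := univ.filter fun v => Con v (f b v) with hTb
    set Bad : Finset V := (Fx ∪ Tb) ∪ (High ∪ High.image (f b)) with hBad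
    have hFxc : Fx.card ≤ d0 + u0 := by
      have h7 : Fx ⊆ D b ∪ (univ.filter fun v => v ∉ D b ∧ N0 b v = v) := by
        intro v hv
        rw [hFx, mem_filter] at hv
        rw [mem_union, mem_filter]
        by_cases h : v ∈ D b
        · exact Or.inl h
        · exact Or.inr ⟨mem_univ _, h, s5 b v hv.2⟩
      exact (card_le_card h7).trans ((card_union_le _ _).trans (Nat.add_le_add (hD b) (hU b)))
    have hBc : Bad.card ≤ d0 + u0 + (J + 2) * u0 + 2 * H := by
      have h7 : Bad.card ≤ (Fx ∪ Tb).card + (High ∪ High.image (f b)).card := card_union_le _ _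
      have h8 : (Fx ∪ Tb).card ≤ Fx.card + Tb.card := card_union_le _ _
      have h9 : (High ∪ High.image (f b)).card ≤ High.card + (High.image (f b)).card :=
        card_union_le _ _
      have h10 : (High.image (f b)).card ≤ High.card := card_image_le
      have h11 : Tb.card ≤ (J + 2) * u0 := hTc b
      omega
    obtain ⟨s, t, hst, hsD, htD, hfs, hft, hsS, htS⟩ :=
      hpair b (f b) (s1 b) (s2 b) (s3 b) ⟨v0, hv0, hfv0⟩
    obtain ⟨N', T, hinv, hsT, htT, hTcard, hout, hin, hTcl, hTB⟩ :=
      reach K hKs (f b) (s1 b) S
        (by
          intro v hv w hw hne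
          refine hcl v hv w ((hK v w).1 hw).1 (f b w) ?_ hne
          rcases s3 b w with h7 | h7 | h7
          · exact absurd h7 hne
          · exact Or.inr ⟨b, h7.symm⟩
          · exact Or.inl h7)
        Bad
        (by
          intro v hv
          rw [hBad, mem_union, mem_union, hFx, mem_filter]
          exact Or.inl (Or.inl ⟨mem_univ _, hv⟩))
        (by
          intro v hv
          rw [hBad, mem_union, mem_union, mem_union] at hv ⊢
          rcases hv with (hv | hv) | (hv | hv)
          · rw [hFx, mem_filter] at hv
            left; left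
            rw [hFx, mem_filter]
            exact ⟨mem_univ _, by rw [hv.2, hv.2]⟩
          · rw [hTb, mem_filter] at hv
            left; right
            rw [hTb, mem_filter, s1]
            exact ⟨mem_univ _, hCs _ _ hv.2⟩
          · right; right
            exact mem_image_of_mem _ hv
          · right; left
            rw [mem_image] at hv
            obtain ⟨u, hu, rfl⟩ := hv
            rw [s1]
            exact hu)
        s t hst hfs hft hsS (fun w hw => htS w ((hK w t).1 hw).1) a a' g e1 e2 e3 ρ J (hdegK s) (hdegK' t)
        hrobK (by omega) (by omega) h3 h4 h5 h6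
    -- the new state
    set f' : β → V → V := fun b' => if b' = b then N' else f b' with hf'
    have hf'b : f' b = N' := by rw [hf']; simp
    have hf'o : ∀ b', b' ≠ b → f' b' = f b' := by
      intro b' hb'
      rw [hf']
      simp [hb']
    have hsU : s ∈ univ.filter fun v => v ∉ D b ∧ f b v = v :=
      mem_filter.2 ⟨mem_univ _, hsD, hfs⟩
    have htU : t ∈ univ.filter fun v => v ∉ D b ∧ f b v = v :=
      mem_filter.2 ⟨mem_univ _, htD, hft⟩
    have hN'fix : ∀ v, N' v = v → v ∉ T ∧ f b v = v := by
      intro v hv
      have hvT : v ∉ T := by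
        intro h7
        have := ((hK _ _).1 (hin v h7)).1
        rw [hv] at this
        exact hCi v this
      exact ⟨hvT, by rw [← hout v hvT]; exact hv⟩
    have hU' : (univ.filter fun v => v ∉ D b ∧ N' v = v).card + 2 ≤
        (univ.filter fun v => v ∉ D b ∧ f b v = v).card := by
      have h7 : (univ.filter fun v => v ∉ D b ∧ N' v = v) ⊆
          ((univ.filter fun v => v ∉ D b ∧ f b v = v).erase s).erase t := by
        intro v hv
        rw [mem_filter] at hv
        obtain ⟨h8, h9⟩ := hN'fix v hv.2.2
        rw [mem_erase, mem_erase, mem_filter]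
        exact ⟨fun h => h8 (h ▸ htT), fun h => h8 (h ▸ hsT), mem_univ _, hv.2.1, h9⟩
      have h8 := card_le_card h7
      rw [card_erase_of_mem (mem_erase.2 ⟨hst.symm, htU⟩), card_erase_of_mem hsU] at h8
      have h9 : 2 ≤ (univ.filter fun v => v ∉ D b ∧ f b v = v).card := by
        have : ({s, t} : Finset V) ⊆ univ.filter fun v => v ∉ D b ∧ f b v = v := by
          intro v hv
          rw [mem_insert, mem_singleton] at hv
          rcases hv with rfl | rfl
          · exact hsU
          · exact htU
        have := card_le_card this
        rwa [card_pair hst] at this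
      omega
    have hf'St : St f' := by
      rw [hSt]
      refine ⟨?_, ?_, ?_, ?_, ?_, ?_, ?_⟩
      · intro b' v
        by_cases hb' : b' = b
        · subst hb'
          rw [hf'b]
          exact hinv v
        · rw [hf'o b' hb']
          exact s1 b' v
      · intro b' v hv
        by_cases hb' : b' = b
        · subst hb'
          rw [hf'b]
          have h7 : v ∉ T := by
            intro h8
            have h9 : v ∉ Bad := hTB v h8 (fun h => hsD (h ▸ hv)) (fun h => htD (h ▸ hv))
            apply h9
            rw [hBad, mem_union, mem_union, hFx, mem_filter]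
            exact Or.inl (Or.inl ⟨mem_univ _, s2 _ v hv⟩)
          rw [hout v h7]
          exact s2 _ v hv
        · rw [hf'o b' hb']
          exact s2 b' v hv
      · intro b' v
        by_cases hb' : b' = b
        · subst hb'
          rw [hf'b]
          by_cases h7 : v ∈ T
          · exact Or.inr (Or.inr ((hK _ _).1 (hin v h7)).1)
          · rw [hout v h7]
            exact s3 _ v
        · rw [hf'o b' hb']
          exact s3 b' v
      · intro b1 b2 v hb12 heq
        by_cases hb1 : b1 = b
        · subst hb1
          rw [hf'b, hf'o b2 (fun h => hb12 h.symm)] at heq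
          rw [hf'b]
          by_cases h7 : v ∈ T
          · exact absurd heq.symm (((hK _ _).1 (hin v h7)).2 b2)
          · rw [hout v h7] at heq ⊢
            exact s4 _ _ v hb12 heq
        · by_cases hb2 : b2 = b
          · subst hb2
            rw [hf'b, hf'o b1 hb1] at heq
            rw [hf'o b1 hb1]
            by_cases h7 : v ∈ T
            · exact absurd heq (((hK _ _).1 (hin v h7)).2 b1)
            · rw [hout v h7] at heq
              exact s4 _ _ v hb12 heq
          · rw [hf'o b1 hb1, hf'o b2 hb2] at heq
            rw [hf'o b1 hb1]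
            exact s4 _ _ v hb12 heq
      · intro b' v hv
        by_cases hb' : b' = b
        · subst hb'
          rw [hf'b] at hv
          exact s5 _ v (hN'fix v hv).2
        · rw [hf'o b' hb'] at hv
          exact s5 b' v hv
      · intro b'
        by_cases hb' : b' = b
        · subst hb'
          rw [hf'b]
          have h7 : (univ.filter fun v => Con v (N' v)).card ≤ Tb.card + T.card := by
            refine le_trans (card_le_card ?_) (card_union_le _ _)
            intro v hv
            rw [mem_filter] at hv
            rw [mem_union]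
            by_cases h8 : v ∈ T
            · exact Or.inr h8
            · left
              rw [hTb, mem_filter, ← hout v h8]
              exact ⟨mem_univ _, hv.2⟩
          have h8 := s6 b'
          have h9 : (J + 2) * ((univ.filter fun v => v ∉ D b' ∧ N' v = v).card + 2) ≤
              (J + 2) * (univ.filter fun v => v ∉ D b' ∧ f b' v = v).card :=
            Nat.mul_le_mul_left _ hU'
          rw [Nat.mul_add] at h9
          rw [hTb] at h7
          omega
        · rw [hf'o b' hb']
          exact s6 b'
      · intro v
        by_cases h7 : v ∈ T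
        · by_cases h8 : N0 b v = v
          · -- the round `b` is not counted
            have h9 : (univ.filter fun b' => Con v (f' b' v) ∧ N0 b' v ≠ v) ⊆
                (univ.filter fun b' => Con v (f b' v) ∧ N0 b' v ≠ v) := by
              intro b' hb'
              rw [mem_filter] at hb' ⊢
              by_cases h10 : b' = b
              · subst h10
                exact absurd h8 hb'.2.2
              · rw [hf'o b' h10] at hb'
                exact hb'
            exact (card_le_card h9).trans (s7 v)
          · have h9 : v ∉ Bad := by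
              refine hTB v h7 ?_ ?_
              · intro h10
                exact h8 (s5 b v (by rw [h10]; exact hfs))
              · intro h10
                exact h8 (s5 b v (by rw [h10]; exact hft))
            have h10 : v ∉ High := by
              intro h11
              apply h9
              rw [hBad, mem_union, mem_union, mem_union]
              exact Or.inr (Or.inl h11)
            rw [hHigh, mem_filter, not_and, not_le] at h10
            have h11 := h10 (mem_univ _)
            have h12 : (univ.filter fun b' => Con v (f' b' v) ∧ N0 b' v ≠ v) ⊆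
                insert b (univ.filter fun b' => Con v (f b' v) ∧ N0 b' v ≠ v) := by
              intro b' hb'
              rw [mem_insert]
              by_cases h13 : b' = b
              · exact Or.inl h13
              · right
                rw [mem_filter] at hb' ⊢
                rw [hf'o b' h13] at hb'
                exact hb'
            have h13 := (card_le_card h12).trans (card_insert_le _ _)
            omega
        · have h9 : (univ.filter fun b' => Con v (f' b' v) ∧ N0 b' v ≠ v) ⊆
              (univ.filter fun b' => Con v (f b' v) ∧ N0 b' v ≠ v) := by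
            intro b' hb'
            rw [mem_filter] at hb' ⊢
            by_cases h10 : b' = b
            · subst h10
              rw [hf'b, hout v h7] at hb'
              exact hb'
            · rw [hf'o b' h10] at hb'
              exact hb'
          exact (card_le_card h9).trans (s7 v)
    have hle := hmin f' (mem_filter.2 ⟨mem_univ _, hf'St⟩)
    have hlt : ∑ b', (univ.filter fun v => v ∉ D b' ∧ f' b' v = v).card <
        ∑ b', (univ.filter fun v => v ∉ D b' ∧ f b' v = v).card := by
      refine sum_lt_sum (fun b' _ => ?_) ⟨b, mem_univ _, ?_⟩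
      · by_cases hb' : b' = b
        · subst hb'
          rw [hf'b]
          omega
        · rw [hf'o b' hb']
      · rw [hf'b]
        omega
    omega
  refine ⟨f, s1, fun b v => ⟨fun h => ?_, s2 b v⟩, fun b v hv => ?_, s4⟩
  · by_contra hcon
    exact hall b v hcon h
  · rcases s3 b v with h | h | h
    · exact absurd h (hall b v hv)
    · exact Or.inl h
    · exact Or.inr h

end Pool.Agent.Work.MP_db9399_da_helper72
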