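import Pool.Agent.Work.MP_db9399_da_helper72.LOCB
import Pool.Agent.Work.MP_db9399_da_helper72.Stm6

/-!
# LOCB2 (phase 2) from MIS1B, OWC and the middle theorem (helper72)
-/

set_option autoImplicit false

namespace Pool.Agent.Work.MP_db9399_da_helper72

open Finset Classical
open Pool.Agent.Work.MP_db9399_all (nb)
open Pool.Agent.Work.MP_db9399_lt (us)
open Pool.Agent.Work.MP_db9399_da

universe u

/-- palettes of the two sides, factor 5 -/
theorem pals5 (κ : ℝ) (hκ : 0 < κ) (d : ℕ) (hd : 16 ≤ κ * d) (Qj S : Finset ℕ) (hS : S ⊆ Qj)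
    (h1 : κ * d ≤ (Qj.card : ℝ)) (h4 : Qj.card ≤ 5 * S.card) :
    ∃ Y ⊆ S, κ / 16 * d ≤ (Y.card : ℝ) ∧ κ / 16 * d ≤ ((Qj \ Y).card : ℝ) := by
  obtain ⟨Y, hY, hYc⟩ := exists_subset_card_eq (s := S) (n := S.card / 2) (by omega)
  have h5 : (Qj.card : ℝ) ≤ 5 * S.card := by exact_mod_cast h4
  have h6 : (S.card : ℝ) ≤ 2 * (S.card / 2 : ℕ) + 1 := by
    have : S.card ≤ 2 * (S.card / 2) + 1 := by omega
    exact_mod_cast this
  have h7 : (S.card : ℝ) ≤ Qj.card := by exact_mod_cast card_le_card hS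
  have h8 : (2 * (S.card / 2 : ℕ) : ℝ) ≤ S.card := by
    have : 2 * (S.card / 2) ≤ S.card := by omega
    exact_mod_cast this
  refine ⟨Y, hY, ?_, ?_⟩
  · rw [hYc]
    linarith
  · rw [card_sdiff_of_subset (hY.trans hS), Nat.cast_sub (card_le_card (hY.trans hS)), hYc]
    linarith

theorem locb2 (hM1 : Stmt_MIS1B.{u}) (hOWC : Stmt_OWC.{u}) (hLOCM : Stmt_LOCM.{u}) :
    Stmt_LOCB2.{u} := by
  intro C ρ K hC hρ hK
  obtain ⟨π0, hπ0, hL1⟩ := hLOCM C ρ K hC hρ
  refine ⟨min π0 (1 / 100), lt_min hπ0 (by norm_num), ?_⟩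
  intro π hπ hπ1
  have hπ2 : π ≤ 1 / 100 := hπ1.trans (min_le_right _ _)
  obtain ⟨κ0, hκ0, hL2⟩ := hL1 π hπ (hπ1.trans (min_le_left _ _))
  refine ⟨min κ0 (1 / 100), lt_min hκ0 (by norm_num), ?_⟩
  intro κ hκ hκ1
  have hκ2 : κ ≤ 1 / 100 := hκ1.trans (min_le_right _ _)
  obtain ⟨M0, θo, dO, hθo, hO⟩ := hOWC C (κ / 16) hC (by positivity)
  obtain ⟨θm, dm, hθm, hL3⟩ := hL2 κ hκ (hκ1.trans (min_le_left _ _)) M0
  obtain ⟨θ1, d1, hθ1, hM1'⟩ := hM1 C ρ π κ θm K hC hκ hκ2 hπ hπ2 hθm hK
  obtain ⟨θ, hθ⟩ : ∃ x : ℝ, x = min (min θo θ1) (min (θm / 2) (1 / 4)) := ⟨_, rfl⟩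
  have hθ0 : 0 < θ := by
    rw [hθ]
    exact lt_min (lt_min hθo hθ1) (lt_min (by positivity) (by norm_num))
  have ht1 : θ ≤ θo := by rw [hθ]; exact (min_le_left _ _).trans (min_le_left _ _)
  have ht2 : θ ≤ θ1 := by rw [hθ]; exact (min_le_left _ _).trans (min_le_right _ _)
  have ht3 : θ ≤ θm / 2 := by rw [hθ]; exact (min_le_right _ _).trans (min_le_left _ _)
  have ht4 : θ ≤ 1 / 4 := by rw [hθ]; exact (min_le_right _ _).trans (min_le_right _ _)
  refine ⟨M0 + 2 * K + 4, θ, dO + dm + d1 + ⌈16 / κ⌉₊ + ⌈2 * (K : ℝ) / θm⌉₊ + 10, hθ0, ?_⟩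
  intro V _ G Th d z sd pt Q P2 F A Sp Bk o c0 hd hI hB
  rcases isEmpty_or_nonempty V with hV | hV
  · refine ⟨fun v => hV.elim v, fun v => hV.elim v, ⟨fun v => hV.elim v, fun v => hV.elim v,
      fun v => hV.elim v, fun v => hV.elim v, fun v => hV.elim v, fun b => ?_⟩,
      fun v => hV.elim v, fun v => hV.elim v, fun v => hV.elim v⟩
    have : (univ : Finset V) = ∅ := univ_eq_empty
    rw [this, filter_empty, card_empty]
    omega
  have hdR : (dO : ℝ) + dm + d1 + ⌈16 / κ⌉₊ + ⌈2 * (K : ℝ) / θm⌉₊ + 10 ≤ d := by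
    exact_mod_cast hd
  have hn1 := Nat.le_ceil (16 / κ)
  have hn2 := Nat.le_ceil (2 * (K : ℝ) / θm)
  have hp1 : (0 : ℝ) ≤ dO := Nat.cast_nonneg _
  have hp2 : (0 : ℝ) ≤ dm := Nat.cast_nonneg _
  have hp3 : (0 : ℝ) ≤ d1 := Nat.cast_nonneg _
  have hp4 : (0 : ℝ) ≤ (⌈16 / κ⌉₊ : ℝ) := Nat.cast_nonneg _
  have hp5 : (0 : ℝ) ≤ (⌈2 * (K : ℝ) / θm⌉₊ : ℝ) := Nat.cast_nonneg _
  have hd1 : 16 ≤ κ * d := by
    have : 16 / κ ≤ (d : ℝ) := by linarith
    rw [div_le_iff₀ hκ] at this
    linarith
  have hd2 : 2 * (K : ℝ) ≤ θm * d := by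
    have : 2 * (K : ℝ) / θm ≤ (d : ℝ) := by linarith
    rw [div_le_iff₀ hθm] at this
    linarith
  have hd10 : (10 : ℝ) ≤ d := by linarith
  have hd0 : (0 : ℝ) < d := by linarith
  have hθmd : θ * (d : ℝ) ≤ θm * d := mul_le_mul_of_nonneg_right (by linarith) hd0.le
  -- LI2, LB2 with larger θ
  have hmon : ∀ θ' : ℝ, θ ≤ θ' → θ * (d : ℝ) ≤ θ' * d := fun θ' h =>
    mul_le_mul_of_nonneg_right h hd0.le
  have hI1 : LI2 G d K C ρ π κ θ1 sd pt Q P2 F :=
    { VC := hI.VC, Flt := hI.Flt
      Fx := fun v => (hI.Fx v).trans (hmon _ ht2)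
      load := fun b => (hI.load b).trans (hmon _ ht2)
      Qlt := hI.Qlt, Plt := hI.Plt, QQ := hI.QQ, QP := hI.QP, Qc := hI.Qc, Pc := hI.Pc
      FQ := hI.FQ, sgQ := hI.sgQ
      sm2 := fun i => (hI.sm2 i).trans (hmon _ ht2)
      smQ := fun i => (hI.smQ i).trans (hmon _ ht2)
      cutG := hI.cutG, cutP := hI.cutP }
  have hB1 : LB2 G Th d z K θ1 sd pt Q P2 F A Sp Bk o c0 :=
    { bip := hB.bip, deg := hB.deg
      dgp := fun v i => (hB.dgp v i).trans (hmon _ ht2)
      eqs := hB.eqs, siz := hB.siz, FA := hB.FA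
      Ax := fun v hv => (hB.Ax v hv).trans (hmon _ ht2)
      Tx := fun v => (hB.Tx v).trans (hmon _ ht2)
      SP := hB.SP
      Sc := hB.Sc.trans (hmon _ ht2)
      BS := hB.BS
      gA := fun b h1 h2 => (hB.gA b h1 h2).trans (hmon _ ht2)
      Ze := hB.Ze, Zz := hB.Zz, Zt := hB.Zt, ok := hB.ok, oc := hB.oc, oG := hB.oG, oT := hB.oT
      gs := hB.gs
      sm1 := hB.sm1.trans (hmon _ ht2)
      tot := fun β => (hB.tot β).trans (by
        have := hmon _ ht2
        linarith)
      oY := hB.oY, EX := hB.EX }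
  obtain ⟨W, T1, Pf, N0, hW⟩ := hM1' V G Th d z sd pt Q P2 F A Sp Bk o c0 (by omega) hI1 hB1
  -- palettes
  obtain ⟨A', hA'⟩ : ∃ A' : V → Finset ℕ, ∀ v, A' v = if v ∈ o then ∅ else A v := ⟨_, fun _ => rfl⟩
  have hA'n : ∀ v, v ∉ o → A' v = A v := fun v hv => by rw [hA' v, if_neg hv]
  have hA'c : ∀ v, ((A' v).card : ℝ) ≤ θ * d := by
    intro v
    by_cases hv : v ∈ o
    · rw [hA' v, if_pos hv, card_empty, Nat.cast_zero]
      positivity
    · rw [hA'n v hv]
      exact hB.Ax v hv
  have hpal : ∀ j, ∃ Y ⊆ (Q j).filter (fun b => 0 ≤ sgp F sd pt (!j) b),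
      κ / 16 * d ≤ (Y.card : ℝ) ∧ κ / 16 * d ≤ ((Q j \ Y).card : ℝ) := fun j =>
    pals5 κ hκ d hd1 (Q j) _ (filter_subset _ _) (hI.Qc j).1 (hB.oY j)
  choose QY hQY1 hQY2 hQY3 using hpal
  obtain ⟨c1, hc1, hc2, hc3⟩ := hO V Th d (fun v => if sd v = true then QY (pt v) else
    Q (pt v) \ QY (pt v)) A' (by omega) hI.VC
    (by
      intro v
      beta_reduce
      split_ifs
      · exact hQY2 _
      · exact hQY3 _)
    (fun v => (hA'c v).trans (hmon _ ht1)) (fun v => (hB.Tx v).trans (hmon _ ht1))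
  have hcY : ∀ v, sd v = true → c1 v ∈ QY (pt v) := by
    intro v hv
    have := (hc1 v).1
    rwa [if_pos hv] at this
  have hcX : ∀ v, sd v = false → c1 v ∈ Q (pt v) ∧ c1 v ∉ QY (pt v) := by
    intro v hv
    have := (hc1 v).1
    rw [if_neg (by rw [hv]; simp), mem_sdiff] at this
    exact this
  have hcQ : ∀ v, c1 v ∈ Q (pt v) := by
    intro v
    cases hv : sd v
    · exact (hcX v hv).1
    · exact (mem_filter.1 (hQY1 _ (hcY v hv))).1
  have hPPn : ∀ b ∈ PP d Q P2, b ∉ P2 ∧ b ∉ Q false ∧ b ∉ Q true := by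
    intro b hb
    have := (mem_sdiff.1 hb).2
    simp only [mem_union, not_or] at this
    exact ⟨this.2, this.1.1, this.1.2⟩
  have hQQ' : ∀ v w, pt v ≠ pt w → c1 v ≠ c1 w := by
    intro v w hne he
    have h1 := hcQ v
    have h2 := hcQ w
    rw [← he] at h2
    cases h3 : pt v <;> cases h4 : pt w
    · exact hne (h3.trans h4.symm)
    · rw [h3] at h1
      rw [h4] at h2
      exact disjoint_left.1 hI.QQ h1 h2
    · rw [h3] at h1
      rw [h4] at h2
      exact disjoint_left.1 hI.QQ h2 h1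
    · exact hne (h3.trans h4.symm)
  -- number of vertices
  have hVl : d + 2 ≤ Fintype.card V := by
    obtain ⟨v⟩ := hV
    have hdv : ∀ v, 3 / 4 * (d : ℝ) ≤ ((nb G v).card : ℝ) := by
      intro v
      have h1 : ((nb G v).card : ℝ) + (F v).card = d := by exact_mod_cast hB.deg v
      have h2 := hI.Fx v
      have h3 : θ * (d : ℝ) ≤ 1 / 4 * d := mul_le_mul_of_nonneg_right ht4 hd0.le
      linarith
    have hne : (nb G v).Nonempty := by
      rw [← card_pos]
      have h1 := hdv v
      have : (0 : ℝ) < (nb G v).card := by linarith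
      exact_mod_cast this
    obtain ⟨w, hw⟩ := hne
    have hvw : G.Adj v w := (mem_filter.1 hw).2
    have hdis : Disjoint (nb G v) (nb G w) := by
      rw [disjoint_left]
      intro x h1 h2
      have h3 := hB.bip v x (mem_filter.1 h1).2
      have h4 := hB.bip w x (mem_filter.1 h2).2
      have h5 := hB.bip v w hvw
      rw [bne h5] at h4
      rw [bne h3] at h4
      exact h4 rfl
    have h1 := card_le_univ (nb G v ∪ nb G w)
    rw [card_union_of_disjoint hdis] at h1
    have h2 : ((nb G v).card : ℝ) + (nb G w).card ≤ Fintype.card V := by exact_mod_cast h1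
    have h3 := hdv v
    have h4 := hdv w
    have h5 : ((d + 2 : ℕ) : ℝ) ≤ Fintype.card V := by
      push_cast
      linarith
    exact_mod_cast h5
  have hmi : MI G Th N0 d K M0 C ρ π κ θm sd pt Q P2 F A' W T1 Pf c1 :=
    { VC := hI.VC
      Vl := hVl
      Flt := fun v b hb => mem_range.2 (hI.Flt v b hb)
      Fx := fun v => (hI.Fx v).trans hθmd
      load := fun b => (hI.load b).trans hθmd
      Qlt := hI.Qlt, Plt := hI.Plt, QQ := hI.QQ, QP := hI.QP, Qc := hI.Qc, Pc := hI.Pc
      FQ := hI.FQ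
      cutG := cutG_of hI.cutG
      cutP := cutP_of hI.cutP
      bip := hB.bip
      deg := fun v => by
        rw [← dg_nb]
        exact hB.deg v
      crd := by
        intro v
        have h1 := hB.dgp v (pt v)
        have h2 : dg (crs G sd pt) v univ = (nb G v ∩ prt pt (pt v)).card := by
          unfold dg nb prt crs
          congr 1
          ext w
          simp only [mem_filter, mem_inter, mem_univ, true_and]
          constructor
          · rintro ⟨h3, _, h5⟩
            exact ⟨h3, h5.symm⟩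
          · rintro ⟨h3, h4⟩
            exact ⟨h3, hB.bip v w h3, h4.symm⟩
        rw [h2]
        exact h1.trans hθmd
      eqs := hB.eqs
      prl := prl_of hB.eqs hB.siz (by
        have : 10 ≤ d := by exact_mod_cast hd10
        omega)
      Al := by
        intro b hb
        have h0 : b ∈ range (d + 2) := by
          rcases mem_union.1 hb with h | h
          · rcases mem_union.1 h with h | h
            · exact hI.Plt h
            · exact hI.Qlt _ h
          · exact hI.Qlt _ h
        have h1 : b ∉ PP d Q P2 := by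
          intro h
          have := hPPn b h
          simp only [mem_union] at hb
          tauto
        have h2 := hB.gA b (mem_range.1 h0) (fun h => h1 (hB.SP h))
        have h3 : us A' b = us A b \ o := by
          ext v
          simp only [us, mem_filter, mem_univ, true_and, mem_sdiff]
          by_cases hv : v ∈ o
          · rw [hA' v, if_pos hv]
            simp [hv]
          · rw [hA'n v hv]
            simp [hv]
        rw [h3]
        exact h2.trans hθmd
      Tx := fun v => (hB.Tx v).trans hθmd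
      sgQ := by
        intro i b hb
        exact hI.sgQ i b (by rw [union_comm]; exact hb)
      sms := by
        intro i
        have h1 := hI.sm2 i
        have h2 := hI.smQ i
        have h3 : Disjoint P2 (Q (!i)) := (hI.QP _).symm
        rw [sum_union h3]
        push_cast at h1 h2 ⊢
        refine (abs_add_le _ _).trans ?_
        have h4 : 2 * (θ * (d : ℝ)) ≤ θm * d := by
          have : 2 * θ ≤ θm := by linarith
          have := mul_le_mul_of_nonneg_right this hd0.le
          linarith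
        linarith
      WF := hW.WF
      Wc := by
        intro b hb
        refine le_trans ?_ hd2
        exact_mod_cast hW.Wc b hb
      bal := by
        intro b hb
        have h1 : (univ.filter fun v => b ∈ F v ∨ v ∈ W b) = us F b ∪ W b := by
          ext v
          simp only [us, mem_filter, mem_univ, true_and, mem_union]
        rw [h1]
        exact hW.bal b hb
      one := hW.one
      WG := fun b hb v hv w hw hvb hwb => hW.TG b hb v hvb w hwb hv hw
      TPW := hW.TPW
      TP := hW.TP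
      sgn := hW.sgn
      qua := hW.qua
      N0a := by
        intro v w h
        have h1 := hW.N0a v w h
        exact ⟨⟨h1.1, hB.bip v w h1.1, h1.2.1⟩, h1.2.2⟩
      N0m := hW.N0m
      N0p := hW.N0p
      c0Q := fun v => ⟨hcQ v, (hc1 v).2⟩
      c0T := hc2
      c0G := by
        intro v w hvw
        by_cases hp : pt v = pt w
        · have hs := hB.bip v w hvw
          intro he
          cases h1 : sd v <;> cases h2 : sd w
          · exact hs (h1.trans h2.symm)
          · have h3 := (hcX v h1).2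
            rw [he, hp] at h3
            exact h3 (hcY w h2)
          · have h3 := (hcX w h2).2
            rw [← he, ← hp] at h3
            exact h3 (hcY v h1)
          · exact hs (h1.trans h2.symm)
        · exact hQQ' v w hp
      c0o := fun v hv => (mem_filter.1 (hQY1 _ (hcY v hv))).2
      c0c := hc3 }
  obtain ⟨c, t, hPEF, hr1, hr2, hr3, hr4, hr5⟩ := hL3 V G Th N0 d sd pt Q P2 F A' W T1 Pf c1
    (by omega) hmi
  have hmix : ∀ v w, v ∈ T1 → w ∉ T1 → c v ≠ c w := by
    intro v w hv hw he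
    have h1 := hPPn _ (hr1 v hv).1
    have h2 := (hr2 w hw).1
    rw [← he] at h2
    simp only [mem_union] at h2
    tauto
  refine ⟨c, t, ⟨?_, ?_, ?_, ?_, ?_, ?_⟩, hPEF⟩
  · intro v
    by_cases hv : v ∈ T1
    · exact mem_range.1 (mem_sdiff.1 (hr1 v hv).1).1
    · rcases mem_union.1 (hr2 v hv).1 with h | h
      · rcases mem_union.1 h with h | h
        · exact mem_range.1 (hI.Plt h)
        · exact mem_range.1 (hI.Qlt _ h)
      · exact mem_range.1 (hI.Qlt _ h)
  · intro v hvo
    by_cases hv : v ∈ T1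
    · exact hW.TA _ (hr1 v hv).1 v (hr1 v hv).2 hv hvo
    · rw [← hA'n v hvo]
      exact (hr2 v hv).2
  · intro v hvo
    exact hW.one _ (hr1 v (hW.oT1 hvo)).1 _ (hW.oW v hvo).1 v (hr1 v (hW.oT1 hvo)).2
      (hW.oW v hvo).2
  · intro v w hvw
    by_cases hv : v ∈ T1
    · by_cases hw : w ∈ T1
      · intro he
        have h1 := (hr1 w hw).2
        rw [← he] at h1
        exact hW.TG _ (hr1 v hv).1 v (hr1 v hv).2 w h1 hv hw hvw
      · exact hmix v w hv hw
    · by_cases hw : w ∈ T1
      · exact fun he => hmix w v hw hv he.symm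
      · exact hr3 v w hv hw hvw
  · intro v w hvw
    by_cases hv : v ∈ T1
    · by_cases hw : w ∈ T1
      · intro he
        have h1 := (hr1 w hw).2
        rw [← he] at h1
        exact hW.TT _ (hr1 v hv).1 v (hr1 v hv).2 w h1 hv hw hvw
      · exact hmix v w hv hw
    · by_cases hw : w ∈ T1
      · exact fun he => hmix w v hw hv he.symm
      · exact hr4 v w hv hw hvw
  · intro b
    by_cases hb : b ∈ PP d Q P2
    · have h1 : (univ.filter fun v => c v = b) ⊆ W b := by
        intro v hv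
        rw [mem_filter] at hv
        by_cases hv1 : v ∈ T1
        · rw [← hv.2]
          exact (hr1 v hv1).2
        · exfalso
          have h1 := hPPn _ hb
          have h2 := (hr2 v hv1).1
          rw [hv.2] at h2
          simp only [mem_union] at h2
          tauto
      have h2 := (card_le_card h1).trans (hW.Wc b hb)
      omega
    · have h1 : (univ.filter fun v => c v = b) ⊆ univ.filter fun v => v ∉ T1 ∧ c v = b := by
        intro v hv
        rw [mem_filter] at hv ⊢
        refine ⟨hv.1, ?_, hv.2⟩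
        intro hv1
        apply hb
        rw [← hv.2]
        exact (hr1 v hv1).1
      have h2 := (card_le_card h1).trans (hr5 b)
      omega

end Pool.Agent.Work.MP_db9399_da_helper72
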