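import Pool.Agent.Work.MP_db9399_da_helper72.LOCB2U
import Pool.Agent.Work.MP_db9399_da_helper71.MIS1B

/-!
# LOCB2 without hypotheses (helper72, MIS1B by helper71)
-/

set_option autoImplicit false

namespace Pool.Agent.Work.MP_db9399_da_helper72

universe u

theorem stmt_LOCB2' : Pool.Agent.Work.MP_db9399_da.Stmt_LOCB2.{u} :=
  stmt_LOCB2 MP_db9399_da_helper71.stmt_MIS1B

end Pool.Agent.Work.MP_db9399_da_helper72
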