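import Pool.Agent.Work.MP_db9399_da_helper72.LOCBU
import Pool.Agent.Work.MP_db9399_da_helper72.LOCB2

/-!
# LOCB2 from MIS1B alone (helper72)
-/

set_option autoImplicit false

namespace Pool.Agent.Work.MP_db9399_da_helper72

universe u

theorem stmt_LOCB2 (hM1 : Stmt_MIS1B.{u}) : Pool.Agent.Work.MP_db9399_da.Stmt_LOCB2.{u} :=
  locb2 hM1 MP_db9399_da_helper93.stmt_OWC locm

end Pool.Agent.Work.MP_db9399_da_helper72
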