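import Pool.Agent.Work.MP_db9399_da_helper72.Stm3

/-!
# Label classes (helper72)
-/

set_option autoImplicit false

namespace Pool.Agent.Work.MP_db9399_da_helper72

open Finset Classical

universe u

variable {V : Type u}

/-- edges with labels in `S` -/
def labG (G : SimpleGraph V) {K : ℕ} (lab : Sym2 V → Fin K) (S : Finset (Fin K)) :
    SimpleGraph V where
  Adj v w := G.Adj v w ∧ lab s(v, w) ∈ S
  symm := ⟨fun v w h => ⟨h.1.symm, by rw [Sym2.eq_swap]; exact h.2⟩⟩
  loopless := ⟨fun v h => G.loopless.irrefl v h.1⟩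

/-- remove the edges of `N` -/
def rem (G N : SimpleGraph V) : SimpleGraph V where
  Adj v w := G.Adj v w ∧ ¬ N.Adj v w
  symm := ⟨fun v w h => ⟨h.1.symm, fun hh => h.2 hh.symm⟩⟩
  loopless := ⟨fun v h => G.loopless.irrefl v h.1⟩

variable [Fintype V]

theorem ee_labG (G : SimpleGraph V) {K : ℕ} (lab : Sym2 V → Fin K) (S : Finset (Fin K))
    (A B : Finset V) : (ee (labG G lab S) A B : ℝ) =
      ∑ c ∈ S, (((A ×ˢ B).filter fun p => G.Adj p.1 p.2 ∧ lab s(p.1, p.2) = c).card : ℝ) := by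
  have h : ee (labG G lab S) A B =
      ∑ c ∈ S, ((A ×ˢ B).filter fun p => G.Adj p.1 p.2 ∧ lab s(p.1, p.2) = c).card := by
    unfold ee
    rw [← card_biUnion]
    · congr 1
      ext p
      simp only [mem_filter, mem_biUnion, labG]
      constructor
      · rintro ⟨h1, h2, h3⟩
        exact ⟨_, h3, h1, h2, rfl⟩
      · rintro ⟨c, h1, h2, h3, rfl⟩
        exact ⟨h2, h3, h1⟩
    · intro c _ c' _ hcc
      rw [Function.onFun, disjoint_left]
      intro p hp hp'
      rw [mem_filter] at hp hp'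
      exact hcc (hp.2.2.symm.trans hp'.2.2)
  rw [h]
  push_cast
  rfl

theorem dg_labG (G : SimpleGraph V) {K : ℕ} (lab : Sym2 V → Fin K) (S : Finset (Fin K))
    (v : V) (Z : Finset V) : (dg (labG G lab S) v Z : ℝ) =
      ∑ c ∈ S, ((Z.filter fun w => G.Adj v w ∧ lab s(v, w) = c).card : ℝ) := by
  have h : dg (labG G lab S) v Z =
      ∑ c ∈ S, (Z.filter fun w => G.Adj v w ∧ lab s(v, w) = c).card := by
    unfold dg
    rw [← card_biUnion]
    · congr 1
      ext p
      simp only [mem_filter, mem_biUnion, labG]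
      constructor
      · rintro ⟨h1, h2, h3⟩
        exact ⟨_, h3, h1, h2, rfl⟩
      · rintro ⟨c, h1, h2, h3, rfl⟩
        exact ⟨h2, h3, h1⟩
    · intro c _ c' _ hcc
      rw [Function.onFun, disjoint_left]
      intro p hp hp'
      rw [mem_filter] at hp hp'
      exact hcc (hp.2.2.symm.trans hp'.2.2)
  rw [h]
  push_cast
  rfl

theorem sum_near {K : ℕ} (hK : 0 < K) (S : Finset (Fin K)) (x : Fin K → ℝ) (y e : ℝ) (he : 0 ≤ e)
    (h : ∀ c, |(K : ℝ) * x c - y| ≤ e) : |(∑ c ∈ S, x c) - (S.card : ℝ) / K * y| ≤ e := by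
  have hK' : (0 : ℝ) < K := by exact_mod_cast hK
  have h1 : (K : ℝ) * ((∑ c ∈ S, x c) - (S.card : ℝ) / K * y) = ∑ c ∈ S, ((K : ℝ) * x c - y) := by
    rw [sum_sub_distrib, sum_const, nsmul_eq_mul, ← mul_sum]
    field_simp
  have h2 : |∑ c ∈ S, ((K : ℝ) * x c - y)| ≤ K * e := by
    refine (abs_sum_le_sum_abs _ _).trans ?_
    refine (sum_le_sum fun c _ => h c).trans ?_
    rw [sum_const, nsmul_eq_mul]
    refine mul_le_mul_of_nonneg_right ?_ he
    have : S.card ≤ K := by
      have := card_le_univ S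
      rwa [Fintype.card_fin] at this
    exact_mod_cast this
  rw [← h1, abs_mul, abs_of_pos hK'] at h2
  exact le_of_mul_le_mul_left h2 hK'

theorem ee_crs (G : SimpleGraph V) (sd pt : V → Bool) (A B : Finset V) :
    (ee (crs G sd pt) A B : ℝ) =
      ∑ β : Bool, ∑ i : Bool, (ee G (A ∩ qt sd pt β i) (B ∩ qt sd pt (!β) i) : ℝ) := by
  have h : ee (crs G sd pt) A B =
      ∑ p : Bool × Bool, ee G (A ∩ qt sd pt p.1 p.2) (B ∩ qt sd pt (!p.1) p.2) := by
    unfold ee
    rw [← card_biUnion]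
    · congr 1
      ext p
      simp only [mem_filter, mem_biUnion, mem_univ, true_and, mem_product, mem_inter, qt, crs]
      constructor
      · rintro ⟨⟨h1, h2⟩, h3, h4, h5⟩
        refine ⟨(sd p.1, pt p.1), ⟨⟨h1, rfl, rfl⟩, h2, ?_, h5.symm⟩, h3⟩
        cases h6 : sd p.1 <;> cases h7 : sd p.2 <;> simp_all
      · rintro ⟨q, ⟨⟨h1, h2, h3⟩, h4, h5, h6⟩, h7⟩
        refine ⟨⟨h1, h4⟩, h7, ?_, by rw [h3, h6]⟩
        rw [h2, h5]
        cases q.1 <;> simp
    · intro c _ c' _ hcc
      rw [Function.onFun, disjoint_left]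
      intro p hp hp'
      simp only [mem_filter, mem_product, mem_inter, qt, mem_univ, true_and] at hp hp'
      apply hcc
      exact Prod.ext (hp.1.1.2.1.symm.trans hp'.1.1.2.1) (hp.1.1.2.2.symm.trans hp'.1.1.2.2)
  rw [h, Fintype.sum_prod_type]
  push_cast
  rfl

theorem dg_crs (G : SimpleGraph V) (sd pt : V → Bool) (v : V) (Z : Finset V) :
    dg (crs G sd pt) v Z = dg G v (Z ∩ qt sd pt (!(sd v)) (pt v)) := by
  unfold dg
  congr 1
  ext w
  simp only [mem_filter, mem_inter, qt, mem_univ, true_and, crs]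
  constructor
  · rintro ⟨h1, h2, h3, h4⟩
    refine ⟨⟨h1, ?_, h4.symm⟩, h2⟩
    cases h6 : sd v <;> cases h7 : sd w <;> simp_all
  · rintro ⟨⟨h1, h2, h3⟩, h4⟩
    refine ⟨h1, h4, ?_, h3.symm⟩
    rw [h2]
    cases sd v <;> simp

theorem ee_rem (G N : SimpleGraph V) (hN : ∀ v, dg N v univ ≤ 1) (A B : Finset V) :
    ee (rem G N) A B ≤ ee G A B ∧ ee G A B ≤ ee (rem G N) A B + Fintype.card V := by
  constructor
  · refine card_le_card fun p hp => ?_
    rw [mem_filter] at hp ⊢
    exact ⟨hp.1, hp.2.1⟩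
  · have h1 : ((A ×ˢ B).filter fun p => N.Adj p.1 p.2).card ≤ Fintype.card V := by
      have h2 : ((A ×ˢ B).filter fun p => N.Adj p.1 p.2) ⊆
          (univ : Finset V).biUnion fun v => (univ.filter fun w => N.Adj v w).image fun w => (v, w) := by
        intro p hp
        rw [mem_filter] at hp
        rw [mem_biUnion]
        exact ⟨p.1, mem_univ _, mem_image.2 ⟨p.2, mem_filter.2 ⟨mem_univ _, hp.2⟩, rfl⟩⟩
      refine (card_le_card h2).trans (card_biUnion_le.trans ?_)
      refine (sum_le_sum fun v _ => card_image_le.trans (hN v)).trans ?_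
      rw [sum_const, smul_eq_mul, mul_one, card_univ]
    unfold ee
    refine le_trans ?_ (Nat.add_le_add_left h1 _)
    rw [← card_union_of_disjoint]
    · refine card_le_card fun p hp => ?_
      rw [mem_filter] at hp
      by_cases h : N.Adj p.1 p.2
      · exact mem_union_right _ (mem_filter.2 ⟨hp.1, h⟩)
      · exact mem_union_left _ (mem_filter.2 ⟨hp.1, hp.2, h⟩)
    · rw [disjoint_left]
      intro p hp hp'
      rw [mem_filter] at hp hp'
      exact hp.2.2 hp'.2

theorem dg_rem (G N : SimpleGraph V) (hN : ∀ v, dg N v univ ≤ 1) (v : V) (Z : Finset V) :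
    dg (rem G N) v Z ≤ dg G v Z ∧ dg G v Z ≤ dg (rem G N) v Z + 1 := by
  constructor
  · refine card_le_card fun p hp => ?_
    rw [mem_filter] at hp ⊢
    exact ⟨hp.1, hp.2.1⟩
  · unfold dg
    refine le_trans ?_ (Nat.add_le_add_left (hN v) _)
    unfold dg
    refine le_trans ?_ (card_union_le _ _)
    refine card_le_card fun p hp => ?_
    rw [mem_filter] at hp
    by_cases h : N.Adj v p
    · exact mem_union_right _ (mem_filter.2 ⟨mem_univ _, h⟩)
    · exact mem_union_left _ (mem_filter.2 ⟨hp.1, hp.2, h⟩)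

end Pool.Agent.Work.MP_db9399_da_helper72
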