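import Pool.Agent.Work.MP_db9399_da_helper72.Stm5
import Pool.Agent.Work.MP_db9399_dn.Interface

/-!
# The middle theorem of LOCB (helper72): definitions and small lemmas

Phase 2 (members with prescribed own colour) reduces to the same middle theorem: such a vertex is a
`T1`-vertex.
-/

set_option autoImplicit false

namespace Pool.Agent.Work.MP_db9399_da_helper72

open Finset Classical
open Pool.Agent.Work.MP_db9399_all (nb)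
open Pool.Agent.Work.MP_db9399_lt (us)
open Pool.Agent.Work.MP_db9399_da

universe u

section defs
variable {V : Type u} [Fintype V]

/-- Input of the middle theorem. `F` small lists with `dg G v + |F v| = d` for all `v`, `W b`: the vertices
missed in the round `b ∈ P1`, `T1 ∪ Pf` their union (`T1`: type T, the missed colour is the own colour;
`Pf`: type P, with partners `N0` in `T1`), `c0`: own colours in `Q (pt v)`. -/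
structure MI (G Th N0 : SimpleGraph V) (d K M0 : ℕ) (C ρ π κ θ : ℝ) (sd pt : V → Bool)
    (Q : Bool → Finset ℕ) (P2 : Finset ℕ) (F A : V → Finset ℕ) (W : ℕ → Finset V)
    (T1 Pf : Finset V) (c0 : V → ℕ) : Prop where
  VC : (Fintype.card V : ℝ) ≤ C * d
  Vl : d + 2 ≤ Fintype.card V
  Flt : ∀ v, F v ⊆ range (d + 2)
  Fx : ∀ v, ((F v).card : ℝ) ≤ θ * d
  load : ∀ b, ((univ.filter fun v => b ∈ F v).card : ℝ) ≤ θ * d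
  Qlt : ∀ i, Q i ⊆ range (d + 2)
  Plt : P2 ⊆ range (d + 2)
  QQ : Disjoint (Q false) (Q true)
  QP : ∀ i, Disjoint (Q i) P2
  Qc : ∀ i, κ * d ≤ ((Q i).card : ℝ) ∧ ((Q i).card : ℝ) ≤ 2 * κ * d
  Pc : π * d ≤ (P2.card : ℝ) ∧ (P2.card : ℝ) ≤ 2 * π * d
  FQ : ∀ v, Disjoint (F v) (Q (pt v))
  cutG : ∀ S : Finset V, ρ * S.card * (Sᶜ.card : ℝ) ≤ (ee G S Sᶜ : ℝ)
  cutP : ∀ i, ∀ S ⊆ pr pt i, ρ * S.card * ((pr pt i \ S).card : ℝ) ≤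
    (ee (crs G sd pt) S (pr pt i \ S) : ℝ)
  bip : ∀ v w, G.Adj v w → sd v ≠ sd w
  deg : ∀ v, dg G v univ + (F v).card = d
  crd : ∀ v, |(dg (crs G sd pt) v univ : ℝ) - d / 2| ≤ θ * d
  eqs : ∀ i, (qt sd pt false i).card = (qt sd pt true i).card
  prl : ∀ i, Fintype.card V ≤ 4 * (pr pt i).card
  Al : ∀ b ∈ P2 ∪ Q false ∪ Q true, ((us A b).card : ℝ) ≤ θ * d
  Tx : ∀ v, ((nb Th v).card : ℝ) ≤ θ * d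
  sgQ : ∀ i, ∀ b ∈ P2 ∪ Q (!i), |sgp F sd pt i b| ≤ K
  sms : ∀ i, |((∑ b ∈ P2 ∪ Q (!i), sgp F sd pt i b : ℤ) : ℝ)| ≤ θ * d
  WF : ∀ b ∈ PP d Q P2, ∀ v ∈ W b, b ∉ F v
  Wc : ∀ b ∈ PP d Q P2, ((W b).card : ℝ) ≤ θ * d
  bal : ∀ b ∈ PP d Q P2,
    ((univ.filter fun v => sd v = false) \ univ.filter fun v => b ∈ F v ∨ v ∈ W b).card =
      ((univ.filter fun v => sd v = true) \ univ.filter fun v => b ∈ F v ∨ v ∈ W b).card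
  one : ∀ b ∈ PP d Q P2, ∀ b' ∈ PP d Q P2, ∀ v, v ∈ W b → v ∈ W b' → b = b'
  WG : ∀ b ∈ PP d Q P2, ∀ v ∈ T1, ∀ w ∈ T1, v ∈ W b → w ∈ W b → ¬ G.Adj v w
  TPW : ∀ v, (v ∈ T1 ∪ Pf ↔ ∃ b ∈ PP d Q P2, v ∈ W b)
  TP : Disjoint T1 Pf
  sgn : ∀ i, |((∑ v ∈ (T1 ∪ Pf).filter (fun v => pt v = i), sgv (sd v) : ℤ) : ℝ)| ≤ θ * d
  qua : ∀ β i, ((qtr sd pt β i ∩ (T1 ∪ Pf)).card : ℝ) ≤ (3 / 10 + θ) * d
  N0a : ∀ v w, N0.Adj v w → (crs G sd pt).Adj v w ∧ ((v ∈ Pf ∧ w ∈ T1) ∨ (w ∈ Pf ∧ v ∈ T1))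
  N0m : ∀ v, dg N0 v univ ≤ 1
  N0p : ∀ v ∈ Pf, ∃ w ∈ T1, N0.Adj v w
  c0Q : ∀ v, c0 v ∈ Q (pt v) ∧ c0 v ∉ A v
  c0T : ∀ v w, Th.Adj v w → c0 v ≠ c0 w
  c0G : ∀ v w, G.Adj v w → c0 v ≠ c0 w
  c0o : ∀ v, sd v = true → 0 ≤ sgp F sd pt (!(pt v)) (c0 v)
  c0c : ∀ b, (univ.filter fun v => c0 v = b).card ≤ M0

end defs

/-- the middle theorem -/
def Stmt_LOCM : Prop :=
  ∀ (C ρ : ℝ) (K : ℕ), 1 ≤ C → 0 < ρ → ∃ π0 : ℝ, 0 < π0 ∧ ∀ π : ℝ, 0 < π → π ≤ π0 →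
    ∃ κ0 : ℝ, 0 < κ0 ∧ ∀ κ : ℝ, 0 < κ → κ ≤ κ0 → ∀ M0 : ℕ, ∃ (θ : ℝ) (d0 : ℕ), 0 < θ ∧
    ∀ (V : Type u) [Fintype V] (G Th N0 : SimpleGraph V) (d : ℕ) (sd pt : V → Bool)
      (Q : Bool → Finset ℕ) (P2 : Finset ℕ) (F A : V → Finset ℕ) (W : ℕ → Finset V)
      (T1 Pf : Finset V) (c0 : V → ℕ), d0 ≤ d →
      MI G Th N0 d K M0 C ρ π κ θ sd pt Q P2 F A W T1 Pf c0 →
      ∃ (c : V → ℕ) (t : V → V → ℕ), PEF G d (fun v => insert (c v) (F v)) t ∧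
        (∀ v ∈ T1, c v ∈ PP d Q P2 ∧ v ∈ W (c v)) ∧
        (∀ v, v ∉ T1 → c v ∈ P2 ∪ Q false ∪ Q true ∧ c v ∉ A v) ∧
        (∀ v w, v ∉ T1 → w ∉ T1 → G.Adj v w → c v ≠ c w) ∧
        (∀ v w, v ∉ T1 → w ∉ T1 → Th.Adj v w → c v ≠ c w) ∧
        ∀ b, (univ.filter fun v => v ∉ T1 ∧ c v = b).card ≤ M0 + 2 * K + 4

section defs
variable {V : Type u} [Fintype V]

/-- Input of MIS2 with a number `K` (`|qq| ≤ K + 2`), otherwise as `M2I`. -/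
structure M2K (H Fr N0 Th : SimpleGraph V) (d M0 K : ℕ) (C κ δ : ℝ) (sd pt : V → Bool)
    (Q : Bool → Finset ℕ) (P2 : Finset ℕ) (F2 A : V → Finset ℕ) (c0 : V → ℕ)
    (T1 Pf : Finset V) : Prop where
  Hc : ∀ v w, H.Adj v w → sd v ≠ sd w ∧ pt v = pt w
  FrH : ∀ v w, Fr.Adj v w → H.Adj v w
  Hd : ∀ v, (1 / 2 - δ) * d ≤ (dg H v univ : ℝ)
  VC : (Fintype.card V : ℝ) ≤ C * d
  F2l : ∀ b ∈ P2 ∪ Q false ∪ Q true, ((us F2 b).card : ℝ) ≤ δ * d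
  Al : ∀ b ∈ P2 ∪ Q false ∪ Q true, ((us A b).card : ℝ) ≤ δ * d
  Tx : ∀ v, ((nb Th v).card : ℝ) ≤ δ * d
  c0c : ∀ b, (univ.filter fun v => c0 v = b).card ≤ M0
  qK : ∀ i, ∀ b ∈ P2 ∪ Q (!i), |qq F2 sd pt i b| ≤ (K : ℤ) + 2
  Pc : ∀ i, ((K : ℝ) + 2) * ((P2 ∪ Q i).card : ℝ) ≤ d / 50
  fre : ∀ A' B' : Finset V, κ * ee H A' B' ≤ (ee Fr A' B' : ℝ) + δ * (d : ℝ) ^ 2
  frd : ∀ v i, κ * dg H v (qtr sd pt true i \ (T1 ∪ Pf)) ≤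
    (dg Fr v (qtr sd pt true i \ (T1 ∪ Pf)) : ℝ) + δ * d
  qua : ∀ β i, ((qtr sd pt β i ∩ (T1 ∪ Pf)).card : ℝ) ≤ (3 / 10 + δ) * d
  sgn : ∀ i, |((∑ v ∈ (T1 ∪ Pf).filter (fun v => pt v = i), sgv (sd v) : ℤ) : ℝ)| ≤ δ * d
  hid : ∀ i, ∑ v ∈ (T1 ∪ Pf).filter (fun v => pt v = i), sgv (sd v) =
    - ∑ b ∈ P2 ∪ Q (!i), qq F2 sd pt i b
  TP : Disjoint T1 Pf
  N0a : ∀ v w, N0.Adj v w → H.Adj v w ∧ ((v ∈ Pf ∧ w ∈ T1) ∨ (w ∈ Pf ∧ v ∈ T1))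
  N0m : ∀ v, dg N0 v univ ≤ 1
  N0p : ∀ v ∈ Pf, ∃ w ∈ T1, N0.Adj v w

/-- Result of MIS2, with `(W2 b).card ≤ 2 K + 4`. -/
structure M2KO (Fr N0 N1 Th : SimpleGraph V) (K : ℕ) (sd pt : V → Bool) (Q : Bool → Finset ℕ)
    (P2 : Finset ℕ) (F2 A : V → Finset ℕ) (c0 : V → ℕ) (T1 Pf : Finset V) (W2 : ℕ → Finset V) :
    Prop where
  W : ∀ b, ∀ v ∈ W2 b, b ∈ P2 ∪ Q (!(pt v)) ∧ b ∉ F2 v ∧ v ∉ T1 ∧ v ∉ Pf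
  one : ∀ b b' v, v ∈ W2 b → v ∈ W2 b' → b = b'
  bal : ∀ i, ∀ b ∈ P2 ∪ Q (!i), (qtr sd pt false i \ (us F2 b ∪ W2 b)).card =
    (qtr sd pt true i \ (us F2 b ∪ W2 b)).card
  T : ∀ b, ∀ v ∈ W2 b, sd v = false → b ∉ A v ∧ 0 < qq F2 sd pt (pt v) b ∧
    ∀ w, Th.Adj v w → c0 w ≠ b ∧ ¬ (w ∈ W2 b ∧ sd w = false)
  c : ∀ b, (W2 b).card ≤ 2 * K + 4
  N1F : ∀ v w, N1.Adj v w → Fr.Adj v w
  N1m : ∀ v, dg (N0 ⊔ N1) v univ ≤ 1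
  N1p : ∀ b, ∀ v ∈ W2 b, sd v = true →
    ∃ w, N1.Adj v w ∧ sd w = false ∧ (w ∈ T1 ∨ ∃ b', w ∈ W2 b')

end defs

/-- MIS2 with a number `K`. -/
def Stmt_MIS2K : Prop :=
  ∀ (C κ : ℝ) (M0 K : ℕ), 1 ≤ C → 0 < κ → κ ≤ 1 / 100 → ∃ (δ : ℝ) (d0 : ℕ), 0 < δ ∧
    ∀ (V : Type u) [Fintype V] (H Fr N0 Th : SimpleGraph V) (d : ℕ) (sd pt : V → Bool)
      (Q : Bool → Finset ℕ) (P2 : Finset ℕ) (F2 A : V → Finset ℕ) (c0 : V → ℕ)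
      (T1 Pf : Finset V), d0 ≤ d → M2K H Fr N0 Th d M0 K C κ δ sd pt Q P2 F2 A c0 T1 Pf →
      ∃ (W2 : ℕ → Finset V) (N1 : SimpleGraph V),
        M2KO Fr N0 N1 Th K sd pt Q P2 F2 A c0 T1 Pf W2

end Pool.Agent.Work.MP_db9399_da_helper72
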