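import Pool.Agent.Work.MP_db9399_da_helper72.Mid

/-!
# Small lemmas for the middle theorem (helper72)
-/

set_option autoImplicit false

namespace Pool.Agent.Work.MP_db9399_da_helper72

open Finset Classical
open Pool.Agent.Work.MP_db9399_all (nb)
open Pool.Agent.Work.MP_db9399_lt (us)
open Pool.Agent.Work.MP_db9399_da

universe u

section
variable {V : Type u} [Fintype V]

theorem dg_nb (G : SimpleGraph V) (v : V) : (nb G v).card = dg G v univ := by
  unfold dg nb
  rfl

theorem SI.mono {G N0 : SimpleGraph V} {d D s : ℕ} {C σ π κ θ θ' : ℝ} {sd pt : V → Bool}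
    {Q : Bool → Finset ℕ} {P2 : Finset ℕ} {F : V → Finset ℕ} {W : ℕ → Finset V}
    (h : SI G N0 d D s C σ π κ θ sd pt Q P2 F W) (hθ : θ ≤ θ') :
    SI G N0 d D s C σ π κ θ' sd pt Q P2 F W := by
  have hd : θ * (d : ℝ) ≤ θ' * d := mul_le_mul_of_nonneg_right hθ (Nat.cast_nonneg _)
  exact
    { Dd := h.Dd, deg := h.deg, VC := h.VC, Vl := h.Vl
      Fx := fun v => (h.Fx v).trans hd
      load := fun b => (h.load b).trans hd
      Qlt := h.Qlt, Plt := h.Plt, QQ := h.QQ, QP := h.QP, Qc := h.Qc, Pc := h.Pc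
      crd := fun v => (h.crd v).trans hd
      N0c := h.N0c, N0m := h.N0m
      Wx := fun b hb => (h.Wx b hb).trans hd
      W1 := h.W1, sgs := h.sgs, sth := h.sth.trans hd }

theorem SO.mono {G N0 U Con2 : SimpleGraph V} {d : ℕ} {κ r2 lam lam' ι ι' : ℝ}
    {sd pt : V → Bool} {Q : Bool → Finset ℕ} {P2 : Finset ℕ} {F : V → Finset ℕ}
    {W : ℕ → Finset V} {Zs : Finset (Finset V)} {L : V → Finset ℕ} {t : V → V → ℕ}
    (h : SO G N0 U Con2 d κ r2 lam ι sd pt Q P2 F W Zs L t) (hl : lam ≤ lam') (hι : ι ≤ ι') :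
    SO G N0 U Con2 d κ r2 lam' ι' sd pt Q P2 F W Zs L t := by
  have h1 : lam * (d : ℝ) ≤ lam' * d := mul_le_mul_of_nonneg_right hl (Nat.cast_nonneg _)
  have h2 : ι * (Fintype.card V : ℝ) ^ 2 ≤ ι' * (Fintype.card V : ℝ) ^ 2 :=
    mul_le_mul_of_nonneg_right hι (by positivity)
  have h3 : ι * (Fintype.card V : ℝ) ≤ ι' * (Fintype.card V : ℝ) :=
    mul_le_mul_of_nonneg_right hι (by positivity)
  exact
    { Uc := h.Uc, N0U := h.N0U, CU := h.CU
      sam := fun A A' => (h.sam A A').trans h2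
      sad := fun v => (h.sad v).trans h3
      fre := fun A A' => (h.fre A A').trans (by linarith)
      frd := fun v Z hZ => (h.frd v Z hZ).trans (by linarith)
      col := h.col, LP := h.LP, LF := h.LF
      Lx := fun v => (h.Lx v).trans h1
      Ll := fun b hb => (h.Ll b hb).trans h1
      Ls := h.Ls }

/-- the last step: the colours of `R` are in `Q' v` -/
theorem pef_of_col {G R : SimpleGraph V} {d : ℕ} {B Q' F : V → Finset ℕ} {c : V → ℕ}
    {t t3 : V → V → ℕ} (h : Col G R B t) (hB : ∀ v, ∀ b ∈ B v, b < d + 2 ∧ b ∉ F v ∧ b ≠ c v)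
    (hQ : ∀ v, ∀ b ∈ Q' v, b < d + 2 ∧ b ∉ F v ∧ b ∉ B v) (hs : ∀ v w, t3 v w = t3 w v)
    (h3 : ∀ v w, R.Adj v w → t3 v w ∈ Q' v ∧ t3 v w ≠ c v)
    (h4 : ∀ v w w', R.Adj v w → R.Adj v w' → t3 v w = t3 v w' → w = w') :
    PEF G d (fun v => insert (c v) (F v)) (fun v w => if R.Adj v w then t3 v w else t v w) := by
  refine ⟨?_, ?_, ?_⟩
  · intro v w
    show (if R.Adj v w then t3 v w else t v w) = if R.Adj w v then t3 w v else t w v
    by_cases hR : R.Adj v w
    · rw [if_pos hR, if_pos hR.symm, hs]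
    · rw [if_neg hR, if_neg (fun hh => hR hh.symm), h.sym]
  · intro v w hG
    show (if R.Adj v w then t3 v w else t v w) < d + 2 ∧
      (if R.Adj v w then t3 v w else t v w) ∉ insert (c v) (F v)
    by_cases hR : R.Adj v w
    · rw [if_pos hR, mem_insert, not_or]
      have h5 := h3 v w hR
      have h6 := hQ v _ h5.1
      exact ⟨h6.1, h5.2, h6.2.1⟩
    · rw [if_neg hR, mem_insert, not_or]
      have h6 := hB v _ (h.col v w hG hR)
      exact ⟨h6.1, h6.2.2, h6.2.1⟩
  · intro v w hw w' hw' he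
    rw [mem_coe, nb, mem_filter] at hw hw'
    have hG := hw.2
    have hG' := hw'.2
    change (if R.Adj v w then t3 v w else t v w) = if R.Adj v w' then t3 v w' else t v w' at he
    by_cases hR : R.Adj v w
    · by_cases hR' : R.Adj v w'
      · rw [if_pos hR, if_pos hR'] at he
        exact h4 v w w' hR hR' he
      · rw [if_pos hR, if_neg hR'] at he
        have h5 := (hQ v _ (h3 v w hR).1).2.2
        rw [he] at h5
        exact absurd (h.col v w' hG' hR') h5
    · by_cases hR' : R.Adj v w'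
      · rw [if_neg hR, if_pos hR'] at he
        have h5 := (hQ v _ (h3 v w' hR').1).2.2
        rw [← he] at h5
        exact absurd (h.col v w hG hR) h5
      · rw [if_neg hR, if_neg hR'] at he
        exact h.inj v w w' hG hR hG' hR' he

/-- CRF in both parts -/
theorem crf2 (hCRF : Stmt_CRF.{u}) (R N : SimpleGraph V) (sd pt : V → Bool) (Q : Bool → Finset ℕ)
    (c : V → ℕ) (T P : Finset V) (hR : ∀ v w, R.Adj v w → sd v ≠ sd w ∧ pt v = pt w)
    (hTP : Disjoint T P) (hQ2 : ∀ i, 2 ≤ (Q i).card)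
    (h1 : ∀ v, v ∉ T → v ∉ P → dg R v univ + 2 ≤ (Q (pt v)).card)
    (h2 : ∀ v, dg R v univ + 1 ≤ (Q (pt v)).card)
    (hcT : ∀ v ∈ T, c v ∉ Q (pt v)) (hcR : ∀ v w, R.Adj v w → c v ≠ c w)
    (hN : ∀ v w, N.Adj v w → R.Adj v w) (hNm : ∀ v, dg N v univ ≤ 1)
    (hNp : ∀ v ∈ P, ∃ w ∈ T, N.Adj v w) :
    ∃ t : V → V → ℕ, (∀ v w, t v w = t w v) ∧
      (∀ v w, R.Adj v w → t v w ∈ Q (pt v) ∧ t v w ≠ c v) ∧
      ∀ v w w', R.Adj v w → R.Adj v w' → t v w = t v w' → w = w' := by
  -- restriction to a part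
  have key : ∀ i : Bool, ∃ t : V → V → ℕ, (∀ v w, t v w = t w v) ∧
      (∀ v w, pt v = i → R.Adj v w → t v w ∈ Q i ∧ t v w ≠ c v) ∧
      ∀ v w w', pt v = i → R.Adj v w → R.Adj v w' → t v w = t v w' → w = w' := by
    intro i
    obtain ⟨Ri, hRi⟩ : ∃ Ri : SimpleGraph V, ∀ v w, Ri.Adj v w ↔ R.Adj v w ∧ pt v = i := ⟨
      { Adj := fun v w => R.Adj v w ∧ pt v = i
        symm := ⟨fun v w h => ⟨h.1.symm, by rw [← (hR v w h.1).2]; exact h.2⟩⟩
        loopless := ⟨fun v h => R.loopless.irrefl v h.1⟩ }, fun v w => Iff.rfl⟩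
    obtain ⟨Ni, hNi⟩ : ∃ Ni : SimpleGraph V, ∀ v w, Ni.Adj v w ↔ N.Adj v w ∧ pt v = i := ⟨
      { Adj := fun v w => N.Adj v w ∧ pt v = i
        symm := ⟨fun v w h => ⟨h.1.symm, by rw [← (hR v w (hN v w h.1)).2]; exact h.2⟩⟩
        loopless := ⟨fun v h => N.loopless.irrefl v h.1⟩ }, fun v w => Iff.rfl⟩
    have hdg : ∀ v, pt v = i → (nb Ri v).card = dg R v univ := by
      intro v hv
      rw [dg_nb]
      unfold dg
      congr 1
      ext w
      simp only [mem_filter, mem_univ, true_and, hRi]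
      exact ⟨fun h => h.1, fun h => ⟨h, hv⟩⟩
    have hdg0 : ∀ v, pt v ≠ i → (nb Ri v).card = 0 := by
      intro v hv
      rw [card_eq_zero]
      ext w
      simp only [nb, mem_filter, mem_univ, true_and, hRi, notMem_empty, iff_false]
      exact fun h => hv h.2
    obtain ⟨t, ht1, ht2, ht3⟩ := hCRF Ri Ni sd (Q i) c (T.filter fun v => pt v = i)
      (P.filter fun v => pt v = i) (fun v w h => (hR v w ((hRi v w).1 h).1).1)
      (disjoint_filter_filter hTP)
      (by
        intro v h3 h4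
        by_cases hv : pt v = i
        · rw [hdg v hv, ← hv]
          refine h1 v ?_ ?_
          · intro h5
            exact h3 (mem_filter.2 ⟨h5, hv⟩)
          · intro h5
            exact h4 (mem_filter.2 ⟨h5, hv⟩)
        · rw [hdg0 v hv]
          have := hQ2 i
          omega)
      (by
        intro v hv
        have hv' : pt v = i := by
          rcases mem_union.1 hv with h | h
          · exact (mem_filter.1 h).2
          · exact (mem_filter.1 h).2
        rw [hdg v hv', ← hv']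
        exact h2 v)
      (by
        intro v hv
        rw [mem_filter] at hv
        rw [← hv.2]
        exact hcT v hv.1)
      (fun v w h => hcR v w ((hRi v w).1 h).1)
      (by
        intro v w h
        have h5 := (hNi v w).1 h
        exact (hRi v w).2 ⟨hN v w h5.1, h5.2⟩)
      (by
        intro v
        rw [dg_nb]
        refine le_trans ?_ (hNm v)
        refine card_le_card fun w hw => ?_
        rw [mem_filter] at hw ⊢
        exact ⟨hw.1, ((hNi v w).1 hw.2).1⟩)
      (by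
        intro v hv
        rw [mem_filter] at hv
        obtain ⟨w, hw, hvw⟩ := hNp v hv.1
        have h5 := (hR v w (hN v w hvw)).2
        exact ⟨w, mem_filter.2 ⟨hw, by rw [← h5]; exact hv.2⟩, (hNi v w).2 ⟨hvw, hv.2⟩⟩)
    refine ⟨t, ht1, ?_, ?_⟩
    · intro v w hv hvw
      exact ht2 v w ((hRi v w).2 ⟨hvw, hv⟩)
    · intro v w w' hv hvw hvw' he
      refine ht3 v ?_ ?_ he
      · rw [mem_coe, nb, mem_filter]
        exact ⟨mem_univ _, (hRi v w).2 ⟨hvw, hv⟩⟩
      · rw [mem_coe, nb, mem_filter]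
        exact ⟨mem_univ _, (hRi v w').2 ⟨hvw', hv⟩⟩
  choose t ht1 ht2 ht3 using key
  refine ⟨fun v w => if pt v = pt w then t (pt v) v w else 0, ?_, ?_, ?_⟩
  · intro v w
    beta_reduce
    by_cases h : pt v = pt w
    · rw [if_pos h, if_pos h.symm, h]
      exact ht1 _ _ _
    · rw [if_neg h, if_neg (fun hh => h hh.symm)]
  · intro v w hvw
    beta_reduce
    rw [if_pos (hR v w hvw).2]
    exact ht2 (pt v) v w rfl hvw
  · intro v w w' hvw hvw' he
    beta_reduce at he
    rw [if_pos (hR v w hvw).2, if_pos (hR v w' hvw').2] at he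
    exact ht3 (pt v) v w w' rfl hvw hvw' he

end

end Pool.Agent.Work.MP_db9399_da_helper72
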