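import Pool.Agent.Work.MP_db9399_da_helper72.MidA
import Pool.Agent.Work.MP_db9399_da_helper93.SGS

/-!
# The combinatorial end of the middle theorem (helper72)
-/

set_option autoImplicit false

namespace Pool.Agent.Work.MP_db9399_da_helper72

open Finset Classical
open Pool.Agent.Work.MP_db9399_all (nb)
open Pool.Agent.Work.MP_db9399_lt (us)
open Pool.Agent.Work.MP_db9399_da
open Pool.Agent.Work.MP_db9399_da_helper93 (SG dgU qq_sgp)

universe u

section
variable {V : Type u} [Fintype V]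

theorem locm_core (hCRF : Stmt_CRF.{u}) {G Th N0 : SimpleGraph V} {d K M0 : ℕ}
    {C ρ π κ θ : ℝ} {sd pt : V → Bool} {Q : Bool → Finset ℕ} {P2 : Finset ℕ}
    {F A : V → Finset ℕ} {W : ℕ → Finset V} {T1 Pf : Finset V} {c0 : V → ℕ}
    (hM : MI G Th N0 d K M0 C ρ π κ θ sd pt Q P2 F A W T1 Pf c0) (hQ2 : ∀ i, 2 ≤ (Q i).card)
    {U N1 R : SimpleGraph V} {L : V → Finset ℕ} {t t2 : V → V → ℕ} {W2 : ℕ → Finset V}
    (hUc : ∀ v w, U.Adj v w → (crs G sd pt).Adj v w)
    (hcol : Col G U (fun v => BB d Q P2 F W v ∪ L v) t)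
    (hLP : ∀ v, L v ⊆ P2) (hLF : ∀ v, Disjoint (L v) (F v))
    (hW : ∀ b, ∀ v ∈ W2 b, b ∈ P2 ∪ Q (!(pt v)) ∧ b ∉ F v ∧ b ∉ L v ∧ v ∉ T1 ∧ v ∉ Pf)
    (hone : ∀ b b' v, v ∈ W2 b → v ∈ W2 b' → b = b')
    (hT : ∀ b, ∀ v ∈ W2 b, sd v = false → b ∉ A v ∧
      0 < qq (fun v => F v ∪ L v) sd pt (pt v) b ∧
      ∀ w, Th.Adj v w → c0 w ≠ b ∧ ¬ (w ∈ W2 b ∧ sd w = false))
    (hWc : ∀ b, (W2 b).card ≤ 2 * K + 4) (hNm : ∀ v, dg (N0 ⊔ N1) v univ ≤ 1)
    (hN1p : ∀ b, ∀ v ∈ W2 b, sd v = true →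
      ∃ w, N1.Adj v w ∧ sd w = false ∧ (w ∈ T1 ∨ ∃ b', w ∈ W2 b'))
    (hNR : ∀ v w, (N0 ⊔ N1).Adj v w → R.Adj v w) (hcol2 : Col U R (B2 Q P2 F L pt W2) t2) :
    ∃ (c : V → ℕ) (t : V → V → ℕ), PEF G d (fun v => insert (c v) (F v)) t ∧
      (∀ v ∈ T1, c v ∈ PP d Q P2 ∧ v ∈ W (c v)) ∧
      (∀ v, v ∉ T1 → c v ∈ P2 ∪ Q false ∪ Q true ∧ c v ∉ A v) ∧
      (∀ v w, v ∉ T1 → w ∉ T1 → G.Adj v w → c v ≠ c w) ∧
      (∀ v w, v ∉ T1 → w ∉ T1 → Th.Adj v w → c v ≠ c w) ∧
      ∀ b, (univ.filter fun v => v ∉ T1 ∧ c v = b).card ≤ M0 + 2 * K + 4 := by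
  -- palettes
  have hPPn : ∀ b ∈ PP d Q P2, b ∉ P2 ∧ b ∉ Q false ∧ b ∉ Q true := by
    intro b hb
    have := (mem_sdiff.1 hb).2
    simp only [mem_union, not_or] at this
    exact ⟨this.2, this.1.1, this.1.2⟩
  have hPPQ : ∀ b ∈ PP d Q P2, ∀ i, b ∉ Q i := by
    intro b hb i
    cases i
    · exact (hPPn b hb).2.1
    · exact (hPPn b hb).2.2
  have hQQ' : ∀ i, ∀ b ∈ Q i, b ∉ Q (!i) := by
    intro i b hb
    cases i
    · exact disjoint_left.1 hM.QQ hb
    · exact disjoint_right.1 hM.QQ hb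
  have hQP' : ∀ i, ∀ b ∈ Q i, b ∉ P2 := fun i b hb => disjoint_left.1 (hM.QP i) hb
  -- own colours
  have hex : ∀ v, ∃ b, (v ∈ T1 → b ∈ PP d Q P2 ∧ v ∈ W b) ∧
      (v ∉ T1 → (sd v = false ∧ ∃ b', v ∈ W2 b') → v ∈ W2 b) ∧
      (v ∉ T1 → ¬ (sd v = false ∧ ∃ b', v ∈ W2 b') → b = c0 v) := by
    intro v
    by_cases h1 : v ∈ T1
    · obtain ⟨b, hb, hv⟩ := (hM.TPW v).1 (mem_union_left _ h1)
      exact ⟨b, fun _ => ⟨hb, hv⟩, fun h => absurd h1 h, fun h => absurd h1 h⟩
    · by_cases h2 : sd v = false ∧ ∃ b', v ∈ W2 b'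
      · obtain ⟨b, hb⟩ := h2.2
        exact ⟨b, fun h => absurd h h1, fun _ _ => hb, fun _ h => absurd h2 h⟩
      · exact ⟨c0 v, fun h => absurd h h1, fun _ h => absurd h h2, fun _ _ => rfl⟩
  choose c hc1 hc2 hc3 using hex
  have hcW : ∀ v b, v ∈ W2 b → sd v = false → c v = b := by
    intro v b hv hs
    exact hone _ _ v (hc2 v (hW b v hv).2.2.2.1 ⟨hs, b, hv⟩) hv
  have hcY : ∀ v, v ∉ T1 → sd v = true → c v = c0 v := by
    intro v hv hs
    refine hc3 v hv ?_
    rintro ⟨h, _⟩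
    rw [hs] at h
    exact absurd h (by simp)
  have hcases : ∀ v, v ∉ T1 → (sd v = false ∧ v ∈ W2 (c v)) ∨
      (c v = c0 v ∧ ¬ (sd v = false ∧ ∃ b', v ∈ W2 b')) := by
    intro v hv
    by_cases h2 : sd v = false ∧ ∃ b', v ∈ W2 b'
    · exact Or.inl ⟨h2.1, hc2 v hv h2⟩
    · exact Or.inr ⟨hc3 v hv h2, h2⟩
  have hQsub : ∀ i, ∀ b ∈ Q i, b ∈ P2 ∪ Q false ∪ Q true := by
    intro i b hb
    cases i
    · exact mem_union_left _ (mem_union_right _ hb)
    · exact mem_union_right _ hb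
  have hcn : ∀ v, v ∉ T1 → c v ∈ P2 ∪ Q false ∪ Q true ∧ c v ∉ A v := by
    intro v hv
    rcases hcases v hv with ⟨h1, h2⟩ | ⟨h1, _⟩
    · refine ⟨?_, (hT _ v h2 h1).1⟩
      rcases mem_union.1 (hW _ v h2).1 with h3 | h3
      · exact mem_union_left _ (mem_union_left _ h3)
      · exact hQsub _ _ h3
    · rw [h1]
      exact ⟨hQsub _ _ (hM.c0Q v).1, (hM.c0Q v).2⟩
  -- proper on G
  have hpG0 : ∀ v w, v ∉ T1 → w ∉ T1 → sd v = false → sd w = true → G.Adj v w → c v ≠ c w := by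
    intro v w hv hw hsv hsw hvw he
    rw [hcY w hw hsw] at he
    rcases hcases v hv with ⟨_, h2⟩ | ⟨h1, _⟩
    · have h3 := (hW _ v h2).1
      have h4 := (hM.c0Q w).1
      have h5 := (hT _ v h2 hsv).2.1
      have h6 := hM.c0o w hsw
      rw [he] at h3 h5
      rcases mem_union.1 h3 with h3 | h3
      · exact hQP' _ _ h4 h3
      · have h7 : pt w = !(pt v) := by
          by_contra hne
          have : pt w = pt v := by
            cases h8 : pt w <;> cases h9 : pt v <;> simp_all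
          rw [this] at h4
          exact hQQ' _ _ h4 h3
        rw [qq_sgp _ hM.eqs] at h5
        have h8 : sgp (fun v => F v ∪ L v) sd pt (pt v) (c0 w) = sgp F sd pt (pt v) (c0 w) := by
          have : us (fun v => F v ∪ L v) (c0 w) = us F (c0 w) := by
            ext x
            simp only [us, mem_filter, mem_univ, true_and, mem_union]
            constructor
            · rintro (h | h)
              · exact h
              · exact absurd (hLP x h) (hQP' _ _ h4)
            · exact Or.inl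
          unfold sgp
          rw [this]
        rw [h8] at h5
        rw [h7, Bool.not_not] at h6
        omega
    · rw [h1] at he
      exact hM.c0G v w hvw he
  have hpG : ∀ v w, v ∉ T1 → w ∉ T1 → G.Adj v w → c v ≠ c w := by
    intro v w hv hw hvw
    have hs := hM.bip v w hvw
    cases h1 : sd v <;> cases h2 : sd w
    · exact absurd (h1.trans h2.symm) hs
    · exact hpG0 v w hv hw h1 h2 hvw
    · exact fun he => hpG0 w v hw hv h2 h1 hvw.symm he.symm
    · exact absurd (h1.trans h2.symm) hs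
  have hpT : ∀ v w, v ∉ T1 → w ∉ T1 → Th.Adj v w → c v ≠ c w := by
    intro v w hv hw hvw he
    rcases hcases v hv with ⟨h1, h2⟩ | ⟨h1, _⟩
    · rcases hcases w hw with ⟨h3, h4⟩ | ⟨h3, _⟩
      · rw [← he] at h4
        exact ((hT _ v h2 h1).2.2 w hvw).2 ⟨h4, h3⟩
      · exact ((hT _ v h2 h1).2.2 w hvw).1 (h3.symm.trans he.symm)
    · rcases hcases w hw with ⟨h3, h4⟩ | ⟨h3, _⟩
      · exact ((hT _ w h4 h3).2.2 v hvw.symm).1 (h1.symm.trans he)
      · exact hM.c0T v w hvw (h1.symm.trans (he.trans h3))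
  have hcount : ∀ b, (univ.filter fun v => v ∉ T1 ∧ c v = b).card ≤ M0 + 2 * K + 4 := by
    intro b
    have h1 : (univ.filter fun v => v ∉ T1 ∧ c v = b) ⊆ (univ.filter fun v => c0 v = b) ∪ W2 b := by
      intro v hv
      rw [mem_filter] at hv
      rcases hcases v hv.2.1 with ⟨_, h2⟩ | ⟨h2, _⟩
      · rw [hv.2.2] at h2
        exact mem_union_right _ h2
      · exact mem_union_left _ (mem_filter.2 ⟨mem_univ _, h2.symm.trans hv.2.2⟩)
    have h2 := (card_le_card h1).trans (card_union_le _ _)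
    have h3 := hM.c0c b
    have h4 := hWc b
    omega
  -- degrees of R
  have hSG : SG G d d sd pt Q P2 F W :=
    { deg := hM.deg, Flt := hM.Flt, FQ := hM.FQ, QQ := hM.QQ, QP := hM.QP, Qlt := hM.Qlt
      Plt := hM.Plt, eqs := hM.eqs, WF := hM.WF }
  have hdR : ∀ v, dg R v univ + 2 = (Q (pt v)).card +
      ((PP d Q P2).filter fun b => v ∈ W b).card +
      ((P2 ∪ Q (!(pt v))).filter fun b => v ∈ W2 b).card := by
    intro v
    have h1 := dgU hSG hcol hLP hLF v
    have h2 := hcol2.card v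
    have h3 : (P2 ∪ Q (!(pt v))).card = (B2 Q P2 F L pt W2 v).card +
        ((F v ∪ L v) ∩ (P2 ∪ Q (!(pt v)))).card +
        ((P2 ∪ Q (!(pt v))).filter fun b => v ∈ W2 b).card := by
      have e1 : P2 ∪ Q (!(pt v)) = (B2 Q P2 F L pt W2 v ∪ ((F v ∪ L v) ∩ (P2 ∪ Q (!(pt v))))) ∪
          ((P2 ∪ Q (!(pt v))).filter fun b => v ∈ W2 b) := by
        ext b
        simp only [B2, mem_union, mem_filter, mem_inter]
        tauto
      have d1 : Disjoint (B2 Q P2 F L pt W2 v) ((F v ∪ L v) ∩ (P2 ∪ Q (!(pt v)))) := by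
        rw [disjoint_left]
        intro b hb hb'
        rw [mem_inter, mem_union] at hb'
        have hb2 := (mem_filter.1 hb).2
        rcases hb'.1 with h | h
        · exact hb2.1 h
        · exact hb2.2.1 h
      have d2 : Disjoint (B2 Q P2 F L pt W2 v ∪ ((F v ∪ L v) ∩ (P2 ∪ Q (!(pt v)))))
          ((P2 ∪ Q (!(pt v))).filter fun b => v ∈ W2 b) := by
        rw [disjoint_left]
        intro b hb hb'
        have hv := (mem_filter.1 hb').2
        have hw := hW b v hv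
        rcases mem_union.1 hb with hb | hb
        · exact (mem_filter.1 hb).2.2.2 hv
        · rcases mem_union.1 (mem_inter.1 hb).1 with h | h
          · exact hw.2.1 h
          · exact hw.2.2.1 h
      conv_lhs => rw [e1]
      rw [card_union_of_disjoint d2, card_union_of_disjoint d1]
    omega
  have hm1 : ∀ v, ((PP d Q P2).filter fun b => v ∈ W b).card ≤ 1 := by
    intro v
    rw [card_le_one]
    intro a ha b hb
    rw [mem_filter] at ha hb
    exact hM.one a ha.1 b hb.1 v ha.2 hb.2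
  have hm2 : ∀ v, ((P2 ∪ Q (!(pt v))).filter fun b => v ∈ W2 b).card ≤ 1 := by
    intro v
    rw [card_le_one]
    intro a ha b hb
    rw [mem_filter] at ha hb
    exact hone a b v ha.2 hb.2
  have hm10 : ∀ v, v ∉ T1 → v ∉ Pf → ((PP d Q P2).filter fun b => v ∈ W b).card = 0 := by
    intro v h1 h2
    rw [card_eq_zero, filter_eq_empty_iff]
    intro b hb hv
    rcases mem_union.1 ((hM.TPW v).2 ⟨b, hb, hv⟩) with h | h
    · exact h1 h
    · exact h2 h
  have hm20 : ∀ v, (¬ ∃ b, v ∈ W2 b) → ((P2 ∪ Q (!(pt v))).filter fun b => v ∈ W2 b).card = 0 := by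
    intro v h1
    rw [card_eq_zero, filter_eq_empty_iff]
    intro b _ hv
    exact h1 ⟨b, hv⟩
  obtain ⟨T, hTdef⟩ : ∃ T : Finset V, T = T1 ∪ univ.filter fun v => sd v = false ∧ ∃ b, v ∈ W2 b :=
    ⟨_, rfl⟩
  obtain ⟨P, hPdef⟩ : ∃ P : Finset V, P = Pf ∪ univ.filter fun v => sd v = true ∧ ∃ b, v ∈ W2 b :=
    ⟨_, rfl⟩
  have hTm : ∀ v, v ∈ T ↔ v ∈ T1 ∨ (sd v = false ∧ ∃ b, v ∈ W2 b) := by
    intro v
    rw [hTdef, mem_union, mem_filter]
    simp
  have hPm : ∀ v, v ∈ P ↔ v ∈ Pf ∨ (sd v = true ∧ ∃ b, v ∈ W2 b) := by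
    intro v
    rw [hPdef, mem_union, mem_filter]
    simp
  have hRU : ∀ v w, R.Adj v w → G.Adj v w ∧ sd v ≠ sd w ∧ pt v = pt w := fun v w h =>
    hUc v w (hcol2.le v w h)
  -- c is proper on R
  have hcG : ∀ v w, G.Adj v w → c v ≠ c w := by
    intro v w hvw he
    by_cases h1 : v ∈ T1
    · have h3 := hc1 v h1
      by_cases h2 : w ∈ T1
      · have h4 := hc1 w h2
        rw [← he] at h4
        exact hM.WG _ h3.1 v h1 w h2 h3.2 h4.2 hvw
      · have h4 := (hcn w h2).1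
        rw [← he] at h4
        have h5 := hPPn _ h3.1
        simp only [mem_union] at h4
        tauto
    · by_cases h2 : w ∈ T1
      · have h3 := hc1 w h2
        have h4 := (hcn v h1).1
        rw [he] at h4
        have h5 := hPPn _ h3.1
        simp only [mem_union] at h4
        tauto
      · exact hpG v w h1 h2 hvw he
  obtain ⟨t3, ht1, ht2, ht3⟩ := crf2 hCRF R (N0 ⊔ N1) sd pt Q c T P (fun v w h => (hRU v w h).2)
    (by
      rw [disjoint_left]
      intro v h1 h2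
      rw [hTm] at h1
      rw [hPm] at h2
      rcases h1 with h1 | ⟨h1, b, hb⟩
      · rcases h2 with h2 | ⟨_, b, hb⟩
        · exact disjoint_left.1 hM.TP h1 h2
        · exact (hW b v hb).2.2.2.1 h1
      · rcases h2 with h2 | ⟨h2, _⟩
        · exact (hW b v hb).2.2.2.2 h2
        · rw [h1] at h2
          exact absurd h2 (by simp))
    hQ2
    (by
      intro v h1 h2
      rw [hTm, not_or] at h1
      rw [hPm, not_or] at h2
      have h3 : ¬ ∃ b, v ∈ W2 b := by
        intro h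
        cases h4 : sd v
        · exact h1.2 ⟨h4, h⟩
        · exact h2.2 ⟨h4, h⟩
      have h4 := hdR v
      rw [hm10 v h1.1 h2.1, hm20 v h3] at h4
      omega)
    (by
      intro v
      have h4 := hdR v
      have h5 := hm1 v
      have h6 := hm2 v
      by_cases h7 : ∃ b, v ∈ W2 b
      · obtain ⟨b, hb⟩ := h7
        have h8 := hm10 v (hW b v hb).2.2.2.1 (hW b v hb).2.2.2.2
        omega
      · have h8 := hm20 v h7
        omega)
    (by
      intro v hv
      rw [hTm] at hv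
      rcases hv with hv | ⟨hs, b, hb⟩
      · exact hPPQ _ (hc1 v hv).1 _
      · rw [hcW v b hb hs]
        intro h
        rcases mem_union.1 (hW b v hb).1 with h1 | h1
        · exact hQP' _ _ h h1
        · exact hQQ' _ _ h h1)
    (fun v w h => hcG v w (hRU v w h).1) hNR hNm
    (by
      intro v hv
      rw [hPm] at hv
      rcases hv with hv | ⟨hs, b, hb⟩
      · obtain ⟨w, hw, hvw⟩ := hM.N0p v hv
        exact ⟨w, (hTm w).2 (Or.inl hw), Or.inl hvw⟩
      · obtain ⟨w, hvw, hs', hw⟩ := hN1p b v hb hs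
        refine ⟨w, (hTm w).2 ?_, Or.inr hvw⟩
        rcases hw with hw | hw
        · exact Or.inl hw
        · exact Or.inr ⟨hs', hw⟩)
  have hcol3 := hcol.comp hcol2
    (by
      intro v
      rw [disjoint_left]
      intro b hb hb'
      have hb2 := mem_filter.1 hb'
      rcases mem_union.1 hb with hb | hb
      · have hb1 : b ∈ PP d Q P2 := (mem_filter.1 hb).1
        rcases mem_union.1 hb2.1 with h | h
        · exact (hPPn b hb1).1 h
        · exact hPPQ b hb1 _ h
      · exact hb2.2.2.1 hb)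
  refine ⟨c, _, pef_of_col (Q' := fun v => Q (pt v)) hcol3 ?_ ?_ ht1 ht2 ht3, hc1, hcn, hpG, hpT,
    hcount⟩
  · intro v b hb
    rcases mem_union.1 hb with hb | hb
    · rcases mem_union.1 hb with hb | hb
      · have hb1 : b ∈ PP d Q P2 := (mem_filter.1 hb).1
        have hb2 := (mem_filter.1 hb).2
        refine ⟨mem_range.1 (mem_sdiff.1 hb1).1, hb2.1, ?_⟩
        rintro rfl
        by_cases h1 : v ∈ T1
        · exact hb2.2 (hc1 v h1).2
        · have h4 := (hcn v h1).1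
          have h5 := hPPn _ hb1
          simp only [mem_union] at h4
          tauto
      · refine ⟨mem_range.1 (hM.Plt (hLP v hb)), disjoint_left.1 (hLF v) hb, ?_⟩
        rintro rfl
        by_cases h1 : v ∈ T1
        · exact (hPPn _ (hc1 v h1).1).1 (hLP v hb)
        · rcases hcases v h1 with ⟨_, h3⟩ | ⟨h3, _⟩
          · exact (hW _ v h3).2.2.1 hb
          · rw [h3] at hb
            exact hQP' _ _ (hM.c0Q v).1 (hLP v hb)
    · have hb1 := (mem_filter.1 hb).1
      have hb2 := (mem_filter.1 hb).2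
      have hlt : b < d + 2 := by
        rcases mem_union.1 hb1 with h | h
        · exact mem_range.1 (hM.Plt h)
        · exact mem_range.1 (hM.Qlt _ h)
      refine ⟨hlt, hb2.1, ?_⟩
      rintro rfl
      by_cases h1 : v ∈ T1
      · have h3 := hPPn _ (hc1 v h1).1
        rcases mem_union.1 hb1 with h | h
        · exact h3.1 h
        · exact hPPQ _ (hc1 v h1).1 _ h
      · rcases hcases v h1 with ⟨_, h3⟩ | ⟨h3, _⟩
        · exact hb2.2.2 h3
        · rw [h3] at hb1
          rcases mem_union.1 hb1 with h | h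
          · exact hQP' _ _ (hM.c0Q v).1 h
          · exact hQQ' _ _ (hM.c0Q v).1 h
  · intro v b hb
    refine ⟨mem_range.1 (hM.Qlt _ hb), disjoint_right.1 (hM.FQ v) hb, ?_⟩
    intro h
    rcases mem_union.1 h with h | h
    · rcases mem_union.1 h with h | h
      · exact hPPQ b (mem_filter.1 h).1 _ hb
      · exact hQP' _ _ hb (hLP v h)
    · rcases mem_union.1 (mem_filter.1 h).1 with h | h
      · exact hQP' _ _ hb h
      · exact hQQ' _ _ hb h

end

end Pool.Agent.Work.MP_db9399_da_helper72
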