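import Pool.Agent.Work.MP_db9399_da_helper72.MidB

/-!
# Inputs of STA, MIS2, STB in the middle theorem (helper72)
-/

set_option autoImplicit false

namespace Pool.Agent.Work.MP_db9399_da_helper72

open Finset Classical
open Pool.Agent.Work.MP_db9399_all (nb)
open Pool.Agent.Work.MP_db9399_lt (us)
open Pool.Agent.Work.MP_db9399_da
open Pool.Agent.Work.MP_db9399_da_helper93 (SG dgU qq_sgp sgs hid sgp_union sum_sgv)

universe u

section
variable {V : Type u} [Fintype V]

theorem sgp_eq_sum (L : V → Finset ℕ) (sd pt : V → Bool) (i : Bool) (b : ℕ) :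
    sgp L sd pt i b = ∑ v ∈ univ.filter (fun v => pt v = i ∧ b ∈ L v), sgv (sd v) := by
  have h1 := sum_sgv sd pt i (fun v => b ∈ L v)
  have h2 : ∑ v ∈ univ.filter (fun v => pt v = i), sgv (sd v) * (if b ∈ L v then 1 else 0 : ℤ) =
      ∑ v ∈ univ.filter (fun v => pt v = i ∧ b ∈ L v), sgv (sd v) := by
    rw [← filter_filter, sum_filter (fun v => b ∈ L v)]
    refine sum_congr rfl fun v _ => ?_
    split_ifs <;> simp
  rw [← h2, h1]
  unfold sgp qtr us
  congr 2 <;>
  · congr 1
    ext v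
    simp only [mem_inter, mem_filter, mem_univ, true_and]

theorem cnt_one {d : ℕ} {Q : Bool → Finset ℕ} {P2 : Finset ℕ} {W : ℕ → Finset V}
    {T : Finset V} (hT : ∀ v, (v ∈ T ↔ ∃ b ∈ PP d Q P2, v ∈ W b))
    (hone : ∀ b ∈ PP d Q P2, ∀ b' ∈ PP d Q P2, ∀ v, v ∈ W b → v ∈ W b' → b = b') (sd pt : V → Bool)
    (i : Bool) :
    ∑ v ∈ univ.filter (fun v => pt v = i), sgv (sd v) *
      (((PP d Q P2).filter fun b => v ∈ W b).card : ℤ) =
      ∑ v ∈ T.filter (fun v => pt v = i), sgv (sd v) := by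
  have h1 : ∀ v, (((PP d Q P2).filter fun b => v ∈ W b).card : ℤ) = if v ∈ T then 1 else 0 := by
    intro v
    by_cases hv : v ∈ T
    · rw [if_pos hv]
      obtain ⟨b, hb, hvb⟩ := (hT v).1 hv
      have : (PP d Q P2).filter (fun b => v ∈ W b) = {b} := by
        ext b'
        rw [mem_filter, mem_singleton]
        constructor
        · rintro ⟨h2, h3⟩
          exact hone b' h2 b hb v h3 hvb
        · rintro rfl
          exact ⟨hb, hvb⟩
      rw [this, card_singleton]
      rfl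
    · rw [if_neg hv]
      have : (PP d Q P2).filter (fun b => v ∈ W b) = ∅ := by
        rw [filter_eq_empty_iff]
        intro b hb hvb
        exact hv ((hT v).2 ⟨b, hb, hvb⟩)
      rw [this, card_empty]
      rfl
  have h2 : T.filter (fun v => pt v = i) = (univ.filter fun v => pt v = i).filter fun v => v ∈ T := by
    ext v
    simp only [mem_filter, mem_univ, true_and]
    tauto
  rw [h2, sum_filter (fun v => v ∈ T)]
  refine sum_congr rfl fun v _ => ?_
  rw [h1 v]
  split_ifs <;> simp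

/-- input of STA -/
theorem MI.toSI {G Th N0 : SimpleGraph V} {d K M0 : ℕ}
    {C ρ π κ θ θ' : ℝ} {sd pt : V → Bool} {Q : Bool → Finset ℕ} {P2 : Finset ℕ}
    {F A : V → Finset ℕ} {W : ℕ → Finset V} {T1 Pf : Finset V} {c0 : V → ℕ}
    (hM : MI G Th N0 d K M0 C ρ π κ θ sd pt Q P2 F A W T1 Pf c0) (hθ : 0 < θ) (hθ' : 4 * θ ≤ θ')
    (hd : 1 ≤ θ * d) :
    ∃ s : ℕ, SI G N0 d d s C 2 π κ θ' sd pt Q P2 F W := by
  have hθd : θ * (d : ℝ) ≤ θ' * d := mul_le_mul_of_nonneg_right (by linarith) (Nat.cast_nonneg _)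
  have h4 : 4 * θ * (d : ℝ) ≤ θ' * d := mul_le_mul_of_nonneg_right hθ' (Nat.cast_nonneg _)
  have hSG : SG G d d sd pt Q P2 F W :=
    { deg := hM.deg, Flt := hM.Flt, FQ := hM.FQ, QQ := hM.QQ, QP := hM.QP, Qlt := hM.Qlt
      Plt := hM.Plt, eqs := hM.eqs, WF := hM.WF }
  refine ⟨⌈2 * θ * d⌉₊, ?_⟩
  have hs1 : 2 * θ * d ≤ (⌈2 * θ * d⌉₊ : ℝ) := Nat.le_ceil _
  have hs2 : (⌈2 * θ * d⌉₊ : ℝ) ≤ 2 * θ * d + 1 :=
    (Nat.ceil_lt_add_one (by positivity)).le
  exact
    { Dd := Or.inl rfl
      deg := hM.deg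
      VC := hM.VC
      Vl := hM.Vl
      Fx := fun v => (hM.Fx v).trans hθd
      load := fun b => (hM.load b).trans hθd
      Qlt := hM.Qlt, Plt := hM.Plt, QQ := hM.QQ, QP := hM.QP, Qc := hM.Qc, Pc := hM.Pc
      crd := fun v => (hM.crd v).trans hθd
      N0c := fun v w h => (hM.N0a v w h).1
      N0m := hM.N0m
      Wx := fun b hb => (hM.Wc b hb).trans hθd
      W1 := by
        intro v
        rw [card_le_one]
        intro a ha b hb
        rw [mem_filter] at ha hb
        exact hM.one a ha.1 b hb.1 v ha.2 hb.2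
      sgs := by
        intro i
        rw [sgs hSG i, cnt_one hM.TPW hM.one sd pt i]
        have h5 := hM.sms i
        have h6 := hM.sgn i
        have h7 : |(((- ∑ b ∈ P2 ∪ Q (!i), sgp F sd pt i b +
            ∑ v ∈ (T1 ∪ Pf).filter (fun v => pt v = i), sgv (sd v) : ℤ)) : ℝ)| ≤
            (⌈2 * θ * d⌉₊ : ℝ) := by
          push_cast at h5 h6 ⊢
          refine (abs_add_le _ _).trans ?_
          rw [abs_neg]
          linarith
        exact_mod_cast h7
      sth := by
        refine hs2.trans ?_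
        linarith }

/-- input of MIS2 -/
theorem MI.toM2K {G Th N0 U Con2 Fr : SimpleGraph V} {d K M0 N2 : ℕ}
    {C ρ π κ θ δ lam ι : ℝ} {sd pt : V → Bool} {Q : Bool → Finset ℕ} {P2 : Finset ℕ}
    {F A L : V → Finset ℕ} {W : ℕ → Finset V} {T1 Pf : Finset V} {c0 : V → ℕ}
    {Zs : Finset (Finset V)} {t : V → V → ℕ}
    (hM : MI G Th N0 d K M0 C ρ π κ θ sd pt Q P2 F A W T1 Pf c0)
    (hO : SO G N0 U Con2 d κ (1 / N2) lam ι sd pt Q P2 F W Zs L t)
    (hFr : ∀ v w, Fr.Adj v w ↔ U.Adj v w ∧ ¬ Con2.Adj v w ∧ ¬ N0.Adj v w)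
    (hZs : ∀ i, qtr sd pt true i \ (T1 ∪ Pf) ∈ Zs) (hC : 1 ≤ C) (hι0 : 0 < ι)
    (hθ : 2 * θ ≤ δ) (hθ0 : 0 < θ) (hlam : 2 * lam ≤ δ) (hι : ι * C ^ 2 ≤ δ)
    (hπ : π ≤ 1 / (200 * (K + 2))) (hκπ : κ ≤ π) :
    M2K (crs G sd pt) Fr N0 Th d M0 K C κ δ sd pt Q P2 (fun v => F v ∪ L v) A c0 T1 Pf := by
  have hd0 : (0 : ℝ) ≤ d := Nat.cast_nonneg _
  have hθd : θ * (d : ℝ) ≤ δ * d := mul_le_mul_of_nonneg_right (by linarith) hd0
  have h2d : 2 * θ * (d : ℝ) ≤ δ * d := mul_le_mul_of_nonneg_right hθ hd0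
  have h2l : 2 * lam * (d : ℝ) ≤ δ * d := mul_le_mul_of_nonneg_right hlam hd0
  have hSG : SG G d d sd pt Q P2 F W :=
    { deg := hM.deg, Flt := hM.Flt, FQ := hM.FQ, QQ := hM.QQ, QP := hM.QP, Qlt := hM.Qlt
      Plt := hM.Plt, eqs := hM.eqs, WF := hM.WF }
  have hV2 : ι * (Fintype.card V : ℝ) ^ 2 ≤ δ * (d : ℝ) ^ 2 := by
    have h1 : (Fintype.card V : ℝ) ^ 2 ≤ (C * d) ^ 2 :=
      pow_le_pow_left₀ (Nat.cast_nonneg _) hM.VC 2
    have h2 : ι * (Fintype.card V : ℝ) ^ 2 ≤ ι * (C * d) ^ 2 := mul_le_mul_of_nonneg_left h1 hι0.le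
    have h3 : ι * (C * d) ^ 2 = (ι * C ^ 2) * (d : ℝ) ^ 2 := by ring
    rw [h3] at h2
    exact h2.trans (mul_le_mul_of_nonneg_right hι (by positivity))
  have hV1 : ι * (Fintype.card V : ℝ) ≤ δ * d := by
    have h2 : ι * (Fintype.card V : ℝ) ≤ ι * (C * d) := mul_le_mul_of_nonneg_left hM.VC hι0.le
    have h3 : ι * (C * d) = (ι * C) * d := by ring
    rw [h3] at h2
    refine h2.trans (mul_le_mul_of_nonneg_right ?_ hd0)
    refine le_trans ?_ hι
    have : C ≤ C ^ 2 := by nlinarith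
    exact mul_le_mul_of_nonneg_left this hι0.le
  have hLn : ∀ b, b ∉ P2 → us L b = ∅ := by
    intro b hb
    ext v
    simp only [us, mem_filter, mem_univ, true_and, notMem_empty, iff_false]
    exact fun h => hb (hO.LP v h)
  have huL : ∀ b, ((us L b).card : ℝ) ≤ lam * d ∨ us L b = ∅ := by
    intro b
    by_cases hb : b ∈ P2
    · exact Or.inl (hO.Ll b hb)
    · exact Or.inr (hLn b hb)
  exact
    { Hc := fun v w h => h.2
      FrH := fun v w h => hO.Uc v w ((hFr v w).1 h).1
      Hd := by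
        intro v
        have := (abs_le.1 (hM.crd v)).1
        linarith
      VC := hM.VC
      F2l := by
        intro b _
        have h1 : ((us (fun v => F v ∪ L v) b).card : ℝ) ≤ (us F b).card + (us L b).card := by
          have : us (fun v => F v ∪ L v) b ⊆ us F b ∪ us L b := by
            intro v hv
            simp only [us, mem_filter, mem_univ, true_and, mem_union] at hv ⊢
            exact hv
          have := (card_le_card this).trans (card_union_le _ _)
          exact_mod_cast this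
        have h2 : ((us F b).card : ℝ) ≤ θ * d := hM.load b
        rcases huL b with h3 | h3
        · linarith
        · rw [h3, card_empty, Nat.cast_zero] at h1
          linarith
      Al := fun b hb => (hM.Al b hb).trans hθd
      Tx := fun v => (hM.Tx v).trans hθd
      c0c := hM.c0c
      qK := by
        intro i b hb
        rw [qq_sgp _ hM.eqs, abs_neg, sgp_union hO.LF]
        have h1 := hM.sgQ i b hb
        have h2 : |sgp L sd pt i b| ≤ 2 := by
          by_cases hb2 : b ∈ P2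
          · rw [sgp_eq_sum]
            exact hO.Ls b hb2 i
          · unfold sgp
            rw [hLn b hb2]
            simp
        exact (abs_add_le _ _).trans (by linarith)
      Pc := by
        intro i
        have h1 : ((P2 ∪ Q i).card : ℝ) ≤ P2.card + (Q i).card := by
          exact_mod_cast card_union_le _ _
        have h2 := hM.Pc.2
        have h3 := (hM.Qc i).2
        have h4 : κ * (d : ℝ) ≤ π * d := mul_le_mul_of_nonneg_right hκπ hd0
        have h5 : ((P2 ∪ Q i).card : ℝ) ≤ 4 * π * d := by linarith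
        have hK : (0 : ℝ) < (K : ℝ) + 2 := by positivity
        have h6 : ((K : ℝ) + 2) * ((P2 ∪ Q i).card : ℝ) ≤ (K + 2) * (4 * π * d) :=
          mul_le_mul_of_nonneg_left h5 hK.le
        have h7 : π * (200 * (K + 2)) ≤ 1 := by
          rw [le_div_iff₀ (by positivity)] at hπ
          exact hπ
        nlinarith
      fre := by
        intro A' B'
        have h1 := hO.fre A' B'
        have h2 : (((A' ×ˢ B').filter fun p => U.Adj p.1 p.2 ∧ ¬ Con2.Adj p.1 p.2 ∧
            ¬ N0.Adj p.1 p.2).card : ℝ) = (ee Fr A' B' : ℝ) := by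
          unfold ee
          simp only [hFr]
        rw [h2] at h1
        linarith
      frd := by
        intro v i
        have h1 := hO.frd v _ (hZs i)
        have h2 : (((qtr sd pt true i \ (T1 ∪ Pf)).filter fun w => U.Adj v w ∧ ¬ Con2.Adj v w ∧
            ¬ N0.Adj v w).card : ℝ) = (dg Fr v (qtr sd pt true i \ (T1 ∪ Pf)) : ℝ) := by
          unfold dg
          simp only [hFr]
        rw [h2] at h1
        linarith
      qua := fun β i => (hM.qua β i).trans (mul_le_mul_of_nonneg_right (by linarith) hd0)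
      sgn := fun i => (hM.sgn i).trans hθd
      hid := by
        intro i
        rw [← cnt_one hM.TPW hM.one sd pt i]
        exact hid hSG hO.col (fun v w h => (hO.Uc v w h).2) hO.LP hO.LF i
      TP := hM.TP
      N0a := hM.N0a
      N0m := hM.N0m
      N0p := hM.N0p }

end

end Pool.Agent.Work.MP_db9399_da_helper72
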