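import Mathlib

/-!
# Numbers for stage A (helper72)
-/

set_option autoImplicit false

namespace Pool.Agent.Work.MP_db9399_da_helper72

theorem num (σ κ π η : ℝ) (K k2 d D q : ℕ) (hσ : σ = 2 ∨ σ = 4) (hκ : 0 < κ) (hκ1 : κ ≤ 1 / 100)
    (hπ : 0 < π) (hπ1 : π ≤ 1 / 100) (hK : 100 ≤ K * κ) (hk2 : (k2 : ℝ) ≤ κ * K)
    (hq1 : (2 * κ + π) * d ≤ q) (hq2 : (q : ℝ) ≤ (4 * κ + 2 * π) * d) (hD : D = d ∨ D = d + 1)
    (hd : 100 * K ≤ d) (hη : 0 ≤ η) (hη1 : η + 1 ≤ d / (4 * K)) :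
    ∃ k3 w : ℕ, 1 + k2 + k3 ≤ K ∧ κ * K ≤ (k3 : ℝ) ∧
      (∀ y : ℝ, |y - (D - D / K - (k2 + k3) * d / (K * σ))| ≤ η →
        y ≤ (d + 2 - q) + w ∧ ((d : ℝ) + 2 - q) + w ≤ y + (2 * η + 1)) ∧
      (d : ℝ) / K ≤ w + 1 ∧ (w : ℝ) ≤ 3 * d / K := by
  have hK0 : (0 : ℝ) < K := by
    by_contra h
    have : (K : ℝ) ≤ 0 := not_lt.1 h
    nlinarith
  have hKbig : (10000 : ℝ) ≤ K := by nlinarith
  have hdR : 100 * (K : ℝ) ≤ d := by exact_mod_cast hd
  have hd0 : (0 : ℝ) < d := by linarith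
  have hσ0 : 0 < σ := by rcases hσ with h | h <;> rw [h] <;> norm_num
  have hσ2 : 2 ≤ σ := by rcases hσ with h | h <;> rw [h]; norm_num
  have hσ4 : σ ≤ 4 := by rcases hσ with h | h <;> rw [h]; norm_num
  -- q / d
  obtain ⟨z, hz⟩ : ∃ z : ℝ, z = q / d := ⟨_, rfl⟩
  have hzq : (q : ℝ) = z * d := by rw [hz]; field_simp
  have hz1 : 2 * κ + π ≤ z := by
    rw [hz, le_div_iff₀ hd0]
    exact hq1
  have hz2 : z ≤ 4 * κ + 2 * π := by
    rw [hz, div_le_iff₀ hd0]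
    exact hq2
  have hz3 : z ≤ 6 / 100 := by linarith
  obtain ⟨y0, hy0⟩ : ∃ y0 : ℝ, y0 = σ * (K * z - 3) := ⟨_, rfl⟩
  have hKz : 2 * (K * κ) ≤ K * z := by nlinarith
  have hy1 : 4 * (K * κ) - 6 ≤ y0 := by
    rw [hy0]
    nlinarith
  have hy2 : y0 ≤ 24 / 100 * K := by
    rw [hy0]
    nlinarith
  have hy3 : 0 ≤ y0 := by linarith
  obtain ⟨kr, hkr⟩ : ∃ kr : ℕ, kr = ⌊y0⌋₊ := ⟨_, rfl⟩
  have hkr1 : (kr : ℝ) ≤ y0 := by rw [hkr]; exact Nat.floor_le hy3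
  have hkr2 : y0 < kr + 1 := by rw [hkr]; exact Nat.lt_floor_add_one y0
  have hkk : (k2 : ℝ) ≤ kr := by linarith
  have hkk' : k2 ≤ kr := by exact_mod_cast hkk
  have hsub : ((kr - k2 : ℕ) : ℝ) = kr - k2 := by rw [Nat.cast_sub hkk']
  have hdK : 100 ≤ (d : ℝ) / K := by
    rw [le_div_iff₀ hK0]
    exact hdR
  -- the center
  have hc1 : (kr : ℝ) * d / (K * σ) ≤ q - 3 * (d / K) := by
    have h1 : (kr : ℝ) * d / (K * σ) ≤ y0 * d / (K * σ) := by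
      apply div_le_div_of_nonneg_right _ (by positivity)
      exact mul_le_mul_of_nonneg_right hkr1 hd0.le
    refine h1.trans (le_of_eq ?_)
    rw [hy0, hzq]
    field_simp
  have hc2 : (q : ℝ) - 3 * (d / K) - 1 / 2 * (d / K) ≤ (kr : ℝ) * d / (K * σ) := by
    have h1 : (y0 - 1) * d / (K * σ) ≤ (kr : ℝ) * d / (K * σ) := by
      apply div_le_div_of_nonneg_right _ (by positivity)
      exact mul_le_mul_of_nonneg_right (by linarith) hd0.le
    refine le_trans ?_ h1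
    have h2 : (y0 - 1) * d / (K * σ) = q - 3 * (d / K) - 1 / σ * (d / K) := by
      rw [hy0, hzq]
      field_simp
    rw [h2]
    have h3 : 1 / σ ≤ 1 / 2 := one_div_le_one_div_of_le (by norm_num) hσ2
    nlinarith
  obtain ⟨X, hX⟩ : ∃ X : ℝ, X = (D : ℝ) - D / K - kr * d / (K * σ) - (d + 2 - q) := ⟨_, rfl⟩
  have hD1 : (d : ℝ) ≤ D := by
    rcases hD with h | h <;> rw [h]
    push_cast
    linarith
  have hD2 : (D : ℝ) ≤ d + 1 := by
    rcases hD with h | h <;> rw [h]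
    · linarith
    · push_cast
      linarith
  have hDK1 : (D : ℝ) / K ≤ d / K + 1 := by
    have : (D : ℝ) / K ≤ (d + K) / K := by
      apply div_le_div_of_nonneg_right _ hK0.le
      linarith
    refine this.trans (le_of_eq ?_)
    field_simp
  have hDK2 : (d : ℝ) / K ≤ D / K := div_le_div_of_nonneg_right hD1 hK0.le
  have hX1 : (d : ℝ) / K ≤ X := by
    rw [hX]
    linarith
  have hX2 : X ≤ 5 / 2 * (d / K) := by
    rw [hX]
    linarith
  have hη2 : η + 1 ≤ 1 / 4 * (d / K) := by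
    refine hη1.trans (le_of_eq ?_)
    field_simp
  obtain ⟨w, hw⟩ : ∃ w : ℕ, w = ⌊X + η⌋₊ + 1 := ⟨_, rfl⟩
  have hw1 : X + η ≤ w := by
    rw [hw]
    push_cast
    exact (Nat.lt_floor_add_one _).le
  have hw2 : (w : ℝ) ≤ X + η + 1 := by
    rw [hw]
    push_cast
    have := Nat.floor_le (show 0 ≤ X + η by linarith)
    linarith
  refine ⟨kr - k2, w, ?_, ?_, ?_, ?_, ?_⟩
  · have h1 : (1 : ℝ) + kr ≤ K := by linarith
    have h2 : 1 + kr ≤ K := by exact_mod_cast h1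
    omega
  · rw [hsub]
    linarith
  · intro y hy
    have h1 : ((k2 : ℝ) + ((kr - k2 : ℕ) : ℝ)) = kr := by rw [hsub]; ring
    rw [h1] at hy
    rw [abs_le] at hy
    constructor <;> linarith
  · linarith
  · have : (3 : ℝ) * d / K = 3 * (d / K) := by ring
    rw [this]
    linarith

end Pool.Agent.Work.MP_db9399_da_helper72
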