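import Pool.Agent.Work.MP_db9399_da_helper72.Stm
import Pool.Agent.Work.MP_db9399_all_helper34.VIZ

/-!
# PREP: the start of the rounds (helper72)

Vizing's theorem gives classes; the largest ones are distributed to the colours such that every vertex
sees few holes; the edges at the holes are dropped.
-/

set_option autoImplicit false

namespace Pool.Agent.Work.MP_db9399_da_helper72

open Finset Classical
open Pool.Agent.Work.MP_db9399_all (nb)

universe u

/-- the classes of a proper edge colouring as involutions -/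
theorem classes {V : Type u} [Fintype V] (G : SimpleGraph V) (Δ : ℕ)
    (hG : ∀ v, (univ.filter fun w => G.Adj v w).card ≤ Δ) :
    ∃ N : Fin (Δ + 1) → V → V, (∀ c v, N c (N c v) = v) ∧
      (∀ c v, N c v ≠ v → G.Adj v (N c v)) ∧
      (∀ c c' v, N c v = N c' v → N c v ≠ v → c = c') ∧
      ∀ v, (univ.filter fun c => N c v = v).card + (univ.filter fun w => G.Adj v w).card =
        Δ + 1 := by
  obtain ⟨t, ht⟩ := Pool.Agent.Work.MP_db9399_all.VIZ.vizing G Δ (by
    intro v
    refine le_trans (le_of_eq ?_) (hG v)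
    congr 1)
  set N : Fin (Δ + 1) → V → V := fun c v =>
    if h : ∃ w, G.Adj v w ∧ t v w = c then h.choose else v with hN
  have hN1 : ∀ (c : Fin (Δ + 1)) v w, G.Adj v w → t v w = c → N c v = w := by
    intro c v w hvw hc
    have hex : ∃ w, G.Adj v w ∧ t v w = c := ⟨w, hvw, hc⟩
    rw [hN]
    simp only [dif_pos hex]
    have h1 := hex.choose_spec
    exact ht.inj v (by simpa [nb] using h1.1) (by simpa [nb] using hvw) (h1.2.trans hc.symm)
  have hN2 : ∀ (c : Fin (Δ + 1)) v, (¬ ∃ w, G.Adj v w ∧ t v w = c) → N c v = v := by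
    intro c v hex
    rw [hN]
    simp only [dif_neg hex]
  have hN3 : ∀ (c : Fin (Δ + 1)) v, N c v ≠ v → G.Adj v (N c v) ∧ t v (N c v) = c := by
    intro c v hne
    by_cases hex : ∃ w, G.Adj v w ∧ t v w = c
    · obtain ⟨w, hw1, hw2⟩ := hex
      rw [hN1 c v w hw1 hw2]
      exact ⟨hw1, hw2⟩
    · exact absurd (hN2 c v hex) hne
  refine ⟨N, ?_, fun c v h => (hN3 c v h).1, ?_, ?_⟩
  · intro c v
    by_cases h : N c v = v
    · rw [h, h]
    · obtain ⟨h1, h2⟩ := hN3 c v h
      exact hN1 c _ _ h1.symm (by rw [← ht.sym v _ h1]; exact h2)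
  · intro c c' v h hne
    have h1 := (hN3 c v hne).2
    have h2 := (hN3 c' v (by rw [← h]; exact hne)).2
    rw [← h] at h2
    exact Fin.ext (h1.symm.trans h2)
  · intro v
    have h1 : (univ.filter fun c => ¬ N c v = v).card = (univ.filter fun w => G.Adj v w).card := by
      refine card_bij (fun c _ => N c v) ?_ ?_ ?_
      · intro c hc
        rw [mem_filter] at hc ⊢
        exact ⟨mem_univ _, (hN3 c v hc.2).1⟩
      · intro c hc c' hc' h
        rw [mem_filter] at hc hc'
        have h1 := (hN3 c v hc.2).2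
        have h2 := (hN3 c' v hc'.2).2
        rw [← h] at h2
        exact Fin.ext (h1.symm.trans h2)
      · intro w hw
        rw [mem_filter] at hw
        have h2 := ht.mem v w hw.2
        rw [mem_range] at h2
        have h3 := hN1 ⟨t v w, h2⟩ v w hw.2 rfl
        refine ⟨⟨t v w, h2⟩, ?_, h3⟩
        rw [mem_filter, h3]
        exact ⟨mem_univ _, hw.2.ne'⟩
    rw [← h1, card_filter_add_card_filter_not, card_univ, Fintype.card_fin]

/-- PREP -/
theorem prep (hPerm : Stmt_PERM.{u}) {V : Type u} [Fintype V] {β : Type*} [Fintype β]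
    (G : SimpleGraph V) (D : β → Finset V) (w e x d0 r k : ℕ)
    (hG : ∀ v, (univ.filter fun w => G.Adj v w).card ≤ Fintype.card β + w)
    (hG' : ∀ v, Fintype.card β + w ≤ (univ.filter fun w => G.Adj v w).card + e)
    (hx : Fintype.card V * (e + 1) < (w + 2) * (x + 1))
    (hD : ∀ b, (D b).card ≤ d0) (hDv : ∀ v, (univ.filter fun b => v ∈ D b).card ≤ r)
    (hk1 : 1 ≤ k) (hk : 16 * r ≤ k) (hkp : 2 * k ≤ Fintype.card β)
    (hV : Fintype.card V < 2 ^ k) :
    ∃ N0 : β → V → V, (∀ b v, N0 b (N0 b v) = v) ∧ (∀ b, ∀ v ∈ D b, N0 b v = v) ∧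
      (∀ b v, N0 b v ≠ v → G.Adj v (N0 b v)) ∧
      (∀ b b' v, b ≠ b' → N0 b v = N0 b' v → N0 b v = v) ∧
      (∀ b, (univ.filter fun v => v ∉ D b ∧ N0 b v = v).card ≤ x + d0) ∧
      ∀ v, (univ.filter fun b => v ∉ D b ∧ N0 b v = v).card ≤ e + 1 + k := by
  obtain ⟨p, hp⟩ : ∃ p, Fintype.card β = p := ⟨_, rfl⟩
  rw [hp] at hG hkp
  simp only [hp] at hG'
  obtain ⟨N, hN, hNadj, hNinj, hNcard⟩ := classes G (p + w) hG
  -- the large classes
  set Lg : Finset (Fin (p + w + 1)) :=
    univ.filter fun c => x < (univ.filter fun v => N c v = v).card with hLg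
  have hLgc : Lg.card ≤ w + 1 := by
    have h1 : Lg.card * (x + 1) ≤ Fintype.card V * (e + 1) := by
      calc Lg.card * (x + 1) = ∑ c ∈ Lg, (x + 1) := by rw [sum_const, smul_eq_mul]
        _ ≤ ∑ c ∈ Lg, (univ.filter fun v => N c v = v).card := by
            refine sum_le_sum fun c hc => ?_
            rw [hLg, mem_filter] at hc
            exact hc.2
        _ ≤ ∑ c, (univ.filter fun v => N c v = v).card := sum_le_sum_of_subset (subset_univ _)
        _ = ∑ v, (univ.filter fun c => N c v = v).card := by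
            simp_rw [card_filter]
            exact sum_comm
        _ ≤ ∑ _v : V, (e + 1) := by
            refine sum_le_sum fun v _ => ?_
            have h2 := hNcard v
            have h3 := hG' v
            omega
        _ = Fintype.card V * (e + 1) := by rw [sum_const, card_univ, smul_eq_mul]
    by_contra hcon
    push Not at hcon
    have h2 : (w + 2) * (x + 1) ≤ Lg.card * (x + 1) := Nat.mul_le_mul_right _ hcon
    omega
  have hC : p ≤ (univ \ Lg).card := by
    rw [card_sdiff_of_subset (subset_univ _), card_univ, Fintype.card_fin]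
    omega
  obtain ⟨C, hCsub, hCc⟩ := exists_subset_card_eq hC
  -- the bijection
  have e1 : β ≃ ULift.{u} (Fin p) := (Fintype.equivFinOfCardEq hp).trans Equiv.ulift.symm
  have e2 : ULift.{u} (Fin p) ≃ C := Equiv.ulift.trans
    ((finCongr (by rw [Fintype.card_coe, hCc])).trans (Fintype.equivFin C).symm)
  set R : V → Finset (ULift.{u} (Fin p) × ULift.{u} (Fin p)) := fun v =>
    univ.filter fun q => N (e2 q.2).1 v ∈ D (e1.symm q.1) with hR
  have hRc : ∀ v, (R v).card ≤ Fintype.card (ULift.{u} (Fin p)) * r := by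
    intro v
    have h1 : (R v).card ≤ ∑ c : ULift.{u} (Fin p),
        (univ.filter fun b : β => N (e2 c).1 v ∈ D b).card := by
      have h2 : R v ⊆ univ.biUnion fun c : ULift.{u} (Fin p) =>
          (univ.filter fun b : β => N (e2 c).1 v ∈ D b).image fun b => (e1 b, c) := by
        rintro ⟨b, c⟩ hq
        rw [hR, mem_filter] at hq
        rw [mem_biUnion]
        refine ⟨c, mem_univ _, ?_⟩
        rw [mem_image]
        exact ⟨e1.symm b, mem_filter.2 ⟨mem_univ _, hq.2⟩, by simp⟩
      refine (card_le_card h2).trans (card_biUnion_le.trans ?_)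
      exact sum_le_sum fun c _ => card_image_le
    refine h1.trans ?_
    calc ∑ c : ULift.{u} (Fin p), (univ.filter fun b : β => N (e2 c).1 v ∈ D b).card
        ≤ ∑ _c : ULift.{u} (Fin p), r := sum_le_sum fun c _ => hDv _
      _ = Fintype.card (ULift.{u} (Fin p)) * r := by rw [sum_const, card_univ, smul_eq_mul]
  obtain ⟨σ, hσ0⟩ := hPerm V (ULift.{u} (Fin p)) (ULift.{u} (Fin p)) R r k rfl hRc hk1 hk
    (by simpa using hkp) hV
  have hσ : ∀ v, (univ.filter fun b => (b, σ b) ∈ R v).card ≤ k := by
    intro v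
    convert hσ0 v
  -- the class of the colour `b`
  set cl : β → Fin (p + w + 1) := fun b => (e2 (σ (e1 b))).1 with hcl
  have hclinj : Function.Injective cl := by
    intro b b' h
    have h1 : e2 (σ (e1 b)) = e2 (σ (e1 b')) := Subtype.ext h
    exact e1.injective (σ.injective (e2.injective h1))
  have hclL : ∀ b, (univ.filter fun v => N (cl b) v = v).card ≤ x := by
    intro b
    have h1 := hCsub (e2 (σ (e1 b))).2
    rw [mem_sdiff, hLg, mem_filter] at h1
    have h2 := h1.2
    push Not at h2
    exact h2 (mem_univ _)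
  have hbad : ∀ v, (univ.filter fun b => N (cl b) v ∈ D b).card ≤ k := by
    intro v
    refine le_trans (le_of_eq ?_) (hσ v)
    refine card_bij (fun b _ => e1 b) ?_ ?_ ?_
    · intro b hb
      rw [mem_filter] at hb ⊢
      refine ⟨mem_univ _, ?_⟩
      rw [hR, mem_filter]
      refine ⟨mem_univ _, ?_⟩
      simpa [hcl] using hb.2
    · intro b _ b' _ h
      exact e1.injective h
    · intro b hb
      rw [mem_filter, hR, mem_filter] at hb
      refine ⟨e1.symm b, ?_, by simp⟩
      rw [mem_filter]
      refine ⟨mem_univ _, ?_⟩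
      simpa [hcl] using hb.2.2
  set N0 : β → V → V := fun b v => if v ∈ D b ∨ N (cl b) v ∈ D b then v else N (cl b) v with hN0
  have hN0ne : ∀ b v, N0 b v ≠ v → N0 b v = N (cl b) v ∧ v ∉ D b ∧ N (cl b) v ∉ D b := by
    intro b v h
    rw [hN0] at h ⊢
    simp only at h ⊢
    by_cases h1 : v ∈ D b ∨ N (cl b) v ∈ D b
    · rw [if_pos h1] at h
      exact absurd rfl h
    · rw [if_neg h1]
      push Not at h1
      exact ⟨rfl, h1⟩
  refine ⟨N0, ?_, ?_, ?_, ?_, ?_, ?_⟩
  · intro b v
    by_cases h : N0 b v = v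
    · rw [h, h]
    · obtain ⟨h1, h2, h3⟩ := hN0ne b v h
      rw [h1, hN0]
      simp only [hN]
      rw [if_neg (not_or.2 ⟨h3, h2⟩)]
  · intro b v hv
    rw [hN0]
    simp only [if_pos (Or.inl hv : v ∈ D b ∨ N (cl b) v ∈ D b)]
  · intro b v h
    obtain ⟨h1, -, -⟩ := hN0ne b v h
    rw [h1] at h ⊢
    exact hNadj _ _ h
  · intro b b' v hbb h
    by_contra hne
    obtain ⟨h1, -, -⟩ := hN0ne b v hne
    obtain ⟨h2, -, -⟩ := hN0ne b' v (by rw [← h]; exact hne)
    rw [h1, h2] at h
    rw [h1] at hne
    exact hbb (hclinj (hNinj _ _ v h hne))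
  · intro b
    have h1 : (univ.filter fun v => v ∉ D b ∧ N0 b v = v) ⊆
        (univ.filter fun v => N (cl b) v = v) ∪ (D b).image (N (cl b)) := by
      intro v hv
      rw [mem_filter] at hv
      rw [mem_union, mem_filter, mem_image]
      by_cases h2 : N (cl b) v ∈ D b
      · exact Or.inr ⟨_, h2, hN _ _⟩
      · left
        refine ⟨mem_univ _, ?_⟩
        have h3 := hv.2.2
        rw [hN0] at h3
        simp only [if_neg (not_or.2 ⟨hv.2.1, h2⟩)] at h3
        exact h3
    refine (card_le_card h1).trans ((card_union_le _ _).trans ?_)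
    exact Nat.add_le_add (hclL b) (card_image_le.trans (hD b))
  · intro v
    have h1 : (univ.filter fun b => v ∉ D b ∧ N0 b v = v) ⊆
        (univ.filter fun b => N (cl b) v = v) ∪ (univ.filter fun b => N (cl b) v ∈ D b) := by
      intro b hb
      rw [mem_filter] at hb
      rw [mem_union, mem_filter, mem_filter]
      by_cases h2 : N (cl b) v ∈ D b
      · exact Or.inr ⟨mem_univ _, h2⟩
      · left
        refine ⟨mem_univ _, ?_⟩
        have h3 := hb.2.2
        rw [hN0] at h3
        simp only [if_neg (not_or.2 ⟨hb.2.1, h2⟩)] at h3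
        exact h3
    refine (card_le_card h1).trans ((card_union_le _ _).trans (Nat.add_le_add ?_ (hbad v)))
    have h2 : (univ.filter fun b => N (cl b) v = v).card ≤
        (univ.filter fun c => N c v = v).card := by
      refine card_le_card_of_injOn cl ?_ hclinj.injOn
      intro b hb
      rw [mem_coe, mem_filter] at hb ⊢
      exact ⟨mem_univ _, hb.2⟩
    have h3 := hNcard v
    have h4 := hG' v
    omega

end Pool.Agent.Work.MP_db9399_da_helper72
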