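import Mathlib

/-!
# REACH: short alternating paths in a robust graph (helper72)

`K` is a symmetric irreflexive relation, `N` an involution (the current matching, fixed points are
the uncovered vertices).  `S` is the set of possible outer vertices (`univ`, or one side of a
bipartite graph).  Two uncovered vertices `s`, `t` are joined by an alternating path of bounded
length which avoids the set `Bad`.
-/

set_option autoImplicit false

namespace Pool.Agent.Work.MP_db9399_da_helper72

open Finset

variable {V : Type*} [DecidableEq V]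

/-- move the hole from `o` to `v` along the edge `o (N v)` -/
def shift (N : V → V) (o v : V) : V → V := fun u =>
  if u = v then v else if u = N v then o else if u = o then N v else N u

theorem shift_inv (N : V → V) (hN : ∀ u, N (N u) = u) (o v : V) (ho : N o = o) (hv : N v ≠ v)
    (hov : o ≠ v) : ∀ u, shift N o v (shift N o v u) = u := by
  have h1 : N v ≠ o := by
    intro h
    have : N (N v) = N o := by rw [h]
    rw [hN, ho] at this
    exact hov this.symm
  intro u
  unfold shift
  by_cases hu1 : u = v
  · simp [hu1]
  · by_cases hu2 : u = N v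
    · subst hu2
      simp only [if_neg hv, if_true, if_neg hov, if_neg h1.symm]
    · by_cases hu3 : u = o
      · subst hu3
        simp only [if_neg hu1, if_neg hu2, if_true, if_neg hv]
      · simp only [if_neg hu1, if_neg hu2, if_neg hu3]
        have h2 : N u ≠ v := by
          intro h
          apply hu2
          rw [← h, hN]
        have h3 : N u ≠ N v := by
          intro h
          apply hu1
          rw [← hN u, h, hN]
        have h4 : N u ≠ o := by
          intro h
          apply hu3
          rw [← hN u, h, ho]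
        simp only [if_neg h2, if_neg h3, if_neg h4]
        exact hN u

/-- match two uncovered vertices -/
def join (N : V → V) (o t : V) : V → V := fun u =>
  if u = o then t else if u = t then o else N u

theorem join_inv (N : V → V) (hN : ∀ u, N (N u) = u) (o t : V) (ho : N o = o) (ht : N t = t)
    (hot : o ≠ t) : ∀ u, join N o t (join N o t u) = u := by
  intro u
  unfold join
  by_cases hu1 : u = o
  · subst hu1
    simp only [if_true, if_neg hot.symm]
  · by_cases hu2 : u = t
    · subst hu2
      simp only [if_neg hu1, if_true]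
    · have h3 : N u ≠ o := by
        intro h
        apply hu1
        rw [← hN u, h, ho]
      have h4 : N u ≠ t := by
        intro h
        apply hu2
        rw [← hN u, h, ht]
      simp only [if_neg hu1, if_neg hu2, if_neg h3, if_neg h4]
      exact hN u

variable [Fintype V]

/-- the levels of the search -/
noncomputable def lev (K : V → V → Prop) (N : V → V) (s : V) (Bad : Finset V) (ρ : ℕ) :
    ℕ → Finset V
  | 0 => by classical exact univ.filter fun v => v ∉ Bad ∧ K s (N v)
  | j + 1 => by
      classical exact univ.filter fun v => v ∉ Bad ∧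
        ρ ≤ ((lev K N s Bad ρ j).filter fun o => K o (N v)).card

theorem mem_lev_zero (K : V → V → Prop) (N : V → V) (s : V) (Bad : Finset V) (ρ : ℕ) (v : V) :
    v ∈ lev K N s Bad ρ 0 ↔ v ∉ Bad ∧ K s (N v) := by
  classical
  simp [lev]

open Classical in
theorem mem_lev_succ (K : V → V → Prop) (N : V → V) (s : V) (Bad : Finset V) (ρ j : ℕ) (v : V) :
    v ∈ lev K N s Bad ρ (j + 1) ↔ v ∉ Bad ∧
      ρ ≤ ((lev K N s Bad ρ j).filter fun o => K o (N v)).card := by
  simp [lev]

theorem lev_notBad (K : V → V → Prop) (N : V → V) (s : V) (Bad : Finset V) (ρ j : ℕ) (v : V)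
    (hv : v ∈ lev K N s Bad ρ j) : v ∉ Bad := by
  classical
  cases j with
  | zero => exact ((mem_lev_zero K N s Bad ρ v).1 hv).1
  | succ j => exact ((mem_lev_succ K N s Bad ρ j v).1 hv).1

/-- the hole can be moved from `s` to every vertex of every level -/
theorem transfer (K : V → V → Prop) (hKs : ∀ u v, K u v → K v u) (N : V → V)
    (hN : ∀ u, N (N u) = u) (s : V) (hs : N s = s) (Bad : Finset V)
    (hBad : ∀ v, N v = v → v ∈ Bad) (hBadN : ∀ v ∈ Bad, N v ∈ Bad) (ρ : ℕ) :
    ∀ j : ℕ, ∀ v ∈ lev K N s Bad ρ j, ∀ Av : Finset V, v ∉ Av → N v ∉ Av → s ∉ Av →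
      2 * (Av.card + 2 * j + 2) < ρ →
      ∃ (N' : V → V) (T : Finset V), (∀ u, N' (N' u) = u) ∧ Disjoint T Av ∧ s ∈ T ∧ v ∈ T ∧
        T.card ≤ 2 * j + 3 ∧ N' v = v ∧ (∀ u, u ∉ T → N' u = N u) ∧
        (∀ u ∈ T, u ≠ v → K u (N' u)) ∧ (∀ u ∈ T, N' u ∈ T) ∧ (∀ u ∈ T, u ≠ s → u ∉ Bad) := by
  classical
  intro j
  induction j with
  | zero =>
    intro v hv Av hvA hNvA hsA hρ
    rw [mem_lev_zero] at hv
    obtain ⟨hvB, hK⟩ := hv
    have hsB : s ∈ Bad := hBad s hs
    have hNv : N v ≠ v := fun h => hvB (hBad v h)
    have hsv : s ≠ v := fun h => hvB (h ▸ hsB)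
    have hNvB : N v ∉ Bad := by
      intro h
      have := hBadN _ h
      rw [hN] at this
      exact hvB this
    have hsNv : s ≠ N v := fun h => hNvB (h ▸ hsB)
    refine ⟨shift N s v, {s, N v, v}, shift_inv N hN s v hs hNv hsv, ?_, by simp, by simp,
      ?_, ?_, ?_, ?_, ?_, ?_⟩
    · rw [disjoint_left]
      intro u hu
      simp only [mem_insert, mem_singleton] at hu
      rcases hu with rfl | rfl | rfl
      · exact hsA
      · exact hNvA
      · exact hvA
    · exact (card_le_three).trans (by omega)
    · simp [shift]
    · intro u hu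
      simp only [mem_insert, mem_singleton, not_or] at hu
      simp [shift, hu.1, hu.2.1, hu.2.2]
    · intro u hu huv
      simp only [mem_insert, mem_singleton] at hu
      rcases hu with rfl | rfl | rfl
      · simp only [shift, if_neg hsv, if_neg hsNv, if_true]
        exact hK
      · simp only [shift, if_neg hNv, if_true]
        exact hKs _ _ hK
      · exact absurd rfl huv
    · intro u hu
      simp only [mem_insert, mem_singleton] at hu
      rcases hu with rfl | rfl | rfl
      · simp [shift, hsv, hsNv]
      · simp [shift, hNv]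
      · simp [shift]
    · intro u hu hus
      simp only [mem_insert, mem_singleton] at hu
      rcases hu with rfl | rfl | rfl
      · exact absurd rfl hus
      · exact hNvB
      · exact hvB
  | succ j ih =>
    intro v hv Av hvA hNvA hsA hρ
    rw [mem_lev_succ] at hv
    obtain ⟨hvB, hcard⟩ := hv
    have hsB : s ∈ Bad := hBad s hs
    have hNv : N v ≠ v := fun h => hvB (hBad v h)
    have hsv : s ≠ v := fun h => hvB (h ▸ hsB)
    have hNvB : N v ∉ Bad := by
      intro h
      have := hBadN _ h
      rw [hN] at this
      exact hvB this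
    have hsNv : s ≠ N v := fun h => hNvB (h ▸ hsB)
    set Av' : Finset V := insert v (insert (N v) Av) with hAv'
    have hAc : Av'.card ≤ Av.card + 2 := by
      rw [hAv']
      exact (card_insert_le _ _).trans (Nat.succ_le_succ (card_insert_le _ _))
    -- choose the previous outer vertex
    have hex : ∃ o ∈ lev K N s Bad ρ j, K o (N v) ∧ o ∉ Av' ∧ N o ∉ Av' := by
      by_contra hcon
      push Not at hcon
      have hsub : (lev K N s Bad ρ j).filter (fun o => K o (N v)) ⊆ Av' ∪ Av'.image N := by
        intro o ho
        rw [mem_filter] at ho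
        rw [mem_union]
        by_cases h1 : o ∈ Av'
        · exact Or.inl h1
        · right
          rw [mem_image]
          exact ⟨N o, hcon o ho.1 ho.2 h1, hN o⟩
      have h1 := card_le_card hsub
      have h2 : (Av' ∪ Av'.image N).card ≤ Av'.card + Av'.card :=
        (card_union_le _ _).trans (Nat.add_le_add_left card_image_le _)
      omega
    obtain ⟨o, hoL, hoK, hoA, hNoA⟩ := hex
    obtain ⟨N', T, hinv, hTA, hsT, hoT, hTc, hNo, hout, hin, hTcl, hTB⟩ :=
      ih o hoL Av' hoA hNoA (by
        rw [hAv']
        simp only [mem_insert, not_or]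
        exact ⟨hsv, hsNv, hsA⟩) (by omega)
    rw [disjoint_left] at hTA
    have hvT : v ∉ T := fun h => hTA h (by rw [hAv']; simp)
    have hNvT : N v ∉ T := fun h => hTA h (by rw [hAv']; simp)
    have hN'v : N' v = N v := hout v hvT
    have hov : o ≠ v := fun h => hvT (h ▸ hoT)
    have hoNv : o ≠ N v := fun h => hNvT (h ▸ hoT)
    refine ⟨shift N' o v, insert v (insert (N v) T),
      shift_inv N' hinv o v hNo (by rw [hN'v]; exact hNv) hov, ?_, ?_, ?_, ?_, ?_, ?_, ?_, ?_, ?_⟩
    · rw [disjoint_left]
      intro u hu
      simp only [mem_insert] at hu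
      rcases hu with rfl | rfl | hu
      · exact hvA
      · exact hNvA
      · intro h
        exact hTA hu (by rw [hAv']; simp [h])
    · simp [hsT]
    · simp
    · have h1 := card_insert_le v (insert (N v) T)
      have h2 := card_insert_le (N v) T
      omega
    · simp [shift]
    · intro u hu
      simp only [mem_insert, not_or] at hu
      obtain ⟨hu1, hu2, hu3⟩ := hu
      have hu4 : u ≠ o := fun h => hu3 (h ▸ hoT)
      simp only [shift, hN'v, if_neg hu1, if_neg hu2, if_neg hu4]
      exact hout u hu3
    · intro u hu huv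
      simp only [shift, hN'v, if_neg huv]
      by_cases hu2 : u = N v
      · simp only [hu2, if_true]
        exact hKs _ _ hoK
      · simp only [if_neg hu2]
        by_cases hu3 : u = o
        · simp only [hu3, if_true]
          exact hoK
        · simp only [if_neg hu3]
          simp only [mem_insert, if_neg huv] at hu
          rcases hu with h | h | h
          · exact absurd h huv
          · exact absurd h hu2
          · exact hin u h hu3
    · intro u hu
      simp only [shift, hN'v]
      by_cases hu1 : u = v
      · simp [hu1]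
      · by_cases hu2 : u = N v
        · simp [hu2, hNv, hoT]
        · by_cases hu3 : u = o
          · simp [hu3, hov, hoNv]
          · simp only [if_neg hu1, if_neg hu2, if_neg hu3]
            simp only [mem_insert] at hu
            rcases hu with h | h | h
            · exact absurd h hu1
            · exact absurd h hu2
            · simp [hTcl u h]
    · intro u hu hus
      simp only [mem_insert] at hu
      rcases hu with rfl | rfl | h
      · exact hvB
      · exact hNvB
      · exact hTB u h hus

open Classical in
/-- REACH -/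
theorem reach (K : V → V → Prop) (hKs : ∀ u v, K u v → K v u) (N : V → V)
    (hN : ∀ u, N (N u) = u) (S : Finset V)
    (hS : ∀ v ∈ S, ∀ w, K v w → N w ≠ w → N w ∈ S) (Bad : Finset V)
    (hBad : ∀ v, N v = v → v ∈ Bad) (hBadN : ∀ v ∈ Bad, N v ∈ Bad)
    (s t : V) (hst : s ≠ t) (hs : N s = s) (ht : N t = t) (hsS : s ∈ S)
    (htS : ∀ w, K w t → w ∈ S) (a a' g e1 e2 e3 ρ J : ℕ)
    (hds : a ≤ (univ.filter fun w => K s w).card) (hdt : a ≤ (univ.filter fun w => K w t).card)
    (hrob : ∀ O : Finset V, O ⊆ S → ∀ I : Finset V, a' ≤ O.card → I.card ≤ O.card + e1 →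
      ((O ×ˢ Iᶜ).filter fun p => K p.1 p.2).card ≤ e2 → (S \ O).card ≤ e3)
    (h1 : a' + Bad.card ≤ a) (h2 : g + Bad.card ≤ e1) (h3 : Fintype.card V < J * (g + 1))
    (h4 : Fintype.card V * (J * ρ) ≤ e2) (h5 : J * ρ + e3 ≤ a) (h6 : 2 * (2 * J + 3) < ρ) :
    ∃ (N' : V → V) (T : Finset V), (∀ u, N' (N' u) = u) ∧ s ∈ T ∧ t ∈ T ∧ T.card ≤ 2 * J + 4 ∧
      (∀ u, u ∉ T → N' u = N u) ∧ (∀ u ∈ T, K u (N' u)) ∧ (∀ u ∈ T, N' u ∈ T) ∧
      (∀ u ∈ T, u ≠ s → u ≠ t → u ∉ Bad) := by
  have hsB : s ∈ Bad := hBad s hs
  have htB : t ∈ Bad := hBad t ht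
  set L := lev K N s Bad ρ with hL
  have hLS : ∀ j, L j ⊆ S := by
    intro j
    induction j with
    | zero =>
      intro v hv
      rw [hL, mem_lev_zero] at hv
      have hNv : N v ≠ v := fun h => hv.1 (hBad v h)
      have := hS s hsS (N v) hv.2 (by rw [hN]; exact hNv.symm)
      rwa [hN] at this
    | succ j ih =>
      intro v hv
      rw [hL, mem_lev_succ] at hv
      have hNv : N v ≠ v := fun h => hv.1 (hBad v h)
      have hne : ((lev K N s Bad ρ j).filter fun o => K o (N v)).Nonempty := by
        rw [← card_pos]
        omega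
      obtain ⟨o, ho⟩ := hne
      rw [mem_filter] at ho
      have := hS o (ih ho.1) (N v) ho.2 (by rw [hN]; exact hNv.symm)
      rwa [hN] at this
  set O : ℕ → Finset V := fun j => (range (j + 1)).biUnion L with hO
  have hOmem : ∀ j v, v ∈ O j ↔ ∃ i, i ≤ j ∧ v ∈ L i := by
    intro j v
    rw [hO]
    simp only [mem_biUnion, mem_range, Nat.lt_succ_iff]
  have hOS : ∀ j, O j ⊆ S := by
    intro j v hv
    obtain ⟨i, -, hi⟩ := (hOmem j v).1 hv
    exact hLS i hi
  -- first level is large
  have hL0 : a' ≤ (L 0).card := by
    have hsub : (univ.filter fun w => K s w) \ Bad ⊆ (L 0).image N := by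
      intro w hw
      rw [mem_sdiff, mem_filter] at hw
      rw [mem_image]
      refine ⟨N w, ?_, hN w⟩
      rw [hL, mem_lev_zero, hN]
      refine ⟨fun h => hw.2 ?_, hw.1.2⟩
      have := hBadN _ h
      rwa [hN] at this
    have h7 := card_le_card hsub
    have h8 : ((L 0).image N).card ≤ (L 0).card := card_image_le
    have h9 := le_card_sdiff Bad (univ.filter fun w => K s w)
    omega
  have hO0 : ∀ j, a' ≤ (O j).card := by
    intro j
    refine hL0.trans (card_le_card ?_)
    intro v hv
    exact (hOmem j v).2 ⟨0, Nat.zero_le _, hv⟩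
  -- the growth stops
  have hgrow : ∃ j < J, (O (j + 1)).card ≤ (O j).card + g := by
    by_contra hcon
    push Not at hcon
    have h7 : ∀ j ≤ J, j * (g + 1) ≤ (O j).card := by
      intro j hj
      induction j with
      | zero => simp
      | succ j ih =>
        have h8 := ih (by omega)
        have h9 := hcon j (by omega)
        rw [Nat.succ_mul]
        omega
    have h8 := h7 J le_rfl
    have h9 : (O J).card ≤ Fintype.card V := card_le_univ _
    omega
  obtain ⟨j, hjJ, hj⟩ := hgrow
  -- pigeon hole
  have hpig : ∀ w, J * ρ ≤ ((O j).filter fun o => K o w).card →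
      ∃ i ≤ j, ρ ≤ ((L i).filter fun o => K o w).card := by
    intro w hw
    by_contra hcon
    push Not at hcon
    have h7 : ((O j).filter fun o => K o w) ⊆
        (range (j + 1)).biUnion (fun i => (L i).filter fun o => K o w) := by
      intro o ho
      rw [mem_filter] at ho
      obtain ⟨i, hi, hoi⟩ := (hOmem j o).1 ho.1
      rw [mem_biUnion]
      exact ⟨i, mem_range.2 (by omega), mem_filter.2 ⟨hoi, ho.2⟩⟩
    have h8 := (card_le_card h7).trans card_biUnion_le
    have h9 : ∑ i ∈ range (j + 1), ((L i).filter fun o => K o w).card ≤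
        ∑ i ∈ range (j + 1), (ρ - 1) := by
      refine sum_le_sum fun i hi => ?_
      have := hcon i (by rw [mem_range] at hi; omega)
      omega
    rw [sum_const, card_range, smul_eq_mul] at h9
    have h10 : (j + 1) * (ρ - 1) ≤ J * (ρ - 1) := Nat.mul_le_mul_right _ (by omega)
    have h11 : J * (ρ - 1) < J * ρ := Nat.mul_lt_mul_of_pos_left (by omega) (by omega)
    omega
  -- the inner set
  set I : Finset V := univ.filter fun w => J * ρ ≤ ((O j).filter fun o => K o w).card with hI
  have hIc : I.card ≤ (O j).card + e1 := by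
    have h7 : I \ Bad ⊆ (O (j + 1)).image N := by
      intro w hw
      rw [mem_sdiff, hI, mem_filter] at hw
      obtain ⟨i, hi, hρi⟩ := hpig w hw.1.2
      rw [mem_image]
      refine ⟨N w, (hOmem _ _).2 ⟨i + 1, by omega, ?_⟩, hN w⟩
      rw [hL, mem_lev_succ, hN]
      refine ⟨fun h => hw.2 ?_, hρi⟩
      have := hBadN _ h
      rwa [hN] at this
    have h8 := (card_le_card h7).trans card_image_le
    have h9 := le_card_sdiff Bad I
    omega
  have hIe : ((O j ×ˢ Iᶜ).filter fun p => K p.1 p.2).card ≤ e2 := by
    have h7 : ((O j ×ˢ Iᶜ).filter fun p => K p.1 p.2).card =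
        ∑ w ∈ Iᶜ, ((O j).filter fun o => K o w).card := by
      rw [card_filter, sum_product_right]
      refine sum_congr rfl fun w _ => ?_
      rw [card_filter]
    rw [h7]
    refine le_trans ?_ h4
    calc ∑ w ∈ Iᶜ, ((O j).filter fun o => K o w).card ≤ ∑ w ∈ Iᶜ, J * ρ := by
          refine sum_le_sum fun w hw => ?_
          rw [mem_compl, hI, mem_filter, not_and, not_le] at hw
          exact (hw (mem_univ _)).le
      _ = Iᶜ.card * (J * ρ) := by rw [sum_const, smul_eq_mul]
      _ ≤ Fintype.card V * (J * ρ) := Nat.mul_le_mul_right _ (card_le_univ _)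
  have hSO := hrob (O j) (hOS j) I (hO0 j) hIc hIe
  -- the last edge
  have hlast : J * ρ ≤ ((O j).filter fun o => K o t).card := by
    have h7 : (univ.filter fun w => K w t) ⊆ ((O j).filter fun o => K o t) ∪ (S \ O j) := by
      intro w hw
      rw [mem_filter] at hw
      rw [mem_union, mem_filter, mem_sdiff]
      by_cases h : w ∈ O j
      · exact Or.inl ⟨h, hw.2⟩
      · exact Or.inr ⟨htS w hw.2, h⟩
    have h8 := (card_le_card h7).trans (card_union_le _ _)
    omega
  obtain ⟨i, hij, hρi⟩ := hpig t hlast
  have hne : ((L i).filter fun o => K o t).Nonempty := by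
    rw [← card_pos]
    omega
  obtain ⟨o, ho⟩ := hne
  rw [mem_filter] at ho
  have hoB : o ∉ Bad := lev_notBad K N s Bad ρ i o ho.1
  have hot : o ≠ t := fun h => hoB (h ▸ htB)
  have hNot : N o ≠ t := by
    intro h
    apply hot
    rw [← hN o, h, ht]
  obtain ⟨N', T, hinv, hTA, hsT, hoT, hTc, hNo, hout, hin, hTcl, hTB⟩ :=
    transfer K hKs N hN s hs Bad hBad hBadN ρ i o ho.1 {t} (by simpa using hot)
      (by simpa using hNot) (by simpa using hst) (by rw [card_singleton]; omega)
  have htT : t ∉ T := by
    rw [disjoint_left] at hTA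
    intro h
    exact hTA h (mem_singleton_self t)
  have hN't : N' t = t := by rw [hout t htT, ht]
  refine ⟨join N' o t, insert t T, join_inv N' hinv o t hNo hN't hot, by simp [hsT], by simp, ?_,
    ?_, ?_, ?_, ?_⟩
  · have := card_insert_le t T
    omega
  · intro u hu
    simp only [mem_insert, not_or] at hu
    have hu4 : u ≠ o := fun h => hu.2 (h ▸ hoT)
    simp only [join, if_neg hu4, if_neg hu.1]
    exact hout u hu.2
  · intro u hu
    by_cases hu1 : u = o
    · subst hu1
      simp only [join, if_true]
      exact ho.2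
    · by_cases hu2 : u = t
      · subst hu2
        simp only [join, if_neg hu1, if_true]
        exact hKs _ _ ho.2
      · simp only [join, if_neg hu1, if_neg hu2]
        rw [mem_insert] at hu
        rcases hu with h | h
        · exact absurd h hu2
        · exact hin u h hu1
  · intro u hu
    by_cases hu1 : u = o
    · simp [join, hu1]
    · by_cases hu2 : u = t
      · simp [join, hu2, hot.symm, hoT]
      · simp only [join, if_neg hu1, if_neg hu2]
        rw [mem_insert] at hu
        rcases hu with h | h
        · exact absurd h hu2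
        · simp [hTcl u h]
  · intro u hu hus hut
    rw [mem_insert] at hu
    rcases hu with h | h
    · exact absurd h hut
    · exact hTB u h hus

end Pool.Agent.Work.MP_db9399_da_helper72
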