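import Pool.Agent.Work.MP_db9399_da_helper72.Stm

/-!
# Statements of the sub-blocks RN, RB, RP of LBN (helper72)

`Col G R B t`: `t` is a proper edge colouring of `G - R` and `B v` is exactly the set of the colours at
`v`.  `RO`: rounds theorem for a host graph `G` (reserve `Con`, a sample of `G` with rate `r`).  `ROP`:
the same for the two parts of a piece (cross edges, every part has its own palette).
-/

set_option autoImplicit false

namespace Pool.Agent.Work.MP_db9399_da_helper72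

open Finset Classical

universe u

section defs
variable {V : Type u}

/-- `t` colours the edges of `G` outside `R`; the set of the colours at `v` is `B v`. -/
structure Col (G R : SimpleGraph V) (B : V → Finset ℕ) (t : V → V → ℕ) : Prop where
  le : ∀ v w, R.Adj v w → G.Adj v w
  sym : ∀ v w, t v w = t w v
  col : ∀ v w, G.Adj v w → ¬ R.Adj v w → t v w ∈ B v
  inj : ∀ v w w', G.Adj v w → ¬ R.Adj v w → G.Adj v w' → ¬ R.Adj v w' → t v w = t v w' → w = w'
  ful : ∀ v, ∀ b ∈ B v, ∃ w, G.Adj v w ∧ ¬ R.Adj v w ∧ t v w = b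

variable [Fintype V]

/-- vertices of the side `β` in the part `i` -/
noncomputable def qt (sd pt : V → Bool) (β i : Bool) : Finset V :=
  univ.filter fun v => sd v = β ∧ pt v = i

/-- vertices of the part `i` -/
noncomputable def pr (pt : V → Bool) (i : Bool) : Finset V := univ.filter fun v => pt v = i

/-- Rounds for the host graph `G`: `Con` is a sample of `G` with rate `r`, `G1` is almost regular, the
holes `D b` are small and satisfy `par`. -/
def RO (G : SimpleGraph V) (par : Finset V → Prop) (r ν ε : ℝ) : Prop :=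
  ∀ (G1 Con : SimpleGraph V) (B : Finset ℕ) (D : ℕ → Finset V) (w e : ℕ),
    (∀ x y, Con.Adj x y → G.Adj x y) → (∀ x y, G1.Adj x y → G.Adj x y ∧ ¬ Con.Adj x y) →
    (∀ A A' : Finset V, |(ee Con A A' : ℝ) - r * ee G A A'| ≤ ε * (Fintype.card V : ℝ) ^ 2) →
    (∀ v, |(dg Con v univ : ℝ) - r * dg G v univ| ≤ ε * Fintype.card V) →
    ν * Fintype.card V ≤ (B.card : ℝ) → B.card ≤ Fintype.card V →
    (∀ v, dg G1 v univ ≤ B.card + w) → (∀ v, B.card + w ≤ dg G1 v univ + e) →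
    (e : ℝ) + 1 ≤ ε * ((w : ℝ) + 1) → (e : ℝ) + 1 ≤ ε * Fintype.card V →
    (∀ b ∈ B, ((D b).card : ℝ) ≤ ε * Fintype.card V) →
    (∀ v, ((B.filter fun b => v ∈ D b).card : ℝ) ≤ ε * Fintype.card V) →
    (∀ b ∈ B, par (D b)) →
    ∃ (R : SimpleGraph V) (t : V → V → ℕ), Col (G1 ⊔ Con) R (fun v => B.filter fun b => v ∉ D b) t

/-- Rounds for both parts: palette `B i`, numbers `w i`, `e i` for the part `i`. -/
def ROP (H : SimpleGraph V) (sd pt : V → Bool) (r ν ε : ℝ) : Prop :=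
  ∀ (G1 Con : SimpleGraph V) (B : Bool → Finset ℕ) (D : ℕ → Finset V) (w e : Bool → ℕ),
    (∀ x y, Con.Adj x y → H.Adj x y) → (∀ x y, G1.Adj x y → H.Adj x y ∧ ¬ Con.Adj x y) →
    (∀ A A' : Finset V, |(ee Con A A' : ℝ) - r * ee H A A'| ≤ ε * (Fintype.card V : ℝ) ^ 2) →
    (∀ v, |(dg Con v univ : ℝ) - r * dg H v univ| ≤ ε * Fintype.card V) →
    (∀ i, ν * Fintype.card V ≤ ((B i).card : ℝ)) → (∀ i, 4 * (B i).card ≤ Fintype.card V) →
    (∀ v, dg G1 v univ ≤ (B (pt v)).card + w (pt v)) →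
    (∀ v, (B (pt v)).card + w (pt v) ≤ dg G1 v univ + e (pt v)) →
    (∀ i, (e i : ℝ) + 1 ≤ ε * ((w i : ℝ) + 1)) → (∀ i, (e i : ℝ) + 1 ≤ ε * Fintype.card V) →
    (∀ i, ∀ b ∈ B i, ((D b ∩ pr pt i).card : ℝ) ≤ ε * Fintype.card V) →
    (∀ v, (((B (pt v)).filter fun b => v ∈ D b).card : ℝ) ≤ ε * Fintype.card V) →
    (∀ i, ∀ b ∈ B i, (qt sd pt false i \ D b).card = (qt sd pt true i \ D b).card) →
    ∃ (R : SimpleGraph V) (t : V → V → ℕ),
      Col (G1 ⊔ Con) R (fun v => (B (pt v)).filter fun b => v ∉ D b) t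

end defs

/-- RN: rounds in a piece of type N. PROOF from `rounds` (`Rounds.lean`) with `S = univ`,
`β = {b // b ∈ B}`: `γ = r / (2 C)`, `ν` small. Robustness: `e_Con(O, Iᶜ) ≤ ν m²` gives `e(O, Iᶜ) ≤ (ν + ε) m² / r`;
almost regular: `e(I, Oᶜ) = e(I, V) - e(I, O)` is small too; put `J = O ∩ I`: the cut condition for `J` (at most
`e(O, Iᶜ) + e(I, Oᶜ)` edges leave `J`) shows that `J` or `Jᶜ` is small; in the second case done; in the first case
the cut condition for `O ∪ I` shows that `V ∖ (O ∪ I)` is small (`|O| ≥ γ m / 4`), and `nbi` for `S = O` gives a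
contradiction. `hpair`: the number of fixed points outside `D b` is even. -/
def Stmt_RN : Prop :=
  ∀ C ρ r ν : ℝ, 1 ≤ C → 0 < ρ → 0 < r → r ≤ 1 → 0 < ν → ∃ (ε : ℝ) (m0 : ℕ), 0 < ε ∧
    ∀ (V : Type u) [Fintype V] (G : SimpleGraph V) (D0 : ℝ), m0 ≤ Fintype.card V →
      (Fintype.card V : ℝ) ≤ C * D0 →
      (∀ v, |(dg G v univ : ℝ) - D0| ≤ ε * Fintype.card V) →
      (∀ S : Finset V, ρ * S.card * (Sᶜ.card : ℝ) ≤ (ee G S Sᶜ : ℝ)) →
      (∀ S : Finset V, ρ * (Fintype.card V : ℝ) ^ 2 ≤ (ee G S S : ℝ) + ee G Sᶜ Sᶜ) →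
      RO G (fun D => Even (Dᶜ).card) r ν ε

/-- RB: rounds in a bipartite graph. PROOF from `rounds` with `S` = the side `false`. Robustness: `O ⊆ X`,
`I' = I ∩ Y`: `e(O, Y ∖ I') ≤ (ν + ε) m² / r`, `e(I', X ∖ O)` small since `|I'| ≤ |O| + ν m`; the cut condition for
`O ∪ I'` gives that `O ∪ I'` or its complement is small. `hpair`: equally many fixed points outside `D b` on both
sides. -/
def Stmt_RB : Prop :=
  ∀ C ρ r ν : ℝ, 1 ≤ C → 0 < ρ → 0 < r → r ≤ 1 → 0 < ν → ∃ (ε : ℝ) (m0 : ℕ), 0 < ε ∧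
    ∀ (V : Type u) [Fintype V] (G : SimpleGraph V) (sd : V → Bool) (D0 : ℝ),
      m0 ≤ Fintype.card V → (Fintype.card V : ℝ) ≤ C * D0 → (∀ v w, G.Adj v w → sd v ≠ sd w) →
      (∀ v, |(dg G v univ : ℝ) - D0| ≤ ε * Fintype.card V) →
      (∀ S : Finset V, ρ * S.card * (Sᶜ.card : ℝ) ≤ (ee G S Sᶜ : ℝ)) →
      RO G (fun D => ((univ.filter fun v => sd v = false) \ D).card =
        ((univ.filter fun v => sd v = true) \ D).card) r ν ε

/-- RP: rounds in both parts (from RB on the types `{v // pt v = i}`). -/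
def Stmt_RP : Prop :=
  ∀ C ρ r ν : ℝ, 1 ≤ C → 0 < ρ → 0 < r → r ≤ 1 → 0 < ν → ∃ (ε : ℝ) (m0 : ℕ), 0 < ε ∧
    ∀ (V : Type u) [Fintype V] (H : SimpleGraph V) (sd pt : V → Bool) (D0 : ℝ),
      m0 ≤ Fintype.card V → (Fintype.card V : ℝ) ≤ C * D0 →
      (∀ v w, H.Adj v w → sd v ≠ sd w ∧ pt v = pt w) →
      (∀ i, Fintype.card V ≤ 4 * (pr pt i).card) →
      (∀ v, |(dg H v univ : ℝ) - D0| ≤ ε * Fintype.card V) →
      (∀ i, ∀ S ⊆ pr pt i, ρ * S.card * ((pr pt i \ S).card : ℝ) ≤ (ee H S (pr pt i \ S) : ℝ)) →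
      ROP H sd pt r ν ε

end Pool.Agent.Work.MP_db9399_da_helper72
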