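import Pool.Agent.Work.MP_db9399_da_helper72.Prep
import Pool.Agent.Work.MP_db9399_da_helper72.Core

/-!
# ROUNDS (helper72)

`G` is almost regular (degree between `|β| + w - e` and `|β| + w`), `Con` is a robust reserve, `D b` are
small holes.  There are disjoint matchings `f b` (`b : β`) in `G ∪ Con` which cover exactly the
vertices outside `D b`.
-/

set_option autoImplicit false

namespace Pool.Agent.Work.MP_db9399_da_helper72

open Finset Classical

universe u v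

theorem sq_le_two_pow : ∀ n : ℕ, 4 ≤ n → n ^ 2 ≤ 2 ^ n := by
  intro n hn
  induction n, hn using Nat.le_induction with
  | base => norm_num
  | succ n hn ih =>
    have h1 : (n + 1) ^ 2 ≤ 2 * n ^ 2 := by nlinarith
    calc (n + 1) ^ 2 ≤ 2 * n ^ 2 := h1
      _ ≤ 2 * 2 ^ n := Nat.mul_le_mul_left _ ih
      _ = 2 ^ (n + 1) := by rw [pow_succ]; ring

section aux

theorem rn1 {ε m : ℝ} (h : 0 < ε) (hm : 0 < m) (h1 : ε ≤ 1) (h2 : 100 ≤ ε ^ 2 * m) :
    100 ≤ ε * m := by nlinarith [mul_pos h hm]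

theorem rn2 {ν m : ℝ} (h : 0 < ν) (h1 : ν ≤ 1) (hm : 0 < m) :
    2 * m * (ν ^ 2 / 2000) ≤ ν * m / 1000 := by
  have : ν ^ 2 ≤ ν := by nlinarith
  nlinarith

theorem rn3 {m e w r x : ℝ} (h2 : m * (e + 1) ≤ x) (h3 : x ≤ (r + 1) * (w + 1)) (h4 : 0 < r + 1) :
    m * (e + 1) < (w + 2) * (r + 1) := by nlinarith

theorem rn4 {ε m : ℝ} (h : 100 ≤ ε ^ 2 * m) (hm : 0 < m) : m < (ε * m) ^ 2 := by
  have : (ε * m) ^ 2 = (ε ^ 2 * m) * m := by ring
  rw [this]
  nlinarith

theorem rn5 {m ν x y z : ℝ} (h : x ≤ y + z) (h1 : y ≤ ν * m ^ 2 / 2) (h3 : z ≤ m * (ν * m / 2)) :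
    x ≤ ν * m ^ 2 := by nlinarith

theorem rn6 {m ν x : ℝ} (h : x ≤ m * (ν * m / 8)) (hm : 0 < m) (hν : 0 < ν) :
    x ≤ ν * m ^ 2 / 2 := by nlinarith [mul_pos (mul_pos hm hm) hν]

theorem rn7 {J ρ x : ℝ} (hJ : 64 ≤ J) (hx : 1000 * (J + 2) ^ 2 ≤ x) (h : x ≤ 8 * J * (ρ + 1)) :
    2 * (2 * J + 3) < ρ := by
  by_contra hcon
  push Not at hcon
  have h2 : 8 * J * (ρ + 1) ≤ 8 * J * (2 * (2 * J + 3) + 1) :=
    mul_le_mul_of_nonneg_left (by linarith) (by linarith)
  nlinarith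

end aux

/-- ROUNDS, general form -/
theorem rounds (hPerm : Stmt_PERM.{u}) (γ ν : ℝ) (hγ : 0 < γ) (hγ1 : γ ≤ 1) (hν : 0 < ν)
    (hνγ : ν ≤ γ / 16) :
    ∃ (ε : ℝ) (m0 : ℕ), 0 < ε ∧ ∀ (V : Type u) [Fintype V] (β : Type v) [Fintype β]
      (G Con : SimpleGraph V) (S : Finset V) (D : β → Finset V) (w e : ℕ),
      m0 ≤ Fintype.card V → (∀ x y, G.Adj x y → ¬ Con.Adj x y) →
      (Fintype.card β : ℝ) ≤ Fintype.card V → ν * Fintype.card V ≤ (Fintype.card β : ℝ) →
      (∀ v, dg G v univ ≤ Fintype.card β + w) → (∀ v, Fintype.card β + w ≤ dg G v univ + e) →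
      (e : ℝ) + 1 ≤ ε * ((w : ℝ) + 1) → (e : ℝ) + 1 ≤ ε * Fintype.card V →
      (∀ b, ((D b).card : ℝ) ≤ ε * Fintype.card V) →
      (∀ v, ((univ.filter fun b => v ∈ D b).card : ℝ) ≤ ε * Fintype.card V) →
      (∀ v, γ * Fintype.card V ≤ (dg Con v univ : ℝ)) →
      (∀ O : Finset V, O ⊆ S → ∀ I : Finset V, γ / 4 * Fintype.card V ≤ (O.card : ℝ) →
        (I.card : ℝ) ≤ O.card + ν * Fintype.card V →
        (ee Con O Iᶜ : ℝ) ≤ ν * (Fintype.card V : ℝ) ^ 2 →
        ((S \ O).card : ℝ) ≤ γ / 4 * Fintype.card V) →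
      (∀ v ∈ S, ∀ y, Con.Adj v y → ∀ z, (Con.Adj y z ∨ G.Adj y z) → z ∈ S) →
      (∀ b, ∀ f : V → V, (∀ v, f (f v) = v) → (∀ v ∈ D b, f v = v) →
        (∀ v, f v ≠ v → G.Adj v (f v) ∨ Con.Adj v (f v)) → (∃ v, v ∉ D b ∧ f v = v) →
        ∃ s t, s ≠ t ∧ s ∉ D b ∧ t ∉ D b ∧ f s = s ∧ f t = t ∧ s ∈ S ∧
          ∀ y, Con.Adj y t → y ∈ S) →
      ∃ f : β → V → V, (∀ b v, f b (f b v) = v) ∧ (∀ b v, f b v = v ↔ v ∈ D b) ∧
        (∀ b v, v ∉ D b → G.Adj v (f b v) ∨ Con.Adj v (f b v)) ∧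
        ∀ b b' v, b ≠ b' → f b v = f b' v → f b v = v := by
  set J : ℕ := ⌈4 / ν⌉₊ with hJ
  have hJ1 : 4 / ν ≤ (J : ℝ) := Nat.le_ceil _
  have hν1 : ν ≤ 1 / 16 := by linarith
  have hJ64 : (64 : ℝ) ≤ J := by
    refine le_trans ?_ hJ1
    rw [le_div_iff₀ hν]
    linarith
  have hJpos : (0 : ℝ) < J := by linarith
  set ε : ℝ := ν ^ 2 / (2000 * ((J : ℝ) + 2)) with hε
  have hε0 : 0 < ε := by positivity
  have hεJ : ((J : ℝ) + 2) * ε = ν ^ 2 / 2000 := by
    rw [hε]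
    field_simp
  have hεν : ε ≤ ν / 2000 := by
    have h1 : ε * 66 ≤ ν ^ 2 / 2000 := by
      rw [← hεJ]
      nlinarith
    nlinarith
  refine ⟨ε, ⌈1000 * ((J : ℝ) + 2) ^ 2 / ν⌉₊ + ⌈100 / ε ^ 2⌉₊ + 1, hε0, ?_⟩
  intro V _ β _ G Con S D w e hm hdisj hβ1 hβ2 hG hG' he hem hD hDv hdeg hrob hcl hpair
  obtain ⟨m, hmdef⟩ : ∃ m : ℕ, Fintype.card V = m := ⟨_, rfl⟩
  rw [hmdef] at hm
  simp only [hmdef] at hβ1 hβ2 hem hD hDv hdeg hrob
  have hmR1 : 1000 * ((J : ℝ) + 2) ^ 2 / ν ≤ m := by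
    refine (Nat.le_ceil _).trans ?_
    have : ⌈1000 * ((J : ℝ) + 2) ^ 2 / ν⌉₊ ≤ m := by omega
    exact_mod_cast this
  have hmR2 : 100 / ε ^ 2 ≤ m := by
    refine (Nat.le_ceil _).trans ?_
    have : ⌈100 / ε ^ 2⌉₊ ≤ m := by omega
    exact_mod_cast this
  have hm1 : 1 ≤ m := by omega
  have hmpos : (0 : ℝ) < m := by exact_mod_cast hm1
  have hνm : 1000 * ((J : ℝ) + 2) ^ 2 ≤ ν * m := by
    rw [div_le_iff₀ hν] at hmR1
    linarith
  have hνm' : (1000 * 66 ^ 2 : ℝ) ≤ ν * m := by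
    refine le_trans ?_ hνm
    have : (66 : ℝ) ^ 2 ≤ ((J : ℝ) + 2) ^ 2 := by nlinarith
    linarith
  have hε2m : 100 ≤ ε ^ 2 * m := by
    rw [div_le_iff₀ (by positivity)] at hmR2
    linarith
  have hε1 : ε ≤ 1 / 32000 := by linarith
  have hεm : 100 ≤ ε * m := rn1 hε0 hmpos (by linarith) hε2m
  -- the numbers
  set r : ℕ := ⌊ε * m⌋₊ with hr
  have hr1 : (r : ℝ) ≤ ε * m := Nat.floor_le (by positivity)
  have hr2 : ε * m < r + 1 := Nat.lt_floor_add_one _
  set g : ℕ := ⌊ν * m / 2⌋₊ with hg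
  have hg1 : (g : ℝ) ≤ ν * m / 2 := Nat.floor_le (by positivity)
  have hg2 : ν * m / 2 < g + 1 := Nat.lt_floor_add_one _
  set h : ℕ := ⌊ν * m / 16⌋₊ with hh
  have hh1 : (h : ℝ) ≤ ν * m / 16 := Nat.floor_le (by positivity)
  have hh2 : ν * m / 16 < h + 1 := Nat.lt_floor_add_one _
  set ρ : ℕ := ⌊ν * m / (8 * J)⌋₊ with hρ
  have hρ1 : (ρ : ℝ) ≤ ν * m / (8 * J) := Nat.floor_le (by positivity)
  have hρ2 : ν * m / (8 * J) < ρ + 1 := Nat.lt_floor_add_one _
  have hρJ : (J : ℝ) * ρ ≤ ν * m / 8 := by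
    have : (J : ℝ) * ρ ≤ J * (ν * m / (8 * J)) := mul_le_mul_of_nonneg_left hρ1 hJpos.le
    refine this.trans (le_of_eq ?_)
    field_simp
  have hρJ2 : ν * m ≤ 8 * J * (ρ + 1) := by
    rw [div_lt_iff₀ (by positivity)] at hρ2
    linarith
  set e2 : ℕ := ⌊ν * m ^ 2 / 2⌋₊ with he2
  have he21 : (e2 : ℝ) ≤ ν * m ^ 2 / 2 := Nat.floor_le (by positivity)
  set e1 : ℕ := ⌊ν * m⌋₊ with he1
  have he11 : (e1 : ℝ) ≤ ν * m := Nat.floor_le (by positivity)
  have he12 : ν * m < e1 + 1 := Nat.lt_floor_add_one _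
  set a : ℕ := ⌊3 / 4 * γ * m⌋₊ with ha
  have ha1 : (a : ℝ) ≤ 3 / 4 * γ * m := Nat.floor_le (by positivity)
  have ha2 : 3 / 4 * γ * m < a + 1 := Nat.lt_floor_add_one _
  set a' : ℕ := ⌈γ / 4 * m⌉₊ with ha'
  have ha'1 : γ / 4 * m ≤ (a' : ℝ) := Nat.le_ceil _
  have ha'2 : (a' : ℝ) < γ / 4 * m + 1 := Nat.ceil_lt_add_one (by positivity)
  set e3 : ℕ := ⌊γ / 4 * m⌋₊ with he3
  have he31 : (e3 : ℝ) ≤ γ / 4 * m := Nat.floor_le (by positivity)
  set k : ℕ := 16 * r + 1 with hk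
  set u0 : ℕ := r + r with hu0
  have hu01 : (u0 : ℝ) ≤ 2 * (ε * m) := by
    rw [hu0]
    push_cast
    linarith
  set r0 : ℕ := e + 1 + k with hr0
  have hr01 : (r0 : ℝ) ≤ ν * m / 64 := by
    rw [hr0, hk]
    push_cast
    have : ε * m ≤ ν * m / 2000 := by
      have := mul_le_mul_of_nonneg_right hεν hmpos.le
      linarith
    linarith
  set H : ℕ := ⌈32 * ((J : ℝ) + 2) * u0 / ν⌉₊ with hH
  have hH1 : 32 * ((J : ℝ) + 2) * u0 / ν ≤ H := Nat.le_ceil _
  have hH2 : (H : ℝ) < 32 * ((J : ℝ) + 2) * u0 / ν + 1 := Nat.ceil_lt_add_one (by positivity)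
  have hH3 : (H : ℝ) ≤ 64 * ν * m / 2000 + 1 := by
    have h1 : 32 * ((J : ℝ) + 2) * u0 / ν ≤ 64 * ν * m / 2000 := by
      rw [div_le_iff₀ hν]
      have h2 : 32 * ((J : ℝ) + 2) * u0 ≤ 32 * ((J : ℝ) + 2) * (2 * (ε * m)) :=
        mul_le_mul_of_nonneg_left hu01 (by positivity)
      refine h2.trans (le_of_eq ?_)
      have : 32 * ((J : ℝ) + 2) * (2 * (ε * m)) = 64 * m * (((J : ℝ) + 2) * ε) := by ring
      rw [this, hεJ]
      ring
    linarith
  set B : ℕ := r + u0 + (J + 2) * u0 + 2 * H with hB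
  have hB1 : (B : ℝ) ≤ ν * m / 8 := by
    rw [hB]
    push_cast
    have h1 : ((J : ℝ) + 2) * u0 ≤ 2 * m * (ν ^ 2 / 2000) := by
      rw [← hεJ]
      have := mul_le_mul_of_nonneg_left hu01 (by positivity : (0 : ℝ) ≤ (J : ℝ) + 2)
      linarith
    have h2 : 2 * m * (ν ^ 2 / 2000) ≤ ν * m / 1000 := rn2 hν (by linarith) hmpos
    have h3 : ε * m ≤ ν * m / 2000 := by
      have := mul_le_mul_of_nonneg_right hεν hmpos.le
      linarith
    linarith
  -- PREP
  obtain ⟨N0, hN0, hN0D, hN0G, hN0dis, hN0U, hN0r⟩ := prep hPerm G D w e r r r k hG hG'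
    (by
      have h1 : (m : ℝ) * (e + 1) < (w + 2) * (r + 1) := by
        have h2 : (m : ℝ) * (e + 1) ≤ m * (ε * (w + 1)) :=
          mul_le_mul_of_nonneg_left he hmpos.le
        have h3 : (m : ℝ) * (ε * (w + 1)) ≤ (r + 1) * (w + 1) := by
          have : (m : ℝ) * (ε * (w + 1)) = (ε * m) * (w + 1) := by ring
          rw [this]
          exact mul_le_mul_of_nonneg_right hr2.le (by positivity)
        have h4 : (0 : ℝ) < r + 1 := by positivity
        exact rn3 h2 h3 h4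
      rw [hmdef]
      exact_mod_cast h1)
    (fun b => Nat.le_floor (hD b)) (fun v => Nat.le_floor (hDv v)) (by omega) (by omega)
    (by
      have : (2 * k : ℝ) ≤ Fintype.card β := by
        rw [hk]
        push_cast
        have : ε * m ≤ ν * m / 2000 := by
          have := mul_le_mul_of_nonneg_right hεν hmpos.le
          linarith
        linarith
      exact_mod_cast this)
    (by
      rw [hmdef]
      have h1 : k ^ 2 ≤ 2 ^ k := by
        refine sq_le_two_pow k ?_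
        have : (4 : ℝ) ≤ k := by
          rw [hk]
          push_cast
          linarith
        exact_mod_cast this
      refine lt_of_lt_of_le ?_ h1
      have h2 : (m : ℝ) < (k : ℝ) ^ 2 := by
        have h3 : ε * m ≤ k := by
          rw [hk]
          push_cast
          linarith
        have h4 : (ε * m) ^ 2 ≤ (k : ℝ) ^ 2 := pow_le_pow_left₀ (by positivity) h3 2
        have h5 : (m : ℝ) < (ε * m) ^ 2 := rn4 hε2m hmpos
        exact lt_of_lt_of_le h5 h4
      exact_mod_cast h2)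
  -- CORE
  obtain ⟨f, hf1, hf2, hf3, hf4⟩ := core (fun x y => Con.Adj x y) (fun x y h => h.symm)
    (fun x h => Con.loopless.irrefl x h) S D N0 hN0 hN0D hN0dis
    (by
      intro b x h1
      by_cases h2 : N0 b x = x
      · rw [h2] at h1
        exact Con.loopless.irrefl x h1
      · exact hdisj _ _ (hN0G b x h2) h1)
    (by
      intro x hx y hxy z hz hzy
      refine hcl x hx y hxy z ?_
      rcases hz with hz | ⟨b, hb⟩
      · exact Or.inl hz
      · right
        rw [← hb]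
        refine hN0G b y ?_
        rw [hb]
        exact hzy)
    (by
      intro b f h1 h2 h3 h4
      refine hpair b f h1 h2 ?_ h4
      intro x hx
      rcases h3 x with h5 | h5 | h5
      · exact absurd h5 hx
      · left
        rw [h5]
        exact hN0G b x (by rw [← h5]; exact hx)
      · exact Or.inr h5)
    a a' g e1 e2 e3 ρ J h r0 u0 r H
    (by
      intro x
      have h1 := hdeg x
      have h2 : ((a + h + r0 : ℕ) : ℝ) ≤ ((univ.filter fun y => Con.Adj x y).card : ℝ) := by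
        refine le_trans ?_ h1
        push_cast
        have : ν * m ≤ γ * m / 16 := by
          have := mul_le_mul_of_nonneg_right hνγ hmpos.le
          linarith
        have : 0 < γ * m := by positivity
        linarith
      exact_mod_cast h2)
    (by
      intro O hO I hO' hI hE
      refine Nat.le_floor (hrob O hO I ?_ ?_ ?_)
      · have : (a' : ℝ) ≤ O.card := by exact_mod_cast hO'
        linarith
      · have : (I.card : ℝ) ≤ (O.card : ℝ) + e1 := by exact_mod_cast hI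
        linarith
      · rw [hmdef] at hE
        have h1 : (((O ×ˢ Iᶜ).filter fun p => Con.Adj p.1 p.2).card : ℝ) ≤
            (e2 : ℝ) + m * (h + r0) := by exact_mod_cast hE
        have h2 : (ee Con O Iᶜ : ℝ) = (((O ×ˢ Iᶜ).filter fun p => Con.Adj p.1 p.2).card : ℝ) := by
          unfold ee
          congr!
        rw [h2]
        have h3 : (m : ℝ) * (h + r0) ≤ m * (ν * m / 2) := by
          refine mul_le_mul_of_nonneg_left ?_ hmpos.le
          have : 0 < ν * m := by positivity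
          linarith
        exact rn5 h1 he21 h3)
    (fun b => Nat.le_floor (hD b)) hN0U hN0r
    (by
      have : (1 : ℝ) ≤ h := by linarith
      have : 1 ≤ h := by exact_mod_cast this
      omega)
    (by
      have h1 : (Fintype.card β : ℝ) * (((J : ℝ) + 2) * u0) ≤ h * H := by
        have h2 : ν * m / 32 ≤ (h : ℝ) := by linarith
        have h3 : (Fintype.card β : ℝ) * (((J : ℝ) + 2) * u0) ≤ m * (((J : ℝ) + 2) * u0) :=
          mul_le_mul_of_nonneg_right hβ1 (by positivity)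
        have h4 : (ν * m / 32) * (32 * ((J : ℝ) + 2) * u0 / ν) = m * (((J : ℝ) + 2) * u0) := by
          field_simp
        rw [← h4] at h3
        refine h3.trans ?_
        exact mul_le_mul h2 hH1 (by positivity) (by positivity)
      exact_mod_cast h1)
    (by
      have h1 : ((a' + B : ℕ) : ℝ) ≤ a := by
        push_cast
        have : ν * m ≤ γ * m / 16 := by
          have := mul_le_mul_of_nonneg_right hνγ hmpos.le
          linarith
        linarith
      exact_mod_cast h1)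
    (by
      have h1 : ((g + B : ℕ) : ℝ) ≤ e1 := by
        push_cast
        linarith
      exact_mod_cast h1)
    (by
      rw [hmdef]
      have h1 : (m : ℝ) < J * (g + 1) := by
        have h2 : (4 / ν) * (ν * m / 2) ≤ J * (g + 1) :=
          mul_le_mul hJ1 hg2.le (by positivity) (by positivity)
        have h3 : (4 / ν) * (ν * m / 2) = 2 * m := by
          field_simp
          ring
        linarith
      exact_mod_cast h1)
    (by
      rw [hmdef]
      refine Nat.le_floor ?_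
      push_cast
      have : (m : ℝ) * (J * ρ) ≤ m * (ν * m / 8) := mul_le_mul_of_nonneg_left hρJ hmpos.le
      exact rn6 this hmpos hν)
    (by
      have h1 : ((J * ρ + e3 : ℕ) : ℝ) ≤ a := by
        push_cast
        have : ν * m ≤ γ * m / 16 := by
          have := mul_le_mul_of_nonneg_right hνγ hmpos.le
          linarith
        linarith
      exact_mod_cast h1)
    (by
      have h1 : (2 * (2 * J + 3) : ℝ) < ρ := rn7 hJ64 hνm hρJ2
      exact_mod_cast h1)
  refine ⟨f, hf1, hf2, fun b x hx => ?_, hf4⟩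
  rcases hf3 b x hx with h1 | h1
  · left
    rw [h1]
    refine hN0G b x ?_
    rw [← h1]
    intro h2
    exact hx ((hf2 b x).1 h2)
  · exact Or.inr h1

end Pool.Agent.Work.MP_db9399_da_helper72
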