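import Pool.Agent.Work.MP_db9399_da_helper72.Spl
import Pool.Agent.Work.MP_db9399_da_helper72.Num

/-!
# STA: stage A (helper72)
-/

set_option autoImplicit false

namespace Pool.Agent.Work.MP_db9399_da_helper72

open Finset Classical

universe u

theorem PP_card (d : ℕ) (Q : Bool → Finset ℕ) (P2 : Finset ℕ) (hQ : ∀ i, Q i ⊆ range (d + 2))
    (hP : P2 ⊆ range (d + 2)) (hQQ : Disjoint (Q false) (Q true)) (hQP : ∀ i, Disjoint (Q i) P2) :
    (PP d Q P2).card + ((Q false).card + (Q true).card + P2.card) = d + 2 := by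
  have h1 : Q false ∪ Q true ∪ P2 ⊆ range (d + 2) := union_subset (union_subset (hQ _) (hQ _)) hP
  have h2 : (Q false ∪ Q true ∪ P2).card = (Q false).card + (Q true).card + P2.card := by
    rw [card_union_of_disjoint, card_union_of_disjoint hQQ]
    rw [disjoint_union_left]
    exact ⟨hQP _, hQP _⟩
  have h3 := card_sdiff_add_card_eq_card h1
  rw [card_range] at h3
  unfold PP
  omega

section
variable {V : Type u} [Fintype V]

theorem dg_le_of_le {G H : SimpleGraph V} (h : ∀ v w, G.Adj v w → H.Adj v w) (v : V) (Z : Finset V) :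
    dg G v Z ≤ dg H v Z :=
  card_le_card fun w hw => by
    rw [mem_filter] at hw ⊢
    exact ⟨hw.1, h _ _ hw.2⟩

theorem dg_sup {G H : SimpleGraph V} (h : ∀ v w, G.Adj v w → ¬ H.Adj v w) (v : V) (Z : Finset V) :
    dg (G ⊔ H) v Z = dg G v Z + dg H v Z := by
  unfold dg
  rw [← card_union_of_disjoint]
  · congr 1
    ext w
    simp only [mem_filter, mem_union, SimpleGraph.sup_adj]
    tauto
  · rw [disjoint_left]
    intro w hw hw'
    rw [mem_filter] at hw hw'
    exact h _ _ hw.2 hw'.2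

theorem BB_card (d D : ℕ) (G : SimpleGraph V) (Q : Bool → Finset ℕ) (P2 : Finset ℕ)
    (F : V → Finset ℕ) (W : ℕ → Finset V)
    (hW : ∀ v, ((PP d Q P2).filter fun b => v ∈ W b).card ≤ 1) (v : V) :
    (PP d Q P2).card ≤ (BB d Q P2 F W v).card + (F v).card + 1 := by
  have h : PP d Q P2 ⊆ BB d Q P2 F W v ∪ F v ∪ (PP d Q P2).filter fun b => v ∈ W b := by
    intro b hb
    simp only [BB, mem_union, mem_filter]
    by_cases h1 : b ∈ F v
    · exact Or.inl (Or.inr h1)
    · by_cases h2 : v ∈ W b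
      · exact Or.inr ⟨hb, h2⟩
      · exact Or.inl (Or.inl ⟨hb, h1, h2⟩)
  have h1 := card_le_card h
  have h2 := card_union_le (BB d Q P2 F W v ∪ F v) ((PP d Q P2).filter fun b => v ∈ W b)
  have h3 := card_union_le (BB d Q P2 F W v) (F v)
  have h4 := hW v
  omega

/-- the rounds of stage A and the degree of the rest -/
theorem staA (C σ π κ θ ι' ε1 : ℝ) (K k2 : ℕ) (hC : 1 ≤ C) (hσ : σ = 2 ∨ σ = 4) (hκ : 0 < κ)
    (hκ1 : κ ≤ 1 / 100) (hπ : 0 < π) (hπ1 : π ≤ 1 / 100) (hK : 100 ≤ K * κ)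
    (hk2 : (k2 : ℝ) ≤ κ * K) (hε1 : 0 < ε1) (hθ0 : 0 < θ) (hι0 : 0 < ι')
    (hθ : θ ≤ min ε1 1 / (64 * K)) (hι : ι' ≤ min ε1 1 / (96 * K * C)) (hθ1 : θ ≤ 1 / 4)
    (hιε : ι' ≤ ε1) (hθε : 2 * θ ≤ ε1)
    (G N0 : SimpleGraph V) (d D s : ℕ) (sd pt : V → Bool)
    (Q : Bool → Finset ℕ) (P2 : Finset ℕ) (F : V → Finset ℕ) (W : ℕ → Finset V)
    (par : Finset V → Prop) (hd1 : 100 * K ≤ d) (hd2 : 40 * K / min ε1 1 ≤ (d : ℝ))
    (hd3 : 1 ≤ θ * d)
    (hI : SI G N0 d D s C σ π κ θ sd pt Q P2 F W) (hRO : RO G par (1 / K) (1 / (2 * C)) ε1)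
    (hpar : ∀ b ∈ PP d Q P2, par (univ.filter fun v => b ∈ F v ∨ v ∈ W b)) :
    ∃ k3 : ℕ, 1 + k2 + k3 ≤ K ∧ κ * K ≤ (k3 : ℝ) ∧ ∀ Con1 Con2 Fr : SimpleGraph V,
        (∀ v w, Con1.Adj v w → G.Adj v w ∧ ¬ N0.Adj v w ∧ ¬ Con2.Adj v w ∧ ¬ Fr.Adj v w) →
        (∀ v w, Con2.Adj v w → (crs G sd pt).Adj v w ∧ ¬ N0.Adj v w ∧ ¬ Fr.Adj v w) →
        (∀ v w, Fr.Adj v w → (crs G sd pt).Adj v w ∧ ¬ N0.Adj v w) →
        (∀ A B : Finset V, |(ee Con1 A B : ℝ) - 1 / K * ee G A B| ≤
          ι' * (Fintype.card V : ℝ) ^ 2) →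
        (∀ v, |(dg Con1 v univ : ℝ) - 1 / K * dg G v univ| ≤ ι' * Fintype.card V) →
        (∀ v, |(dg Con2 v univ : ℝ) - k2 / K * dg (crs G sd pt) v univ| ≤
          ι' * Fintype.card V) →
        (∀ v, |(dg Fr v univ : ℝ) - k3 / K * dg (crs G sd pt) v univ| ≤ ι' * Fintype.card V) →
        ∃ (G1 R : SimpleGraph V) (t : V → V → ℕ),
          (∀ v w, G1.Adj v w ↔ G.Adj v w ∧ ¬ Con1.Adj v w ∧ ¬ Con2.Adj v w ∧ ¬ Fr.Adj v w ∧
            ¬ N0.Adj v w) ∧
          Col (G1 ⊔ Con1) R (fun v => BB d Q P2 F W v) t ∧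
          ∀ v, (dg R v univ : ℝ) ≤ 5 * d / K := by
  have hK0 : (0 : ℝ) < K := by
    by_contra h
    have : (K : ℝ) ≤ 0 := not_lt.1 h
    nlinarith
  have hKbig : (10000 : ℝ) ≤ K := by nlinarith
  have hdR : 100 * (K : ℝ) ≤ d := by exact_mod_cast hd1
  have hd0 : (0 : ℝ) < d := by linarith
  obtain ⟨ε', hε'⟩ : ∃ x : ℝ, x = min ε1 1 := ⟨_, rfl⟩
  rw [← hε'] at hθ hι hd2
  have hε'0 : 0 < ε' := by rw [hε']; exact lt_min hε1 one_pos
  have hε'1 : ε' ≤ 1 := by rw [hε']; exact min_le_right _ _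
  have hε'2 : ε' ≤ ε1 := by rw [hε']; exact min_le_left _ _
  obtain ⟨m, hm⟩ : ∃ x : ℝ, x = Fintype.card V := ⟨_, rfl⟩
  have hmC : m ≤ C * d := by rw [hm]; exact hI.VC
  have hmd : (d : ℝ) + 2 ≤ m := by rw [hm]; exact_mod_cast hI.Vl
  have hm0 : 0 < m := by linarith
  -- the number of colours
  obtain ⟨q, hq⟩ : ∃ q : ℕ, q = (Q false).card + (Q true).card + P2.card := ⟨_, rfl⟩
  have hPP := PP_card d Q P2 hI.Qlt hI.Plt hI.QQ hI.QP
  rw [← hq] at hPP
  have hPPR : ((PP d Q P2).card : ℝ) = d + 2 - q := by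
    have : ((PP d Q P2).card : ℝ) + q = d + 2 := by exact_mod_cast hPP
    linarith
  have hqR : (q : ℝ) = (Q false).card + (Q true).card + P2.card := by rw [hq]; push_cast; ring
  have hq1 : (2 * κ + π) * d ≤ q := by
    rw [hqR]
    have h1 := (hI.Qc false).1
    have h2 := (hI.Qc true).1
    have h3 := hI.Pc.1
    nlinarith
  have hq2 : (q : ℝ) ≤ (4 * κ + 2 * π) * d := by
    rw [hqR]
    have h1 := (hI.Qc false).2
    have h2 := (hI.Qc true).2
    have h3 := hI.Pc.2
    nlinarith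
  -- the error
  have hιm0 : 0 ≤ ι' * m := by positivity
  have hθd0 : 0 ≤ θ * d := by positivity
  obtain ⟨y, hy⟩ : ∃ y : ℝ, y = ε' * d / K := ⟨_, rfl⟩
  have hy40 : 40 ≤ y := by
    rw [hy, le_div_iff₀ hK0]
    rw [div_le_iff₀ hε'0] at hd2
    linarith
  have hyd : y ≤ d / K := by
    rw [hy]
    apply div_le_div_of_nonneg_right _ hK0.le
    exact mul_le_of_le_one_left hd0.le hε'1
  have hθd : θ * d ≤ y / 64 := by
    have := mul_le_mul_of_nonneg_right hθ hd0.le
    refine this.trans (le_of_eq ?_)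
    rw [hy]
    field_simp
  have hιm : ι' * m ≤ y / 96 := by
    have h1 : ι' * m ≤ ε' / (96 * K * C) * (C * d) :=
      mul_le_mul hι hmC hm0.le (by positivity)
    refine h1.trans (le_of_eq ?_)
    rw [hy]
    field_simp
  obtain ⟨η, hη⟩ : ∃ η : ℝ, η = 2 * (θ * d) + 3 * (ι' * m) + 1 := ⟨_, rfl⟩
  have hη0 : 0 ≤ η := by rw [hη]; positivity
  have hη1 : 2 * η + 3 ≤ y / 4 := by rw [hη]; linarith
  have hη2 : η + 1 ≤ (d : ℝ) / (4 * K) := by
    have : (d : ℝ) / (4 * K) = d / K / 4 := by field_simp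
    rw [this]
    linarith
  obtain ⟨k3, w, hk3, hk3', hcen, hw1, hw2⟩ := num σ κ π η K k2 d D q hσ hκ hκ1 hπ hπ1 hK hk2 hq1
    hq2 hI.Dd hd1 hη0 hη2
  refine ⟨k3, hk3, hk3', ?_⟩
  intro Con1 Con2 Fr hC1 hC2 hFr hs1 hd1' hd2' hd3'
  rw [← hm] at hs1 hd1' hd2' hd3'
  -- the graph
  let G1 : SimpleGraph V :=
    { Adj := fun v w => G.Adj v w ∧ ¬ Con1.Adj v w ∧ ¬ Con2.Adj v w ∧ ¬ Fr.Adj v w ∧ ¬ N0.Adj v w
      symm := ⟨fun v w h => ⟨h.1.symm, fun h' => h.2.1 h'.symm, fun h' => h.2.2.1 h'.symm,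
        fun h' => h.2.2.2.1 h'.symm, fun h' => h.2.2.2.2 h'.symm⟩⟩
      loopless := ⟨fun v h => G.loopless.irrefl v h.1⟩ }
  have hG1 : ∀ v w, G1.Adj v w ↔ G.Adj v w ∧ ¬ Con1.Adj v w ∧ ¬ Con2.Adj v w ∧ ¬ Fr.Adj v w ∧
      ¬ N0.Adj v w := fun v w => Iff.rfl
  -- degrees
  have hsum : ∀ v, dg G1 v univ + dg Con1 v univ + dg Con2 v univ + dg Fr v univ +
      dg N0 v univ = dg G v univ := by
    intro v
    have e1 : G = (((G1 ⊔ Con1) ⊔ Con2) ⊔ Fr) ⊔ N0 := by
      ext a b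
      simp only [SimpleGraph.sup_adj, hG1]
      constructor
      · intro h
        by_cases h1 : Con1.Adj a b
        · exact Or.inl (Or.inl (Or.inl (Or.inr h1)))
        by_cases h2 : Con2.Adj a b
        · exact Or.inl (Or.inl (Or.inr h2))
        by_cases h3 : Fr.Adj a b
        · exact Or.inl (Or.inr h3)
        by_cases h4 : N0.Adj a b
        · exact Or.inr h4
        exact Or.inl (Or.inl (Or.inl (Or.inl ⟨h, h1, h2, h3, h4⟩)))
      · rintro ((((h | h) | h) | h) | h)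
        · exact h.1
        · exact (hC1 _ _ h).1
        · exact (hC2 _ _ h).1.1
        · exact (hFr _ _ h).1.1
        · exact (hI.N0c _ _ h).1
    have e2 : dg G v univ = dg ((((G1 ⊔ Con1) ⊔ Con2) ⊔ Fr) ⊔ N0) v univ := by rw [← e1]
    rw [e2, dg_sup, dg_sup, dg_sup, dg_sup]
    · intro a b h h'
      exact h.2.1 h'
    · rintro a b (h | h) h'
      · exact h.2.2.1 h'
      · exact (hC1 _ _ h).2.2.1 h'
    · rintro a b ((h | h) | h) h'
      · exact h.2.2.2.1 h'
      · exact (hC1 _ _ h).2.2.2 h'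
      · exact (hC2 _ _ h).2.2 h'
    · rintro a b (((h | h) | h) | h) h'
      · exact h.2.2.2.2 h'
      · exact (hC1 _ _ h).2.1 h'
      · exact (hC2 _ _ h).2.1 h'
      · exact (hFr _ _ h).2 h'
  have hk3K : ((k2 : ℝ) + k3) / K ≤ 1 := by
    rw [div_le_one hK0]
    have : ((1 + k2 + k3 : ℕ) : ℝ) ≤ K := by exact_mod_cast hk3
    push_cast at this
    linarith
  have hDK : (D : ℝ) / K ≤ d / K + 1 := by
    have h1 : (D : ℝ) ≤ d + 1 := by
      rcases hI.Dd with h | h <;> rw [h]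
      · linarith
      · push_cast
        linarith
    have : (D : ℝ) / K ≤ (d + K) / K := by
      apply div_le_div_of_nonneg_right _ hK0.le
      linarith
    refine this.trans (le_of_eq ?_)
    field_simp
  have hC1d : ∀ v, (dg Con1 v univ : ℝ) ≤ d / K + 1 + ι' * m := by
    intro v
    have h1 := (abs_le.1 (hd1' v)).2
    have h2 : (dg G v univ : ℝ) ≤ D := by
      have := hI.deg v
      have : dg G v univ ≤ D := by omega
      exact_mod_cast this
    have h3 : 1 / (K : ℝ) * dg G v univ ≤ D / K := by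
      rw [one_div, inv_mul_eq_div]
      exact div_le_div_of_nonneg_right h2 hK0.le
    linarith
  have hcent : ∀ v, |(dg G1 v univ : ℝ) - (D - D / K - (k2 + k3) * d / (K * σ))| ≤ η := by
    intro v
    have h0 : (dg G1 v univ : ℝ) + dg Con1 v univ + dg Con2 v univ + dg Fr v univ +
      dg N0 v univ = dg G v univ := by exact_mod_cast hsum v
    have h1 := abs_le.1 (hd1' v)
    have h2 := abs_le.1 (hd2' v)
    have h3 := abs_le.1 (hd3' v)
    have h4 : (dg N0 v univ : ℝ) ≤ 1 := by exact_mod_cast hI.N0m v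
    have h4' : (0 : ℝ) ≤ dg N0 v univ := Nat.cast_nonneg _
    have h5 : (dg G v univ : ℝ) + (F v).card = D := by exact_mod_cast hI.deg v
    have h6 := hI.Fx v
    have h6' : (0 : ℝ) ≤ (F v).card := Nat.cast_nonneg _
    have h7 := abs_le.1 (hI.crd v)
    obtain ⟨x, hx⟩ : ∃ x : ℝ, x = dg (crs G sd pt) v univ := ⟨_, rfl⟩
    rw [← hx] at h2 h3 h7
    obtain ⟨a, ha⟩ : ∃ a : ℝ, a = ((k2 : ℝ) + k3) / K := ⟨_, rfl⟩
    rw [← ha] at hk3K
    have ha0 : 0 ≤ a := by rw [ha]; positivity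
    have e1 : (k2 : ℝ) / K * x + k3 / K * x = a * x := by rw [ha]; ring
    have hσ0 : 0 < σ := by rcases hσ with h | h <;> rw [h] <;> norm_num
    have e2 : ((k2 : ℝ) + k3) * d / (K * σ) = a * (d / σ) := by
      rw [ha]
      field_simp
    rw [e2]
    have e3 : |a * x - a * (d / σ)| ≤ θ * d := by
      rw [← mul_sub, abs_mul, abs_of_nonneg ha0]
      have : |x - d / σ| ≤ θ * d := abs_le.2 h7
      calc a * |x - d / σ| ≤ 1 * (θ * d) := mul_le_mul hk3K this (abs_nonneg _) zero_le_one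
        _ = θ * d := one_mul _
    have e4 := abs_le.1 e3
    have e5 : 1 / (K : ℝ) * dg G v univ = (D - (F v).card) / K := by
      rw [← h5]
      ring
    rw [e5] at h1
    have e6 : ((D : ℝ) - (F v).card) / K = D / K - (F v).card / K := by ring
    rw [e6] at h1
    have e7 : ((F v).card : ℝ) / K ≤ (F v).card :=
      div_le_self h6' (by linarith only [hKbig])
    have e8 : (0 : ℝ) ≤ ((F v).card : ℝ) / K := by positivity
    rw [abs_le]
    constructor
    · rw [hη]
      linarith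
    · rw [hη]
      linarith
  -- apply the rounds
  obtain ⟨e, he⟩ : ∃ e : ℕ, e = ⌈2 * η + 1⌉₊ := ⟨_, rfl⟩
  have he1 : 2 * η + 1 ≤ e := by rw [he]; exact Nat.le_ceil _
  have he2 : (e : ℝ) ≤ 2 * η + 2 := by
    rw [he]
    have := (Nat.ceil_lt_add_one (show 0 ≤ 2 * η + 1 by linarith)).le
    linarith
  have hy2 : y / 4 ≤ ε1 * (d / K) := by
    have : y = ε' * (d / K) := by rw [hy]; ring
    have h1 : ε' * ((d : ℝ) / K) ≤ ε1 * (d / K) := mul_le_mul_of_nonneg_right hε'2 (by positivity)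
    linarith
  have hRO' := hRO G1 Con1 (PP d Q P2) (fun b => univ.filter fun v => b ∈ F v ∨ v ∈ W b) w e
    (fun x y h => (hC1 x y h).1) (fun x y h => ⟨h.1, h.2.1⟩)
    (by
      intro A B
      rw [← hm]
      refine (hs1 A B).trans ?_
      exact mul_le_mul_of_nonneg_right hιε (by positivity))
    (by
      intro v
      rw [← hm]
      refine (hd1' v).trans ?_
      exact mul_le_mul_of_nonneg_right hιε hm0.le)
    (by
      rw [← hm, hPPR]
      have h1 : 1 / (2 * C) * m ≤ d / 2 := by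
        have h2 : 1 / (2 * C) * m ≤ 1 / (2 * C) * (C * d) :=
          mul_le_mul_of_nonneg_left hmC (by positivity)
        refine h2.trans (le_of_eq ?_)
        field_simp
      have h2 : (q : ℝ) ≤ 6 / 100 * d :=
        hq2.trans (mul_le_mul_of_nonneg_right (by linarith only [hκ1, hπ1]) hd0.le)
      linarith)
    (by
      have := hI.Vl
      omega)
    (by
      intro v
      have h1 := (hcen _ (hcent v)).1
      rw [← hPPR] at h1
      exact_mod_cast h1)
    (by
      intro v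
      have h1 := (hcen _ (hcent v)).2
      rw [← hPPR] at h1
      have h2 : ((PP d Q P2).card : ℝ) + w ≤ dg G1 v univ + e := by linarith
      exact_mod_cast h2)
    (by
      have h1 : ε1 * ((d : ℝ) / K) ≤ ε1 * (w + 1) := mul_le_mul_of_nonneg_left hw1 hε1.le
      linarith)
    (by
      rw [← hm]
      have h1 : (d : ℝ) / K ≤ m :=
        (div_le_self hd0.le (by linarith only [hKbig])).trans (by linarith only [hmd])
      have h2 : ε1 * ((d : ℝ) / K) ≤ ε1 * m := mul_le_mul_of_nonneg_left h1 hε1.le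
      linarith)
    (by
      intro b hb
      have h1 : ((univ.filter fun v => b ∈ F v ∨ v ∈ W b).card : ℝ) ≤
          (univ.filter fun v => b ∈ F v).card + (W b).card := by
        have : (univ.filter fun v => b ∈ F v ∨ v ∈ W b) ⊆ (univ.filter fun v => b ∈ F v) ∪ W b := by
          intro v hv
          rw [mem_filter] at hv
          rcases hv.2 with h | h
          · exact mem_union_left _ (mem_filter.2 ⟨mem_univ _, h⟩)
          · exact mem_union_right _ h
        have := (card_le_card this).trans (card_union_le _ _)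
        exact_mod_cast this
      have h2 := hI.load b
      have h3 := hI.Wx b hb
      rw [← hm]
      have h4 : 2 * θ * d ≤ ε1 * m := mul_le_mul hθε (by linarith) hd0.le hε1.le
      linarith)
    (by
      intro v
      have h1 : (((PP d Q P2).filter fun b => v ∈ univ.filter fun v => b ∈ F v ∨ v ∈ W b).card : ℝ) ≤
          (F v).card + 1 := by
        have h2 : ((PP d Q P2).filter fun b => v ∈ univ.filter fun v => b ∈ F v ∨ v ∈ W b) ⊆
            F v ∪ (PP d Q P2).filter fun b => v ∈ W b := by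
          intro b hb
          simp only [mem_filter, mem_univ, true_and] at hb
          rcases hb.2 with h | h
          · exact mem_union_left _ h
          · exact mem_union_right _ (mem_filter.2 ⟨hb.1, h⟩)
        have h3 := (card_le_card h2).trans (card_union_le _ _)
        have h4 := hI.W1 v
        have h5 := h3.trans (Nat.add_le_add_left h4 _)
        exact_mod_cast h5
      have h2 := hI.Fx v
      rw [← hm]
      have h4 : 2 * θ * d ≤ ε1 * m := mul_le_mul hθε (by linarith) hd0.le hε1.le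
      linarith)
    hpar
  obtain ⟨R, t, hCol⟩ := hRO'
  have hBB : (fun v => (PP d Q P2).filter fun b => v ∉ univ.filter fun v => b ∈ F v ∨ v ∈ W b) =
      fun v => BB d Q P2 F W v := by
    funext v
    unfold BB
    refine filter_congr fun b _ => ?_
    simp only [mem_filter, mem_univ, true_and, not_or]
  rw [hBB] at hCol
  refine ⟨G1, R, t, hG1, hCol, ?_⟩
  intro v
  have h1 := hCol.card v
  rw [dg_sup (fun a b (h : G1.Adj a b) h' => h.2.1 h')] at h1
  have h2 := BB_card d D G Q P2 F W hI.W1 v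
  have h3 := (hcen _ (hcent v)).1
  rw [← hPPR] at h3
  have h4 := hC1d v
  have h5 := hI.Fx v
  have h1R : (dg R v univ : ℝ) + (BB d Q P2 F W v).card = dg G1 v univ + dg Con1 v univ := by
    exact_mod_cast h1
  have h2R : ((PP d Q P2).card : ℝ) ≤ (BB d Q P2 F W v).card + (F v).card + 1 := by exact_mod_cast h2
  have e1 : (3 : ℝ) * d / K = 3 * (d / K) := by ring
  have e2 : (5 : ℝ) * d / K = 5 * (d / K) := by ring
  rw [e1] at hw2
  rw [e2]
  linarith

end

end Pool.Agent.Work.MP_db9399_da_helper72
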