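import Pool.Agent.Work.MP_db9399_da_helper72.Lab

/-!
# Three samples from SPLIT (helper72)
-/

set_option autoImplicit false

namespace Pool.Agent.Work.MP_db9399_da_helper72

open Finset Classical

universe u

theorem spl (hS : Stmt_SPLIT.{u}) (K : ℕ) (ι : ℝ) (hK : 0 < K) (hι : 0 < ι) :
    ∃ m0 : ℕ, ∀ (V : Type u) [Fintype V] (G N0 : SimpleGraph V) (sd pt : V → Bool)
      (Zs : Finset (Finset V)) (k2 k3 : ℕ), m0 ≤ Fintype.card V → Zs.card ≤ 10 →
      (∀ v, dg N0 v univ ≤ 1) → 1 + k2 + k3 ≤ K →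
      ∃ Con1 Con2 Fr : SimpleGraph V,
        (∀ v w, Con1.Adj v w → G.Adj v w ∧ ¬ N0.Adj v w ∧ ¬ Con2.Adj v w ∧ ¬ Fr.Adj v w) ∧
        (∀ v w, Con2.Adj v w → (crs G sd pt).Adj v w ∧ ¬ N0.Adj v w ∧ ¬ Fr.Adj v w) ∧
        (∀ v w, Fr.Adj v w → (crs G sd pt).Adj v w ∧ ¬ N0.Adj v w) ∧
        (∀ A B : Finset V, |(ee Con1 A B : ℝ) - 1 / K * ee G A B| ≤
          ι * (Fintype.card V : ℝ) ^ 2) ∧
        (∀ v, |(dg Con1 v univ : ℝ) - 1 / K * dg G v univ| ≤ ι * Fintype.card V) ∧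
        (∀ A B : Finset V, |(ee Con2 A B : ℝ) - k2 / K * ee (crs G sd pt) A B| ≤
          ι * (Fintype.card V : ℝ) ^ 2) ∧
        (∀ v, |(dg Con2 v univ : ℝ) - k2 / K * dg (crs G sd pt) v univ| ≤
          ι * Fintype.card V) ∧
        (∀ A B : Finset V, |(ee Fr A B : ℝ) - k3 / K * ee (crs G sd pt) A B| ≤
          ι * (Fintype.card V : ℝ) ^ 2) ∧
        (∀ v, |(dg Fr v univ : ℝ) - k3 / K * dg (crs G sd pt) v univ| ≤ ι * Fintype.card V) ∧
        (∀ v, ∀ Z ∈ Zs, |(dg Fr v Z : ℝ) - k3 / K * dg (crs G sd pt) v Z| ≤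
          ι * Fintype.card V) := by
  obtain ⟨m0, h0⟩ := hS K (ι / 8) hK (by positivity)
  refine ⟨m0 + 100 + ⌈8 / ι⌉₊, ?_⟩
  intro V _ G N0 sd pt Zs k2 k3 hm hZs hN0 hk
  set Z1 : Finset (Finset V) := insert univ Zs with hZ1
  set Z2 : Finset (Finset V) := insert univ
    ((Z1 ×ˢ (univ : Finset (Bool × Bool))).image fun p => p.1 ∩ qt sd pt p.2.1 p.2.2) with hZ2
  have hZ1c : Z1.card ≤ 11 := (card_insert_le _ _).trans (by omega)
  have hZ2c : Z2.card ≤ 45 := by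
    refine (card_insert_le _ _).trans ?_
    have : ((Z1 ×ˢ (univ : Finset (Bool × Bool))).image
        fun p => p.1 ∩ qt sd pt p.2.1 p.2.2).card ≤ 44 := by
      refine card_image_le.trans ?_
      rw [card_product]
      have : (univ : Finset (Bool × Bool)).card = 4 := by decide
      rw [this]
      omega
    omega
  obtain ⟨lab, hl1, hl2⟩ := h0 V G Z2 (by omega) (by omega)
  have hm1 : (1 : ℝ) ≤ Fintype.card V := by
    have : 1 ≤ Fintype.card V := by omega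
    exact_mod_cast this
  have hm2 : 8 / ι ≤ (Fintype.card V : ℝ) := by
    refine (Nat.le_ceil _).trans ?_
    have : ⌈8 / ι⌉₊ ≤ Fintype.card V := by omega
    exact_mod_cast this
  set m : ℝ := (Fintype.card V : ℝ) with hmdef
  have hιm : 1 ≤ ι / 8 * m := by
    rw [div_le_iff₀ hι] at hm2
    linarith
  have hιm2 : m ≤ ι / 8 * m ^ 2 := by nlinarith
  -- label sets
  obtain ⟨T, hT1, hT2⟩ : ∃ T : Finset (Fin K), T.card = 1 + k2 + k3 ∧ T ⊆ univ := by
    obtain ⟨T, h1, h2⟩ := exists_subset_card_eq (s := (univ : Finset (Fin K))) (n := 1 + k2 + k3)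
      (by rw [card_univ, Fintype.card_fin]; exact hk)
    exact ⟨T, h2, h1⟩
  obtain ⟨S1, hS1, hS1c⟩ := exists_subset_card_eq (s := T) (n := 1) (by omega)
  obtain ⟨S2, hS2, hS2c⟩ := exists_subset_card_eq (s := T \ S1) (n := k2)
    (by rw [card_sdiff_of_subset hS1]; omega)
  set S3 : Finset (Fin K) := (T \ S1) \ S2 with hS3
  have hS3c : S3.card = k3 := by
    rw [hS3, card_sdiff_of_subset hS2, card_sdiff_of_subset hS1]
    omega
  have h12 : ∀ c ∈ S1, c ∉ S2 := fun c hc hc' => (mem_sdiff.1 (hS2 hc')).2 hc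
  have h13 : ∀ c ∈ S1, c ∉ S3 := fun c hc hc' => (mem_sdiff.1 (mem_sdiff.1 hc').1).2 hc
  have h23 : ∀ c ∈ S2, c ∉ S3 := fun c hc hc' => (mem_sdiff.1 hc').2 hc
  -- estimates for label classes
  have hee : ∀ (S : Finset (Fin K)) (A B : Finset V),
      |(ee (labG G lab S) A B : ℝ) - (S.card : ℝ) / K * ee G A B| ≤ ι / 8 * m ^ 2 := by
    intro S A B
    rw [ee_labG]
    exact sum_near hK S _ _ _ (by positivity) fun c => hl1 c A B
  have hdg : ∀ (S : Finset (Fin K)) (v : V), ∀ Z ∈ Z2,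
      |(dg (labG G lab S) v Z : ℝ) - (S.card : ℝ) / K * dg G v Z| ≤ ι / 8 * m := by
    intro S v Z hZ
    rw [dg_labG]
    exact sum_near hK S _ _ _ (by positivity) fun c => hl2 c v Z hZ
  have hcee : ∀ (S : Finset (Fin K)) (A B : Finset V),
      |(ee (crs (labG G lab S) sd pt) A B : ℝ) - (S.card : ℝ) / K * ee (crs G sd pt) A B| ≤
        ι / 2 * m ^ 2 := by
    intro S A B
    rw [ee_crs, ee_crs]
    simp only [Fintype.sum_bool]
    have h1 := hee S (A ∩ qt sd pt true true) (B ∩ qt sd pt (!true) true)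
    have h2 := hee S (A ∩ qt sd pt true false) (B ∩ qt sd pt (!true) false)
    have h3 := hee S (A ∩ qt sd pt false true) (B ∩ qt sd pt (!false) true)
    have h4 := hee S (A ∩ qt sd pt false false) (B ∩ qt sd pt (!false) false)
    rw [abs_le] at *
    constructor <;> linarith
  have hcdg : ∀ (S : Finset (Fin K)) (v : V), ∀ Z ∈ Z1,
      |(dg (crs (labG G lab S) sd pt) v Z : ℝ) - (S.card : ℝ) / K * dg (crs G sd pt) v Z| ≤
        ι / 8 * m := by
    intro S v Z hZ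
    rw [dg_crs, dg_crs]
    refine hdg S v _ ?_
    rw [hZ2, mem_insert]
    right
    rw [mem_image]
    exact ⟨(Z, (!(sd v), pt v)), mem_product.2 ⟨hZ, mem_univ _⟩, rfl⟩
  have hree : ∀ (H : SimpleGraph V) (A B : Finset V) (x c : ℝ),
      |(ee H A B : ℝ) - x| ≤ c * m ^ 2 → |(ee (rem H N0) A B : ℝ) - x| ≤ (c + ι / 8) * m ^ 2 := by
    intro H A B x c h
    have h1 := ee_rem H N0 hN0 A B
    have h2 : (ee (rem H N0) A B : ℝ) ≤ ee H A B := by exact_mod_cast h1.1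
    have h3 : (ee H A B : ℝ) ≤ ee (rem H N0) A B + m := by
      rw [hmdef]
      exact_mod_cast h1.2
    rw [abs_le] at *
    constructor <;> nlinarith
  have hrdg : ∀ (H : SimpleGraph V) (v : V) (Z : Finset V) (x c : ℝ),
      |(dg H v Z : ℝ) - x| ≤ c * m → |(dg (rem H N0) v Z : ℝ) - x| ≤ (c + ι / 8) * m := by
    intro H v Z x c h
    have h1 := dg_rem H N0 hN0 v Z
    have h2 : (dg (rem H N0) v Z : ℝ) ≤ dg H v Z := by exact_mod_cast h1.1
    have h3 : (dg H v Z : ℝ) ≤ dg (rem H N0) v Z + 1 := by exact_mod_cast h1.2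
    rw [abs_le] at *
    constructor <;> nlinarith
  have hmm : 0 ≤ ι * m := by positivity
  have hmm2 : 0 ≤ ι * m ^ 2 := by positivity
  refine ⟨rem (labG G lab S1) N0, rem (crs (labG G lab S2) sd pt) N0,
    rem (crs (labG G lab S3) sd pt) N0, ?_, ?_, ?_, ?_, ?_, ?_, ?_, ?_, ?_, ?_⟩
  · rintro v w ⟨⟨h1, h2⟩, h3⟩
    exact ⟨h1, h3, fun h => h12 _ h2 h.1.1.2, fun h => h13 _ h2 h.1.1.2⟩
  · rintro v w ⟨⟨⟨h1, h2⟩, h4⟩, h3⟩
    exact ⟨⟨h1, h4⟩, h3, fun h => h23 _ h2 h.1.1.2⟩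
  · rintro v w ⟨⟨⟨h1, h2⟩, h4⟩, h3⟩
    exact ⟨⟨h1, h4⟩, h3⟩
  · intro A B
    have := hree _ A B _ _ (hee S1 A B)
    rw [hS1c, Nat.cast_one] at this
    refine this.trans ?_
    nlinarith
  · intro v
    have := hrdg _ v univ _ _ (hdg S1 v univ (mem_insert_self _ _))
    rw [hS1c, Nat.cast_one] at this
    refine this.trans ?_
    nlinarith
  · intro A B
    have := hree _ A B _ _ (hcee S2 A B)
    rw [hS2c] at this
    refine this.trans ?_
    nlinarith
  · intro v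
    have := hrdg _ v univ _ _ (hcdg S2 v univ (mem_insert_self _ _))
    rw [hS2c] at this
    refine this.trans ?_
    nlinarith
  · intro A B
    have := hree _ A B _ _ (hcee S3 A B)
    rw [hS3c] at this
    refine this.trans ?_
    nlinarith
  · intro v
    have := hrdg _ v univ _ _ (hcdg S3 v univ (mem_insert_self _ _))
    rw [hS3c] at this
    refine this.trans ?_
    nlinarith
  · intro v Z hZ
    have := hrdg _ v Z _ _ (hcdg S3 v Z (mem_insert_of_mem hZ))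
    rw [hS3c] at this
    refine this.trans ?_
    nlinarith

end Pool.Agent.Work.MP_db9399_da_helper72
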