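import Pool.Agent.Work.MP_db9399_da_helper72.ColG

/-!
# Statement of STA, stage A of LBN (helper72)

The rounds of `P1` and the leftover edges inside a side or between the parts.
-/

set_option autoImplicit false

namespace Pool.Agent.Work.MP_db9399_da_helper72

open Finset Classical

universe u

section defs
variable {V : Type u} [Fintype V]

/-- the colours of the first rounds -/
def PP (d : ℕ) (Q : Bool → Finset ℕ) (P2 : Finset ℕ) : Finset ℕ :=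
  range (d + 2) \ (Q false ∪ Q true ∪ P2)

/-- the colours of `P1` which occur at `v` -/
noncomputable def BB (d : ℕ) (Q : Bool → Finset ℕ) (P2 : Finset ℕ) (F : V → Finset ℕ)
    (W : ℕ → Finset V) (v : V) : Finset ℕ :=
  (PP d Q P2).filter fun b => b ∉ F v ∧ v ∉ W b

/-- Input of stage A (`σ = 4`, `D = d + 1` for type N, `σ = 2`, `D = d` for type B). `W b`: vertices
missed in the round `b`, `N0`: prescribed edges of the reserve. -/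
structure SI (G N0 : SimpleGraph V) (d D s : ℕ) (C σ π κ θ : ℝ) (sd pt : V → Bool)
    (Q : Bool → Finset ℕ) (P2 : Finset ℕ) (F : V → Finset ℕ) (W : ℕ → Finset V) : Prop where
  Dd : D = d ∨ D = d + 1
  deg : ∀ v, dg G v univ + (F v).card = D
  VC : (Fintype.card V : ℝ) ≤ C * d
  Vl : d + 2 ≤ Fintype.card V
  Fx : ∀ v, ((F v).card : ℝ) ≤ θ * d
  load : ∀ b, ((univ.filter fun v => b ∈ F v).card : ℝ) ≤ θ * d
  Qlt : ∀ i, Q i ⊆ range (d + 2)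
  Plt : P2 ⊆ range (d + 2)
  QQ : Disjoint (Q false) (Q true)
  QP : ∀ i, Disjoint (Q i) P2
  Qc : ∀ i, κ * d ≤ ((Q i).card : ℝ) ∧ ((Q i).card : ℝ) ≤ 2 * κ * d
  Pc : π * d ≤ (P2.card : ℝ) ∧ (P2.card : ℝ) ≤ 2 * π * d
  crd : ∀ v, |(dg (crs G sd pt) v univ : ℝ) - d / σ| ≤ θ * d
  N0c : ∀ v w, N0.Adj v w → (crs G sd pt).Adj v w
  N0m : ∀ v, dg N0 v univ ≤ 1
  Wx : ∀ b ∈ PP d Q P2, ((W b).card : ℝ) ≤ θ * d
  W1 : ∀ v, ((PP d Q P2).filter fun b => v ∈ W b).card ≤ 1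
  sgs : ∀ i, |∑ v ∈ univ.filter (fun v => pt v = i), sgv (sd v) *
    ((dg G v univ : ℤ) - (BB d Q P2 F W v).card)| ≤ (s : ℤ)
  sth : (s : ℝ) ≤ θ * d

/-- Result of stage A. `U`: uncoloured edges (cross edges), `Con2`: sample of the cross graph with rate
`r2` inside `U`, `L v`: colours of `P2` used at `v`. -/
structure SO (G N0 U Con2 : SimpleGraph V) (d : ℕ) (κ r2 lam ι : ℝ) (sd pt : V → Bool)
    (Q : Bool → Finset ℕ) (P2 : Finset ℕ) (F : V → Finset ℕ) (W : ℕ → Finset V)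
    (Zs : Finset (Finset V)) (L : V → Finset ℕ) (t : V → V → ℕ) : Prop where
  Uc : ∀ v w, U.Adj v w → (crs G sd pt).Adj v w
  N0U : ∀ v w, N0.Adj v w → U.Adj v w
  CU : ∀ v w, Con2.Adj v w → U.Adj v w ∧ ¬ N0.Adj v w
  sam : ∀ A A' : Finset V, |(ee Con2 A A' : ℝ) - r2 * ee (crs G sd pt) A A'| ≤
    ι * (Fintype.card V : ℝ) ^ 2
  sad : ∀ v, |(dg Con2 v univ : ℝ) - r2 * dg (crs G sd pt) v univ| ≤ ι * Fintype.card V
  fre : ∀ A A' : Finset V, κ * ee (crs G sd pt) A A' ≤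
    (((A ×ˢ A').filter fun p => U.Adj p.1 p.2 ∧ ¬ Con2.Adj p.1 p.2 ∧ ¬ N0.Adj p.1 p.2).card : ℝ) +
      ι * (Fintype.card V : ℝ) ^ 2
  frd : ∀ v, ∀ Z ∈ Zs, κ * dg (crs G sd pt) v Z ≤
    ((Z.filter fun w => U.Adj v w ∧ ¬ Con2.Adj v w ∧ ¬ N0.Adj v w).card : ℝ) +
      ι * Fintype.card V
  col : Col G U (fun v => BB d Q P2 F W v ∪ L v) t
  LP : ∀ v, L v ⊆ P2
  LF : ∀ v, Disjoint (L v) (F v)
  Lx : ∀ v, ((L v).card : ℝ) ≤ lam * d
  Ll : ∀ b ∈ P2, ((univ.filter fun v => b ∈ L v).card : ℝ) ≤ lam * d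
  Ls : ∀ b ∈ P2, ∀ i : Bool,
    |∑ v ∈ univ.filter (fun v => pt v = i ∧ b ∈ L v), sgv (sd v)| ≤ 2

end defs

/-- STA: stage A. `r1` is the rate of the reserve of the rounds of `P1`. -/
def Stmt_STA : Prop :=
  ∀ (C σ π κ lam ι : ℝ) (N2 : ℕ), 1 ≤ C → (σ = 2 ∨ σ = 4) → 0 < π → π ≤ 1 / 100 → 0 < κ →
    κ ≤ 1 / 100 → 0 < lam → lam ≤ 1 → 0 < ι → 1 ≤ N2 * κ → ∃ r1 : ℝ, 0 < r1 ∧ r1 ≤ 1 ∧
    ∀ ε1 : ℝ, 0 < ε1 → ∃ (θ : ℝ) (d0 : ℕ), 0 < θ ∧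
    ∀ (V : Type u) [Fintype V] (G N0 : SimpleGraph V) (d D s : ℕ) (sd pt : V → Bool)
      (Q : Bool → Finset ℕ) (P2 : Finset ℕ) (F : V → Finset ℕ) (W : ℕ → Finset V)
      (Zs : Finset (Finset V)) (par : Finset V → Prop), d0 ≤ d → Zs.card ≤ 10 →
      SI G N0 d D s C σ π κ θ sd pt Q P2 F W → RO G par r1 (1 / (2 * C)) ε1 →
      (∀ b ∈ PP d Q P2, par (univ.filter fun v => b ∈ F v ∨ v ∈ W b)) →
      ∃ (U Con2 : SimpleGraph V) (L : V → Finset ℕ) (t : V → V → ℕ),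
        SO G N0 U Con2 d κ (1 / N2) lam ι sd pt Q P2 F W Zs L t

end Pool.Agent.Work.MP_db9399_da_helper72
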